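import Mathlib

set_option autoImplicit false

/-!
Lemmas on finite `p`-groups used for the synchronized Sylow intersection theorem.
-/

namespace Pool.Agent.Helper96.Sy

open Subgroup

/-- If `R ≤ S` are normal subgroups of a finite `p`-group and `R ≠ S`, some element of `S \ R` is
central modulo `R`. -/
lemma exists_central_mod {p : ℕ} [hp : Fact p.Prime] {P : Type*} [Group P] [Finite P]
    (hP : IsPGroup p P) (R S : Subgroup P) [hR : R.Normal] [hS : S.Normal]
    (hne : ∃ s ∈ S, s ∉ R) :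
    ∃ y ∈ S, y ∉ R ∧ ∀ g : P, g * y * g⁻¹ * y⁻¹ ∈ R := by
  let Q := P ⧸ R
  have hQ : IsPGroup p Q := hP.to_quotient R
  let f : P →* Q := QuotientGroup.mk' R
  have hf : Function.Surjective f := QuotientGroup.mk'_surjective R
  let SQ : Subgroup Q := S.map f
  have : SQ.Normal := hS.map f hf
  have hSQ : IsPGroup p SQ := hQ.to_subgroup SQ
  obtain ⟨s, hs, hsR⟩ := hne
  have hnt : Nontrivial SQ := by
    refine ⟨⟨⟨f s, mem_map_of_mem f hs⟩, 1, ?_⟩⟩
    intro h
    have h1 : f s = 1 := congrArg Subtype.val h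
    exact hsR ((QuotientGroup.eq_one_iff s).mp h1)
  have hdvd : p ∣ Nat.card SQ := by
    rcases hSQ.card_eq_or_dvd with h | h
    · exact absurd h (Finite.one_lt_card).ne'
    · exact h
  have hQ' : IsPGroup p (ConjAct Q) := hQ.of_equiv ConjAct.toConjAct
  obtain ⟨b, hb, hb1⟩ := hQ'.exists_fixed_point_of_prime_dvd_card_of_fixed_point SQ hdvd
    (a := (1 : SQ)) (fun g => smul_one g)
  obtain ⟨⟨b, hbS⟩, hb'⟩ : ∃ c : SQ, c = b := ⟨b, rfl⟩
  obtain ⟨y, hy, hyb⟩ := hbS
  refine ⟨y, hy, ?_, ?_⟩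
  · intro hyR
    apply hb1
    rw [← hb']
    apply Subtype.ext
    change (1 : Q) = b
    rw [← hyb]
    exact ((QuotientGroup.eq_one_iff y).mpr hyR).symm
  · intro g
    have h1 := hb (ConjAct.toConjAct (f g))
    rw [← hb'] at h1
    have h2 : f g * b * (f g)⁻¹ = b := congrArg Subtype.val h1
    rw [← hyb] at h2
    rw [← QuotientGroup.eq_one_iff]
    change f (g * y * g⁻¹ * y⁻¹) = 1
    rw [map_mul, map_mul, map_mul, map_inv, map_inv, h2, mul_inv_cancel]

/-- Power of a product when the commutator is central. -/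
lemma mul_pow_class_two {P : Type*} [Group P] (b x d : P) (hx : x * b = b * x * d)
    (hdb : d * b = b * d) (hdx : d * x = x * d) (n : ℕ) :
    (b * x) ^ n = b ^ n * x ^ n * d ^ (n * (n - 1) / 2) := by
  have cdb : Commute d b := hdb
  have cdx : Commute d x := hdx
  have hxb : ∀ n : ℕ, x ^ n * b = b * x ^ n * d ^ n := by
    intro n
    induction n with
    | zero => simp
    | succ n ih =>
      calc x ^ (n + 1) * b = x ^ n * (x * b) := by rw [pow_succ, mul_assoc]
        _ = x ^ n * (b * x * d) := by rw [hx]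
        _ = (x ^ n * b) * x * d := by simp only [mul_assoc]
        _ = b * x ^ n * d ^ n * x * d := by rw [ih]
        _ = b * x ^ n * (d ^ n * x) * d := by simp only [mul_assoc]
        _ = b * x ^ n * (x * d ^ n) * d := by rw [(cdx.pow_left n).eq]
        _ = b * x ^ (n + 1) * d ^ (n + 1) := by rw [pow_succ, pow_succ]; simp only [mul_assoc]
  induction n with
  | zero => simp
  | succ n ih =>
    have hn : (n + 1) * (n + 1 - 1) / 2 = n * (n - 1) / 2 + n := by
      have h1 : (n + 1) * (n + 1 - 1) = n * (n - 1) + n * 2 := by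
        rcases n with _ | n
        · simp
        · simp only [Nat.add_sub_cancel]; ring
      rw [h1, Nat.add_mul_div_right _ _ (by norm_num)]
    rw [hn]
    set m := n * (n - 1) / 2
    calc (b * x) ^ (n + 1) = (b * x) ^ n * (b * x) := pow_succ _ _
      _ = b ^ n * x ^ n * d ^ m * (b * x) := by rw [ih]
      _ = b ^ n * x ^ n * (d ^ m * b) * x := by simp only [mul_assoc]
      _ = b ^ n * x ^ n * (b * d ^ m) * x := by rw [(cdb.pow_left m).eq]
      _ = b ^ n * (x ^ n * b) * (d ^ m * x) := by simp only [mul_assoc]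
      _ = b ^ n * (b * x ^ n * d ^ n) * (x * d ^ m) := by rw [hxb, (cdx.pow_left m).eq]
      _ = b ^ n * b * x ^ n * (d ^ n * x) * d ^ m := by simp only [mul_assoc]
      _ = b ^ n * b * x ^ n * (x * d ^ n) * d ^ m := by rw [(cdx.pow_left n).eq]
      _ = b ^ (n + 1) * x ^ (n + 1) * d ^ (m + n) := by
        rw [add_comm m n, pow_add d n m, pow_succ, pow_succ]; simp only [mul_assoc]

/-- Power of a product when the commutator is central of order dividing the odd prime `p`. -/
lemma mul_pow_odd_prime {p : ℕ} (hp2 : Odd p) {P : Type*} [Group P] (b x d : P)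
    (hx : x * b = b * x * d) (hdb : d * b = b * d) (hdx : d * x = x * d) (hd : d ^ p = 1) :
    (b * x) ^ p = b ^ p * x ^ p := by
  rw [mul_pow_class_two b x d hx hdb hdx]
  obtain ⟨k, hk⟩ := hp2
  have h1 : p * (p - 1) / 2 = p * k := by
    have : p - 1 = k * 2 := by omega
    rw [this, ← mul_assoc, Nat.mul_div_cancel _ (by norm_num)]
  rw [h1, pow_mul, hd, one_pow, mul_one]

/-- An abelian `p`-subgroup whose elements of order dividing `p` lie in a cyclic subgroup is
cyclic. -/
lemma cyclic_of_socle {p : ℕ} [hp : Fact p.Prime] {P : Type*} [Group P] [Finite P]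
    (hP : IsPGroup p P) (A : Subgroup P) (hA : ∀ a ∈ A, ∀ b ∈ A, a * b = b * a) (z : P)
    (hz : ∀ a ∈ A, a ^ p = 1 → a ∈ zpowers z) (hzp : z ^ p = 1) :
    ∃ a ∈ A, ∀ x ∈ A, x ∈ zpowers a := by
  classical
  obtain ⟨⟨a, haA⟩, hmax⟩ := Finite.exists_max (fun a : A => orderOf (a : P))
  refine ⟨a, haA, ?_⟩
  by_contra hcon
  push Not at hcon
  obtain ⟨x, hxA, hx⟩ := hcon
  -- a power of `x` outside `⟨a⟩` with `p`-th power in `⟨a⟩`
  have hex : ∃ n : ℕ, x ^ (p ^ n) ∈ zpowers a := by
    obtain ⟨k, hk⟩ := hP x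
    exact ⟨k, by rw [hk]; exact one_mem _⟩
  obtain ⟨y, hyA, hya, hyp⟩ : ∃ y ∈ A, y ∉ zpowers a ∧ y ^ p ∈ zpowers a := by
    have h1 := Nat.find_spec hex
    have h0 : Nat.find hex ≠ 0 := by
      intro h
      rw [h] at h1
      simp only [pow_zero, pow_one] at h1
      exact hx h1
    obtain ⟨n, hn⟩ := Nat.exists_eq_succ_of_ne_zero h0
    refine ⟨x ^ (p ^ n), A.pow_mem hxA _, ?_, ?_⟩
    · exact Nat.find_min hex (by omega)
    · rw [hn] at h1
      rw [← pow_mul, ← pow_succ]
      exact h1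
  obtain ⟨j, hj⟩ := hyp
  simp only at hj
  by_cases hpj : (p : ℤ) ∣ j
  · obtain ⟨m, hm⟩ := hpj
    -- `y a^{-m}` has order `p`
    have hcomm : Commute y (a ^ (-m)) := by
      have : Commute y a := hA y hyA a haA
      exact this.zpow_right _
    have h1 : (y * a ^ (-m)) ^ p = 1 := by
      rw [hcomm.mul_pow, ← hj, hm, ← zpow_natCast, ← zpow_mul, ← zpow_add]
      have : (p : ℤ) * m + -m * p = 0 := by ring
      rw [this, zpow_zero]
    have h2 : y * a ^ (-m) ∈ zpowers z := hz _ (A.mul_mem hyA (A.zpow_mem haA _)) h1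
    -- `a ≠ 1`
    have ha1 : a ≠ 1 := by
      intro ha1
      have hy1 : y ≠ 1 := by
        rintro rfl
        exact hya (one_mem _)
      have := hmax ⟨y, hyA⟩
      simp only [ha1, orderOf_one] at this
      have h3 : orderOf y = 1 := le_antisymm this (orderOf_pos y)
      exact hy1 (orderOf_eq_one_iff.mp h3)
    -- an element of order `p` in `⟨a⟩`
    have hpa : p ∣ orderOf a := hP.dvd_orderOf ha1
    obtain ⟨l, hl⟩ := hpa
    have hl0 : l ≠ 0 := by
      rintro rfl
      have := orderOf_pos a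
      omega
    have h3 : a ^ l ≠ 1 := by
      intro h
      have h4 := orderOf_dvd_of_pow_eq_one h
      have h5 := Nat.le_of_dvd (Nat.pos_of_ne_zero hl0) h4
      have h6 := hp.out.two_le
      rw [hl] at h5
      nlinarith [Nat.pos_of_ne_zero hl0]
    have h4 : (a ^ l) ^ p = 1 := by
      rw [← pow_mul, mul_comm, ← hl, pow_orderOf_eq_one]
    have h5 : a ^ l ∈ zpowers z := hz _ (A.pow_mem haA _) h4
    obtain ⟨i, hi⟩ := h5
    simp only at hi
    -- `z ∈ ⟨a⟩`
    have hcop : IsCoprime i (p : ℤ) := by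
      rw [Int.isCoprime_iff_gcd_eq_one, Int.gcd_comm]
      have h6 : ¬ (p : ℤ) ∣ i := by
        rintro ⟨t, ht⟩
        apply h3
        rw [← hi, ht, zpow_mul, zpow_natCast, hzp, one_zpow]
      exact Int.isCoprime_iff_gcd_eq_one.mp
        ((Nat.prime_iff_prime_int.mp hp.out).irreducible.coprime_iff_not_dvd.mpr h6)
    obtain ⟨s, t, hst⟩ := hcop
    have hza : z ∈ zpowers a := by
      have : z = (a ^ l) ^ s := by
        rw [← hi, ← zpow_mul]
        have h7 : i * s = 1 - p * t := by linarith [mul_comm s i, mul_comm t (p : ℤ)]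
        rw [h7, zpow_sub, zpow_one, zpow_mul, zpow_natCast, hzp, one_zpow, inv_one, mul_one]
      rw [this]
      exact (zpowers a).zpow_mem ((zpowers a).pow_mem (mem_zpowers a) _) _
    apply hya
    have h8 : y = (y * a ^ (-m)) * a ^ m := by
      rw [mul_assoc, ← zpow_add, neg_add_cancel, zpow_zero, mul_one]
    rw [h8]
    refine (zpowers a).mul_mem ?_ ((zpowers a).zpow_mem (mem_zpowers a) _)
    exact (zpowers_le.mpr hza) h2
  · -- then `y` has larger order than `a`
    have h1 : orderOf (y ^ p) = orderOf a := by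
      rw [← hj]
      obtain ⟨k, hk⟩ := (IsPGroup.iff_orderOf.mp hP) a
      have hcop : IsCoprime j ((orderOf a : ℕ) : ℤ) := by
        rw [hk]
        push_cast
        apply IsCoprime.pow_right
        rw [isCoprime_comm]
        exact (Nat.prime_iff_prime_int.mp hp.out).irreducible.coprime_iff_not_dvd.mpr hpj
      obtain ⟨s, t, hst⟩ := hcop
      apply Nat.dvd_antisymm
      · rw [orderOf_dvd_iff_pow_eq_one, ← zpow_natCast, ← zpow_mul, mul_comm, zpow_mul,
          zpow_natCast, pow_orderOf_eq_one, one_zpow]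
      · have h3 : a = (a ^ j) ^ s := by
          rw [← zpow_mul]
          have h7 : j * s = 1 - (orderOf a : ℤ) * t := by
            linarith [mul_comm s j, mul_comm t (orderOf a : ℤ)]
          rw [h7, zpow_sub, zpow_one, zpow_mul, zpow_natCast, pow_orderOf_eq_one, one_zpow,
            inv_one, mul_one]
        conv_lhs => rw [h3]
        rw [orderOf_dvd_iff_pow_eq_one, ← zpow_natCast, ← zpow_mul, mul_comm, zpow_mul,
          zpow_natCast, pow_orderOf_eq_one, one_zpow]
    have hy1 : y ≠ 1 := by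
      rintro rfl
      exact hya (one_mem _)
    have hpy : p ∣ orderOf y := hP.dvd_orderOf hy1
    have h2 : orderOf (y ^ p) = orderOf y / p := by
      rw [orderOf_pow, Nat.gcd_eq_right hpy]
    have h3 := hmax ⟨y, hyA⟩
    simp only at h3
    rw [← h1, h2] at h3
    have h4 := Nat.div_lt_self (orderOf_pos y) hp.out.one_lt
    omega

/-- In a maximal normal abelian subgroup `A` of a finite `p`-group, `A` is its own centralizer. -/
lemma exists_self_centralizing {p : ℕ} [hp : Fact p.Prime] {P : Type*} [Group P] [Finite P]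
    (hP : IsPGroup p P) :
    ∃ A : Subgroup P, A.Normal ∧ (∀ a ∈ A, ∀ b ∈ A, a * b = b * a) ∧
      ∀ x : P, (∀ a ∈ A, x * a = a * x) → x ∈ A := by
  classical
  obtain ⟨A, hA⟩ := (Set.toFinite {A : Subgroup P | A.Normal ∧
    ∀ a ∈ A, ∀ b ∈ A, a * b = b * a}).exists_maximal
    ⟨⊥, inferInstance, by
      intro a ha b hb
      rw [mem_bot] at ha hb
      rw [ha, hb]⟩
  obtain ⟨⟨hAn, hAc⟩, hmax⟩ := hA
  refine ⟨A, hAn, hAc, ?_⟩
  by_contra hcon
  push Not at hcon
  obtain ⟨x, hx, hxA⟩ := hcon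
  let C : Subgroup P := Subgroup.centralizer (A : Set P)
  have hC : ∀ x, x ∈ C ↔ ∀ a ∈ A, x * a = a * x := by
    intro x
    rw [Subgroup.mem_centralizer_iff]
    exact ⟨fun h a ha => (h a ha).symm, fun h a ha => (h a ha).symm⟩
  have hCn : C.Normal := by
    constructor
    intro n hn g
    rw [hC] at hn ⊢
    intro a ha
    have h1 : g⁻¹ * a * g ∈ A := by
      have := hAn.conj_mem a ha g⁻¹
      rwa [inv_inv] at this
    have h2 := hn _ h1
    calc g * n * g⁻¹ * a = g * (n * (g⁻¹ * a * g)) * g⁻¹ := by group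
      _ = g * ((g⁻¹ * a * g) * n) * g⁻¹ := by rw [h2]
      _ = a * (g * n * g⁻¹) := by group
  obtain ⟨b, hbC, hbA, hbg⟩ := exists_central_mod hP A C ⟨x, (hC x).mpr hx, hxA⟩
  rw [hC] at hbC
  let B : Subgroup P := A ⊔ zpowers b
  have hB : ∀ y, y ∈ B ↔ ∃ a ∈ A, ∃ k : ℤ, a * b ^ k = y := by
    intro y
    rw [Subgroup.mem_sup_of_normal_left]
    constructor
    · rintro ⟨a, ha, c, ⟨k, hk⟩, h⟩
      exact ⟨a, ha, k, by rw [← h, ← hk]⟩
    · rintro ⟨a, ha, k, h⟩
      exact ⟨a, ha, b ^ k, ⟨k, rfl⟩, h⟩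
  have hBn : B.Normal := by
    constructor
    intro n hn g
    rw [hB] at hn
    obtain ⟨a, ha, k, rfl⟩ := hn
    have h1 : g * (a * b ^ k) * g⁻¹ = (g * a * g⁻¹) * (g * b * g⁻¹) ^ k := by
      rw [conj_zpow]; group
    rw [h1]
    refine B.mul_mem (le_sup_left (b := zpowers b) (hAn.conj_mem a ha g)) (B.zpow_mem ?_ _)
    have h2 : g * b * g⁻¹ = (g * b * g⁻¹ * b⁻¹) * b := by group
    rw [h2]
    exact B.mul_mem (le_sup_left (b := zpowers b) (hbg g))
      (le_sup_right (a := A) (mem_zpowers b))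
  have hBc : ∀ x ∈ B, ∀ y ∈ B, x * y = y * x := by
    intro x hx y hy
    rw [hB] at hx hy
    obtain ⟨a, ha, k, rfl⟩ := hx
    obtain ⟨a', ha', k', rfl⟩ := hy
    have e1 : Commute a a' := hAc a ha a' ha'
    have e2 : Commute b a := hbC a ha
    have e3 : Commute b a' := hbC a' ha'
    have h3 : Commute (a * b ^ k) (a' * b ^ k') := by
      refine Commute.mul_left (Commute.mul_right e1 ?_) (Commute.mul_right ?_ ?_)
      · exact e2.symm.zpow_right _
      · exact e3.zpow_left _
      · exact (Commute.refl b).zpow_zpow _ _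
    exact h3
  have h1 := hmax (y := B) ⟨hBn, hBc⟩ le_sup_left
  exact hbA (h1 (le_sup_right (a := A) (mem_zpowers b)))

/-- A finite nonabelian `p`-group, `p` odd, has a central element `z` of order `p` and an element
`y` of order `p` outside `⟨z⟩` which is central modulo `⟨z⟩`. -/
theorem exists_yz {p : ℕ} [hp : Fact p.Prime] (hp2 : p ≠ 2) {P : Type*} [Group P] [Finite P]
    (hP : IsPGroup p P) (hna : ¬ ∀ a b : P, a * b = b * a) :
    ∃ y z : P, z ≠ 1 ∧ z ^ p = 1 ∧ y ^ p = 1 ∧ (∀ g, g * z = z * g) ∧ y ∉ zpowers z ∧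
      ∀ g : P, g * y * g⁻¹ * y⁻¹ ∈ zpowers z := by
  classical
  have hodd : Odd p := hp.out.odd_of_ne_two hp2
  obtain ⟨A, hAn, hAc, hAmax⟩ := exists_self_centralizing hP
  -- the socle of `A`
  let Ω : Subgroup P :=
    { carrier := {a | a ∈ A ∧ a ^ p = 1}
      one_mem' := ⟨one_mem _, one_pow _⟩
      mul_mem' := by
        rintro a b ⟨ha, ha'⟩ ⟨hb, hb'⟩
        refine ⟨mul_mem ha hb, ?_⟩
        have : Commute a b := hAc a ha b hb
        rw [this.mul_pow, ha', hb', one_mul]
      inv_mem' := by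
        rintro a ⟨ha, ha'⟩
        exact ⟨inv_mem ha, by rw [inv_pow, ha', inv_one]⟩ }
  have hΩ : ∀ a, a ∈ Ω ↔ a ∈ A ∧ a ^ p = 1 := fun a => Iff.rfl
  have hΩn : Ω.Normal := by
    constructor
    intro n hn g
    rw [hΩ] at hn ⊢
    refine ⟨hAn.conj_mem n hn.1 g, ?_⟩
    rw [conj_pow, hn.2, mul_one, mul_inv_cancel]
  -- `A ≠ ⊥`
  have hPnt : ∃ x : P, x ≠ 1 := by
    by_contra hcon
    push Not at hcon
    apply hna
    intro a b
    rw [hcon a, hcon b]
  obtain ⟨x0, hx0⟩ := hPnt
  have hA1 : ∃ a ∈ A, a ≠ 1 := by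
    by_contra hcon
    push Not at hcon
    apply hx0
    apply hcon
    apply hAmax
    intro a ha
    rw [hcon a ha, mul_one, one_mul]
  obtain ⟨a1, ha1, ha1'⟩ := hA1
  have hΩ1 : ∃ s ∈ Ω, s ∉ (⊥ : Subgroup P) := by
    have hpa : p ∣ orderOf a1 := hP.dvd_orderOf ha1'
    obtain ⟨l, hl⟩ := hpa
    have hl0 : l ≠ 0 := by
      rintro rfl
      have := orderOf_pos a1
      omega
    refine ⟨a1 ^ l, ⟨A.pow_mem ha1 _, ?_⟩, ?_⟩
    · rw [← pow_mul, mul_comm, ← hl, pow_orderOf_eq_one]
    · rw [mem_bot]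
      intro h
      have h4 := orderOf_dvd_of_pow_eq_one h
      have h5 := Nat.le_of_dvd (Nat.pos_of_ne_zero hl0) h4
      have h6 := hp.out.two_le
      rw [hl] at h5
      nlinarith [Nat.pos_of_ne_zero hl0]
  obtain ⟨z, hzΩ, hz1, hzc⟩ := exists_central_mod hP ⊥ Ω hΩ1
  rw [mem_bot] at hz1
  have hzc' : ∀ g, g * z = z * g := by
    intro g
    have := hzc g
    rw [mem_bot, mul_inv_eq_one, mul_inv_eq_iff_eq_mul] at this
    exact this
  have hzA : z ∈ A := hzΩ.1
  have hzp : z ^ p = 1 := hzΩ.2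
  have hzn : (zpowers z).Normal := by
    constructor
    rintro n ⟨k, rfl⟩ g
    refine ⟨k, ?_⟩
    have : Commute g (z ^ k) := (show Commute g z from hzc' g).zpow_right k
    simp only
    rw [this.eq, mul_inv_cancel_right]
  by_cases hcase : ∃ s ∈ Ω, s ∉ zpowers z
  · obtain ⟨y, hy, hyz, hyg⟩ := exists_central_mod hP (zpowers z) Ω hcase
    exact ⟨y, z, hz1, hzp, hy.2, hzc', hyz, hyg⟩
  push Not at hcase
  have hcase' : ∀ a ∈ A, a ^ p = 1 → a ∈ zpowers z := fun a ha ha' => hcase a ⟨ha, ha'⟩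
  obtain ⟨a, haA, haz⟩ := cyclic_of_socle hP A hAc z hcase' hzp
  -- `A` is not everything
  have hAtop : ∃ s ∈ (⊤ : Subgroup P), s ∉ A := by
    by_contra hcon
    push Not at hcon
    exact hna (fun u v => hAc u (hcon u (mem_top u)) v (hcon v (mem_top v)))
  obtain ⟨b0, -, hb0A, hb0g⟩ := exists_central_mod hP A ⊤ hAtop
  obtain ⟨b, hbA, hbg, hbp⟩ : ∃ b, b ∉ A ∧ (∀ g : P, g * b * g⁻¹ * b⁻¹ ∈ A) ∧ b ^ p ∈ A := by
    have hex : ∃ n : ℕ, b0 ^ (p ^ n) ∈ A := by
      obtain ⟨k, hk⟩ := hP b0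
      exact ⟨k, by rw [hk]; exact one_mem _⟩
    have h1 := Nat.find_spec hex
    have h0 : Nat.find hex ≠ 0 := by
      intro h
      rw [h] at h1
      simp only [pow_zero, pow_one] at h1
      exact hb0A h1
    obtain ⟨n, hn⟩ := Nat.exists_eq_succ_of_ne_zero h0
    refine ⟨b0 ^ (p ^ n), Nat.find_min hex (by omega), ?_, ?_⟩
    · intro g
      have h2 : ∀ m : ℕ, g * b0 ^ m * g⁻¹ * (b0 ^ m)⁻¹ ∈ A := by
        intro m
        have h3 : ((g * b0 ^ m * g⁻¹ * (b0 ^ m)⁻¹ : P) : P ⧸ A) = 1 := by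
          have h4 := (QuotientGroup.eq_one_iff (N := A) _).mpr (hb0g g)
          have h5 : Commute (g : P ⧸ A) (b0 : P ⧸ A) := by
            have h6 : (g : P ⧸ A) * b0 * (g : P ⧸ A)⁻¹ * (b0 : P ⧸ A)⁻¹ = 1 := by
              rw [← h4]; rfl
            rw [mul_inv_eq_one, mul_inv_eq_iff_eq_mul] at h6
            exact h6
          have h7 := (h5.pow_right m).eq
          have h8 : (g : P ⧸ A) * (b0 : P ⧸ A) ^ m * (g : P ⧸ A)⁻¹ * ((b0 : P ⧸ A) ^ m)⁻¹ = 1 := by
            rw [h7, mul_inv_cancel_right, mul_inv_cancel]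
          exact h8
        exact (QuotientGroup.eq_one_iff _).mp h3
      exact h2 _
    · rw [hn] at h1
      rw [← pow_mul, ← pow_succ]
      exact h1
  -- `b` does not commute with `a`
  have hba : b * a ≠ a * b := by
    intro h
    apply hbA
    apply hAmax
    intro x hx
    obtain ⟨k, rfl⟩ := haz x hx
    exact ((show Commute b a from h).zpow_right k).eq
  -- `c = [b, a]`
  set c := b * a * b⁻¹ * a⁻¹ with hc
  have hcA : c ∈ A := mul_mem (hAn.conj_mem a haA b) (inv_mem haA)
  have hbac : b * a * b⁻¹ = c * a := by rw [hc]; group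
  have hc1 : c ≠ 1 := by
    intro h
    apply hba
    rw [h, one_mul, mul_inv_eq_iff_eq_mul] at hbac
    exact hbac
  obtain ⟨k, hk⟩ := haz _ (hAn.conj_mem a haA b)
  simp only at hk
  obtain ⟨n, hn⟩ := (IsPGroup.iff_orderOf.mp hP) a
  have ha1 : a ≠ 1 := by
    rintro rfl
    simp at hba
  have hn0 : n ≠ 0 := by
    rintro rfl
    rw [pow_zero, orderOf_eq_one_iff] at hn
    exact ha1 hn
  -- `b ^ m a b ^ {-m} = a ^ (k ^ m)`
  have hconj : ∀ m : ℕ, b ^ m * a * (b ^ m)⁻¹ = a ^ (k ^ m) := by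
    intro m
    induction m with
    | zero => simp
    | succ m ih =>
      have h1 : b ^ (m + 1) * a * (b ^ (m + 1))⁻¹ = b * (b ^ m * a * (b ^ m)⁻¹) * b⁻¹ := by
        rw [pow_succ']; group
      rw [h1, ih, ← conj_zpow, ← hk, ← zpow_mul, pow_succ']
  have hkp : a ^ (k ^ p - 1) = 1 := by
    have h1 := hconj p
    have h2 : b ^ p * a = a * b ^ p := hAc _ hbp _ haA
    rw [h2, mul_inv_cancel_right] at h1
    rw [zpow_sub, ← h1, zpow_one, mul_inv_cancel]
  have hdvd : ((p ^ n : ℕ) : ℤ) ∣ k ^ p - 1 := by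
    rw [← hn]
    exact orderOf_dvd_iff_zpow_eq_one.mpr hkp
  have hpk : (p : ℤ) ∣ k - 1 := by
    have h1 : (p : ℤ) ∣ k ^ p - 1 := by
      refine dvd_trans ?_ hdvd
      exact_mod_cast dvd_pow_self p hn0
    have h2 : (p : ℤ) ∣ k ^ p - k := by
      rw [← ZMod.intCast_zmod_eq_zero_iff_dvd]
      push_cast
      rw [ZMod.pow_card, sub_self]
    have h3 : k - 1 = (k ^ p - 1) - (k ^ p - k) := by ring
    rw [h3]
    exact dvd_sub h1 h2
  have hpk' : ¬ (p : ℤ) ∣ k := by
    intro h
    have h1 : (p : ℤ) ∣ 1 := by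
      have : (1 : ℤ) = k - (k - 1) := by ring
      rw [this]
      exact dvd_sub h hpk
    have h2 := Int.isUnit_iff_natAbs_eq.mp (isUnit_of_dvd_one h1)
    simp only [Int.natAbs_natCast] at h2
    exact hp.out.one_lt.ne' h2
  have hlte := Int.emultiplicity_pow_sub_pow hp.out hodd (x := k) (y := 1) hpk hpk' p
  have hcp : (c) ^ p = 1 := by
    have h1 : ((p ^ n : ℕ) : ℤ) ∣ (k - 1) * p := by
      have h2 : (n : ℕ∞) ≤ emultiplicity (p : ℤ) (k ^ p - 1) := by
        rw [← pow_dvd_iff_le_emultiplicity]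
        exact_mod_cast hdvd
      rw [one_pow] at hlte
      rw [hlte] at h2
      have h3 : emultiplicity p p = 1 := by
        rw [← Nat.cast_one]
        apply emultiplicity_eq_coe.mpr
        constructor
        · simp
        · intro h
          have h4 := Nat.le_of_dvd hp.out.pos h
          have h5 := hp.out.one_lt
          have h6 : p ^ (1 + 1) = p * p := by ring
          rw [h6] at h4
          nlinarith
      push_cast
      rw [pow_dvd_iff_le_emultiplicity, emultiplicity_mul (Nat.prime_iff_prime_int.mp hp.out)]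
      have h4 : emultiplicity (p : ℤ) (p : ℤ) = 1 := by
        rw [Int.natCast_emultiplicity, h3]
      rw [h4, ← h3]
      exact h2
    have h2 : c = a ^ (k - 1) := by
      rw [zpow_sub, hk, zpow_one]
    rw [h2, ← zpow_natCast, ← zpow_mul, ← orderOf_dvd_iff_zpow_eq_one, hn]
    exact h1
  have hcz : c ∈ zpowers z := hcase' c hcA hcp
  have hcc : ∀ g, g * c = c * g := by
    obtain ⟨t, ht⟩ := hcz
    intro g
    rw [← ht]
    exact ((show Commute g z from hzc' g).zpow_right t).eq
  have hcord : orderOf c = p := orderOf_eq_prime hcp hc1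
  -- conjugation by `b` of powers of `a`
  have hbpow : ∀ i : ℤ, b * a ^ i * b⁻¹ = c ^ i * a ^ i := by
    intro i
    rw [← conj_zpow, hbac]
    exact (show Commute c a from (hcc a).symm).mul_zpow i
  obtain ⟨j, hj⟩ := haz _ hbp
  simp only at hj
  have hpj : (p : ℤ) ∣ j := by
    have h1 := hbpow j
    rw [hj] at h1
    have h2 : b * b ^ p * b⁻¹ = b ^ p := by rw [← pow_succ', pow_succ, mul_inv_cancel_right]
    rw [h2] at h1
    have h3 : c ^ j = 1 := by
      have := h1.symm
      rwa [mul_eq_right] at this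
    rw [← hcord]
    exact orderOf_dvd_iff_zpow_eq_one.mpr h3
  obtain ⟨m, hm⟩ := hpj
  -- the element `y = b a ^ {-m}`
  set x := a ^ (-m) with hx
  have hxA : x ∈ A := A.zpow_mem haA _
  have hbx : b * x = c ^ (-m) * x * b := by
    have := hbpow (-m)
    rw [mul_inv_eq_iff_eq_mul] at this
    rw [hx, this]
  have hxb : x * b = b * x * c ^ m := by
    rw [hbx]
    have h1 : Commute (c ^ m) b := ((show Commute c b from (hcc b).symm).zpow_left m)
    rw [mul_assoc (c ^ (-m) * x) b, ← h1.eq, ← mul_assoc, mul_assoc (c ^ (-m)) x,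
      ← ((show Commute c x from (hcc x).symm).zpow_left m).eq, ← mul_assoc, ← zpow_add,
      neg_add_cancel, zpow_zero, one_mul]
  have hyp : (b * x) ^ p = 1 := by
    rw [mul_pow_odd_prime hodd b x (c ^ m) hxb
      ((show Commute c b from (hcc b).symm).zpow_left m).eq
      ((show Commute c x from (hcc x).symm).zpow_left m).eq
      (by rw [← zpow_natCast, ← zpow_mul, mul_comm, zpow_mul, zpow_natCast, hcp, one_zpow])]
    rw [← hj, hm, hx, ← zpow_natCast, ← zpow_mul, ← zpow_add]
    have : (p : ℤ) * m + -m * p = 0 := by ring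
    rw [this, zpow_zero]
  have hyA : b * x ∉ A := by
    intro h
    apply hbA
    have : b = (b * x) * x⁻¹ := by group
    rw [this]
    exact mul_mem h (inv_mem hxA)
  refine ⟨b * x, z, hz1, hzp, hyp, hzc', ?_, ?_⟩
  · intro h
    exact hyA (zpowers_le.mpr hzA h)
  · intro g
    set y := b * x with hy
    set t := g * y * g⁻¹ * y⁻¹ with ht
    have htA : t ∈ A := by
      have h1 : t = (g * b * g⁻¹ * b⁻¹) * (b * ((g * x * g⁻¹) * x⁻¹) * b⁻¹) := by
        rw [ht, hy]; group
      rw [h1]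
      exact mul_mem (hbg g) (hAn.conj_mem _ (mul_mem (hAn.conj_mem x hxA g) (inv_mem hxA)) b)
    have hty : g * y * g⁻¹ = t * y := by rw [ht]; group
    have h1 : (t * y) ^ p = 1 := by
      rw [← hty, conj_pow, hyp, mul_one, mul_inv_cancel]
    obtain ⟨s, hs⟩ := haz t htA
    simp only at hs
    have h2 : y * t = t * y * c ^ s := by
      have h3 : b * t * b⁻¹ = c ^ s * t := by rw [← hs]; exact hbpow s
      have h4 : x * t = t * x := hAc x hxA t htA
      rw [mul_inv_eq_iff_eq_mul] at h3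
      have h5 : Commute (c ^ s) (t * y) :=
        ((show Commute c (t * y) from (hcc (t * y)).symm).zpow_left s)
      calc y * t = b * (x * t) := mul_assoc b x t
        _ = b * (t * x) := by rw [h4]
        _ = (b * t) * x := (mul_assoc b t x).symm
        _ = (c ^ s * t * b) * x := by rw [h3]
        _ = (c ^ s * t) * (b * x) := mul_assoc _ _ _
        _ = c ^ s * (t * y) := mul_assoc _ _ _
        _ = t * y * c ^ s := h5.eq
    have h3 := mul_pow_odd_prime hodd t y (c ^ s) h2
      ((show Commute c t from (hcc t).symm).zpow_left s).eq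
      ((show Commute c y from (hcc y).symm).zpow_left s).eq
      (by rw [← zpow_natCast, ← zpow_mul, mul_comm, zpow_mul, zpow_natCast, hcp, one_zpow])
    rw [h1, hyp, mul_one] at h3
    exact hcase' t htA h3.symm

end Pool.Agent.Helper96.Sy
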