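import Mathlib
import Pool.Agent.Helper96.SyPGroup

set_option autoImplicit false

/-!
The core lemma on commuting `p`-groups acting coprimely on a finite abelian group.
-/

namespace Pool.Agent.Helper96.Sy

open Finset

section Core

variable {G : Type*} [Group G] {V : Type*} [AddCommGroup V] [DistribMulAction G V]

/-- The (scaled) averaging operator `m' • ∑_{k < m} g ^ k`. -/
def proj (g : G) (m m' : ℕ) (v : V) : V := m' • ∑ k ∈ range m, g ^ k • v

lemma proj_add (g : G) (m m' : ℕ) (v w : V) :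
    proj g m m' (v + w) = proj g m m' v + proj g m m' w := by
  simp only [proj, smul_add, sum_add_distrib]

lemma proj_zero (g : G) (m m' : ℕ) : proj g m m' (0 : V) = 0 := by
  simp [proj]

lemma proj_sub (g : G) (m m' : ℕ) (v w : V) :
    proj g m m' (v - w) = proj g m m' v - proj g m m' w := by
  simp only [proj, smul_sub, sum_sub_distrib]

lemma proj_neg (g : G) (m m' : ℕ) (v : V) :
    proj g m m' (-v) = - proj g m m' v := by
  simp only [proj, smul_neg, sum_neg_distrib]

lemma pow_smul_mem {g : G} {W : AddSubgroup V} (hW : ∀ w ∈ W, g • w ∈ W) (k : ℕ) :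
    ∀ w ∈ W, g ^ k • w ∈ W := by
  induction k with
  | zero => intro w hw; simpa using hw
  | succ k ih =>
    intro w hw
    rw [pow_succ', mul_smul]
    exact hW _ (ih w hw)

lemma proj_mem {g : G} {W : AddSubgroup V} (hW : ∀ w ∈ W, g • w ∈ W) (m m' : ℕ) :
    ∀ w ∈ W, proj g m m' w ∈ W := by
  intro w hw
  exact W.nsmul_mem (W.sum_mem fun k _ => pow_smul_mem hW k w hw) _

lemma smul_proj_self (g : G) (m m' : ℕ) (v : V) (hv : g ^ m • v = v) :
    g • proj g m m' v = proj g m m' v := by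
  unfold proj
  rw [smul_comm, smul_sum]
  congr 1
  have h1 : ∀ k ∈ range m, g • g ^ k • v = g ^ (k + 1) • v := by
    intro k _
    rw [pow_succ', mul_smul]
  rw [sum_congr rfl h1]
  have h2 := sum_range_succ (fun k => g ^ k • v) m
  have h3 := sum_range_succ' (fun k => g ^ k • v) m
  rw [h2, hv] at h3
  simp only [pow_zero, one_smul] at h3
  exact (add_right_cancel h3).symm

lemma pow_smul_of_smul {g : G} {v : V} (hv : g • v = v) (k : ℕ) : g ^ k • v = v := by
  induction k with
  | zero => simp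
  | succ k ih => rw [pow_succ, mul_smul, hv, ih]

lemma proj_of_fixed (g : G) (m m' : ℕ) (v : V) (hv : g • v = v) (hm : (m' * m) • v = v) :
    proj g m m' v = v := by
  unfold proj
  rw [sum_congr rfl (fun k _ => pow_smul_of_smul hv k), sum_const, card_range, ← mul_smul]
  exact hm

lemma smul_pow_comm {g h : G} {W : AddSubgroup V} (hW : ∀ w ∈ W, g • w ∈ W)
    (hgh : ∀ w ∈ W, h • g • w = g • h • w) (k : ℕ) :
    ∀ w ∈ W, h • g ^ k • w = g ^ k • h • w := by
  induction k with
  | zero => intro w _; simp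
  | succ k ih =>
    intro w hw
    rw [pow_succ', mul_smul, hgh _ (pow_smul_mem hW k w hw), ih w hw, mul_smul]

lemma smul_proj_comm {g h : G} {W : AddSubgroup V} (hW : ∀ w ∈ W, g • w ∈ W)
    (hgh : ∀ w ∈ W, h • g • w = g • h • w) (m m' : ℕ) :
    ∀ w ∈ W, h • proj g m m' w = proj g m m' (h • w) := by
  intro w hw
  unfold proj
  rw [smul_comm, smul_sum]
  congr 1
  exact sum_congr rfl fun k _ => smul_pow_comm hW hgh k w hw

/-- The statement of the core lemma for the family `T` on `W`. -/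
def Good {ι : Type*} (T : ι → Subgroup G) (W : AddSubgroup V) : Prop :=
  ∀ u : ι → V, (∀ i, u i ∈ W) →
    ∃ v ∈ W, ∀ i, ∀ g ∈ T i, g • (v + u i) = v + u i → ∀ w ∈ W, g • w = w

lemma good_of_split {ι : Type*} (T : ι → Subgroup G) (W C D : AddSubgroup V)
    (hC : C ≤ W) (hD : D ≤ W) (hdisj : ∀ w ∈ C, w ∈ D → w = 0)
    (hsum : ∀ w ∈ W, ∃ c ∈ C, ∃ d ∈ D, c + d = w)
    (hTC : ∀ i, ∀ g ∈ T i, ∀ c ∈ C, g • c ∈ C) (hTD : ∀ i, ∀ g ∈ T i, ∀ c ∈ D, g • c ∈ D)
    (gC : Good T C) (gD : Good T D) : Good T W := by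
  intro u hu
  choose c hc d hd hcd using fun i => hsum (u i) (hu i)
  obtain ⟨v1, hv1, h1⟩ := gC c hc
  obtain ⟨v2, hv2, h2⟩ := gD d hd
  refine ⟨v1 + v2, W.add_mem (hC hv1) (hD hv2), ?_⟩
  intro i g hg hfix
  have e1 : v1 + v2 + u i = (v1 + c i) + (v2 + d i) := by rw [← hcd i]; abel
  rw [e1, smul_add] at hfix
  have m1 : g • (v1 + c i) - (v1 + c i) ∈ C :=
    C.sub_mem (hTC i g hg _ (C.add_mem hv1 (hc i))) (C.add_mem hv1 (hc i))
  have m2 : g • (v1 + c i) - (v1 + c i) ∈ D := by
    have : g • (v1 + c i) - (v1 + c i) = (v2 + d i) - g • (v2 + d i) := by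
      rw [sub_eq_sub_iff_add_eq_add, hfix]; abel
    rw [this]
    exact D.sub_mem (D.add_mem hv2 (hd i)) (hTD i g hg _ (D.add_mem hv2 (hd i)))
  have e2 : g • (v1 + c i) = v1 + c i := sub_eq_zero.mp (hdisj _ m1 m2)
  have e3 : g • (v2 + d i) = v2 + d i := by
    rw [e2] at hfix
    exact add_left_cancel hfix
  intro w hw
  obtain ⟨a, ha, b, hb, rfl⟩ := hsum w hw
  rw [smul_add, h1 i g hg e2 a ha, h2 i g hg e3 b hb]

/-- Restriction of the elements of a subgroup preserving `W` to `W`. -/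
def resHom (H : Subgroup G) (W : AddSubgroup V) (hW : ∀ g ∈ H, ∀ w ∈ W, g • w ∈ W) :
    H →* (W ≃ₗ[ℤ] W) where
  toFun g := AddEquiv.toIntLinearEquiv
    { toFun := fun w => ⟨(g : G) • (w : V), hW g g.2 w w.2⟩
      invFun := fun w => ⟨(g : G)⁻¹ • (w : V), hW _ (H.inv_mem g.2) w w.2⟩
      left_inv := fun w => Subtype.ext (by simp)
      right_inv := fun w => Subtype.ext (by simp)
      map_add' := fun a b => Subtype.ext (by simp) }
  map_one' := by
    apply LinearEquiv.ext
    intro w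
    apply Subtype.ext
    change ((1 : H) : G) • (w : V) = w
    simp
  map_mul' g h := by
    apply LinearEquiv.ext
    intro w
    apply Subtype.ext
    change ((g * h : H) : G) • (w : V) = (g : G) • (h : G) • (w : V)
    simp [mul_smul]

lemma resHom_apply (H : Subgroup G) (W : AddSubgroup V) (hW : ∀ g ∈ H, ∀ w ∈ W, g • w ∈ W)
    (g : H) (w : W) : ((resHom H W hW g • w : W) : V) = (g : G) • (w : V) := rfl

/-- The number of subgroups elements decreases for proper subgroups. -/
lemma card_lt_of_lt [Finite V] {W W' : AddSubgroup V} (h : W ≤ W') (hne : ∃ w ∈ W', w ∉ W) :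
    Nat.card W < Nat.card W' := by
  by_contra hc
  have := AddSubgroup.eq_of_le_of_card_ge h (not_lt.mp hc)
  obtain ⟨w, hw, hw'⟩ := hne
  rw [this] at hw'
  exact hw' hw

/-- The subgroup of fixed vectors. -/
def fixSub (c : G) : AddSubgroup V where
  carrier := {v | c • v = v}
  zero_mem' := smul_zero c
  add_mem' := by
    intro a b ha hb
    simp only [Set.mem_ofPred_eq] at ha hb ⊢
    rw [smul_add, ha, hb]
  neg_mem' := by
    intro a ha
    simp only [Set.mem_ofPred_eq] at ha ⊢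
    rw [smul_neg, ha]

lemma mem_fixSub {c : G} {v : V} : v ∈ (fixSub c : AddSubgroup V) ↔ c • v = v := Iff.rfl

/-- The kernel of the averaging operator. -/
def kerSub (c : G) (m m' : ℕ) : AddSubgroup V where
  carrier := {v | proj c m m' v = 0}
  zero_mem' := proj_zero c m m'
  add_mem' := by
    intro a b ha hb
    simp only [Set.mem_ofPred_eq] at ha hb ⊢
    rw [proj_add, ha, hb, add_zero]
  neg_mem' := by
    intro a ha
    simp only [Set.mem_ofPred_eq] at ha ⊢
    rw [proj_neg, ha, neg_zero]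

lemma mem_kerSub {c : G} {m m' : ℕ} {v : V} :
    v ∈ (kerSub c m m' : AddSubgroup V) ↔ proj c m m' v = 0 := Iff.rfl

/-- An inverse of `m` modulo the order of `V`. -/
lemma exists_inv [Finite V] (m : ℕ) (h : (Nat.card V).Coprime m) :
    ∃ m' : ℕ, ∀ v : V, (m' * m) • v = v := by
  obtain ⟨k, hk⟩ : ∃ k : ℕ, m * k ≡ 1 [MOD Nat.card V] := by
    rcases Nat.lt_or_ge 1 (Nat.card V) with h1 | h1
    · obtain ⟨k, hk⟩ := Nat.exists_mul_mod_eq_one_of_coprime h.symm h1
      refine ⟨k, ?_⟩
      rw [Nat.ModEq, hk.2, Nat.mod_eq_of_lt h1]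
    · refine ⟨0, ?_⟩
      have h2 : Nat.card V = 1 := le_antisymm h1 Nat.card_pos
      rw [h2]
      exact Nat.modEq_one
  refine ⟨k, fun v => ?_⟩
  have h3 : (k * m) • v = 1 • v := by
    rw [mul_comm]
    have h4 : addOrderOf v ∣ Nat.card V := addOrderOf_dvd_natCard v
    rw [← mod_addOrderOf_nsmul, hk.of_dvd h4, mod_addOrderOf_nsmul]
  rw [h3, one_smul]

end Core

end Pool.Agent.Helper96.Sy
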