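import Mathlib
import Pool.Agent.Helper96.SyCore

set_option autoImplicit false

/-!
A nonabelian `p`-group (`p` odd) of automorphisms without proper central decomposition is
imprimitive with `p` blocks permuted cyclically.
-/

namespace Pool.Agent.Helper96.Sy

open Finset

/-- Automorphisms of the abelian group `V`. -/
abbrev Aut (V : Type*) [AddCommGroup V] : Type _ := V ≃ₗ[ℤ] V

variable {V : Type*} [AddCommGroup V]

lemma aut_ext {a b : Aut V} (h : ∀ v : V, a • v = b • v) : a = b := LinearEquiv.ext h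

/-- Imprimitivity data. -/
structure MonoData (p : ℕ) (P : Subgroup (Aut V)) where
  /-- the noncentral element of order `p` -/
  Y : Aut V
  /-- the element permuting the blocks cyclically -/
  g : Aut V
  /-- an element of `P` commuting with `Y` without nonzero fixed vectors -/
  Z : Aut V
  /-- the projection to the fixed vectors of `Y` -/
  e : V → V
  hY : Y ∈ P
  hg : g ∈ P
  hZ : Z ∈ P
  hY1 : Y ≠ 1
  hZY : Z * Y = Y * Z
  hZ0 : ∀ v : V, Z • v = v → v = 0
  e_add : ∀ v w, e (v + w) = e v + e w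
  e_fix : ∀ v, Y • e v = e v
  e_of_fix : ∀ v, Y • v = v → e v = v
  e_comm : ∀ h : Aut V, h * Y = Y * h → ∀ v, h • e v = e (h • v)
  F1 : ∀ v, ∑ j ∈ range p, g ^ j • e ((g ^ j)⁻¹ • v) = v
  F2 : ∀ j t : ℕ, j < p → t < p → j ≠ t → ∀ v, Y • v = v → e ((g ^ t)⁻¹ • g ^ j • v) = 0
  F3 : ∀ h ∈ P, ∃ t < p, ((g ^ t)⁻¹ * h) * Y = Y * ((g ^ t)⁻¹ * h)
  F4 : ∀ h ∈ P, h * Y = Y * h → ∀ j : ℕ,
    ((g ^ j)⁻¹ * h * g ^ j) * Y = Y * ((g ^ j)⁻¹ * h * g ^ j)

lemma fixed_of_zpow {p : ℕ} (hp : p.Prime) {Z : Aut V} (hZp : Z ^ p = 1) {a : ℤ}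
    (ha : ¬ (p : ℤ) ∣ a) {x : V} (hx : Z ^ a • x = x) : Z • x = x := by
  have hcop : IsCoprime a (p : ℤ) := by
    rw [isCoprime_comm]
    exact (Nat.prime_iff_prime_int.mp hp).irreducible.coprime_iff_not_dvd.mpr ha
  obtain ⟨s, t, hst⟩ := hcop
  have h1 : Z ^ a ∈ MulAction.stabilizer (Aut V) x := hx
  have h2 : Z = (Z ^ a) ^ s := by
    rw [← zpow_mul]
    have h7 : a * s = 1 - p * t := by linarith [mul_comm s a, mul_comm t (p : ℤ)]
    rw [h7, zpow_sub, zpow_one, zpow_mul, zpow_natCast, hZp, one_zpow, inv_one, mul_one]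
  have h3 : Z ∈ MulAction.stabilizer (Aut V) x := by
    rw [h2]
    exact Subgroup.zpow_mem _ h1 s
  exact h3

lemma sum_zpow_eq_zero {p : ℕ} (hp : p.Prime) {Z : Aut V} (hZp : Z ^ p = 1)
    (hZ0 : ∀ v : V, Z • v = v → v = 0) {a : ℤ} (ha : ¬ (p : ℤ) ∣ a) (v : V) :
    ∑ j ∈ range p, (Z ^ a) ^ j • v = 0 := by
  apply hZ0
  apply fixed_of_zpow hp hZp ha
  have h1 := smul_proj_self (Z ^ a) p 1 v (by
    rw [← zpow_natCast, ← zpow_mul, mul_comm, zpow_mul, zpow_natCast, hZp, one_zpow, one_smul])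
  simpa [proj] using h1

lemma sum_sum_eq {p : ℕ} (hp : p.Prime) {Y Z : Aut V} (hZY : Commute Z Y) (hZp : Z ^ p = 1)
    (hZ0 : ∀ v : V, Z • v = v → v = 0) {s : ℤ} (hs : ¬ (p : ℤ) ∣ s) (v : V) :
    ∑ j ∈ range p, ∑ k ∈ range p, (Y * Z ^ (s * j)) ^ k • v = p • v := by
  have h1 : ∀ j ∈ range p, ∀ k ∈ range p,
      (Y * Z ^ (s * j)) ^ k • v = Y ^ k • (Z ^ (s * k)) ^ j • v := by
    intro j _ k _
    rw [(hZY.symm.zpow_right (s * j)).mul_pow, mul_smul]
    congr 2
    rw [← zpow_natCast, ← zpow_natCast, ← zpow_mul, ← zpow_mul]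
    congr 1
    ring
  rw [sum_congr rfl fun j hj => sum_congr rfl fun k hk => h1 j hj k hk, sum_comm]
  rw [sum_eq_single 0]
  · simp
  · intro k hk hk0
    rw [← smul_sum, sum_zpow_eq_zero hp hZp hZ0, smul_zero]
    intro hdvd
    rcases (Nat.prime_iff_prime_int.mp hp).dvd_or_dvd hdvd with h | h
    · exact hs h
    · have h2 := Int.natCast_dvd_natCast.mp h
      have h3 := Nat.le_of_dvd (Nat.pos_of_ne_zero hk0) h2
      exact absurd (mem_range.mp hk) (not_lt.mpr h3)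
  · intro h
    exact absurd (mem_range.mpr hp.pos) h

theorem exists_monoData [Finite V] {p : ℕ} [hp : Fact p.Prime] (hp2 : p ≠ 2)
    (hcop : (Nat.card V).Coprime p) (P : Subgroup (Aut V)) (hP : IsPGroup p P)
    (hna : ¬ ∀ a ∈ P, ∀ b ∈ P, a * b = b * a)
    (hdec : ∀ c ∈ P, (∀ h ∈ P, h * c = c * h) → c = 1 ∨ ∀ v : V, c • v = v → v = 0) :
    Nonempty (MonoData p P) := by
  classical
  have hfin : Finite (Aut V) := Finite.of_injective (fun a : Aut V => (a : V → V))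
    DFunLike.coe_injective
  obtain ⟨⟨Y, hY⟩, ⟨Z, hZ⟩, hZ1, hZp, hYp, hZc, hYZ, hYg⟩ :=
    exists_yz hp2 hP (fun h => hna fun a ha b hb => congrArg Subtype.val (h ⟨a, ha⟩ ⟨b, hb⟩))
  replace hZ1 : Z ≠ 1 := fun h => hZ1 (Subtype.ext h)
  replace hZp : Z ^ p = 1 := congrArg Subtype.val hZp
  replace hYp : Y ^ p = 1 := congrArg Subtype.val hYp
  replace hZc : ∀ h ∈ P, h * Z = Z * h := fun h hh => congrArg Subtype.val (hZc ⟨h, hh⟩)
  replace hYZ : ∀ k : ℤ, Y ≠ Z ^ k := by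
    intro k h
    exact hYZ ⟨k, Subtype.ext h.symm⟩
  replace hYg : ∀ h ∈ P, ∃ k : ℤ, h * Y = Z ^ k * Y * h := by
    intro h hh
    obtain ⟨k, hk⟩ := hYg ⟨h, hh⟩
    refine ⟨k, ?_⟩
    have h1 : Z ^ k = h * Y * h⁻¹ * Y⁻¹ := congrArg Subtype.val hk
    rw [h1]; group
  have hY1 : Y ≠ 1 := by
    have := hYZ 0
    rwa [zpow_zero] at this
  have hZ0 : ∀ v : V, Z • v = v → v = 0 := (hdec Z hZ hZc).resolve_left hZ1
  have hZY : Commute Z Y := (hZc Y hY).symm
  -- `V ≠ 0`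
  obtain ⟨w0, hw0⟩ : ∃ w : V, w ≠ 0 := by
    by_contra hcon
    push Not at hcon
    apply hY1
    apply aut_ext
    intro v
    rw [hcon v, smul_zero, smul_zero]
  obtain ⟨m', hm'⟩ := exists_inv (V := V) p hcop
  -- an element not commuting with `Y`
  obtain ⟨g, hg, s, hs, hgY⟩ : ∃ g ∈ P, ∃ s : ℤ, ¬ (p : ℤ) ∣ s ∧ g * Y = Z ^ s * Y * g := by
    by_contra hcon
    push Not at hcon
    have hYc : ∀ h ∈ P, h * Y = Y * h := by
      intro h hh
      obtain ⟨k, hk⟩ := hYg h hh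
      by_cases hpk : (p : ℤ) ∣ k
      · obtain ⟨l, rfl⟩ := hpk
        rw [hk, zpow_mul, zpow_natCast, hZp, one_zpow, one_mul]
      · exact absurd hk (hcon h hh k hpk)
    have hfix : ∀ j : ℕ, ∀ v : V, (Y * Z ^ ((1 : ℤ) * j)) • v = v → v = 0 := by
      intro j
      refine (hdec _ (mul_mem hY (P.zpow_mem hZ _)) ?_).resolve_left ?_
      · intro h hh
        have c1 : Commute h Y := hYc h hh
        have c2 : Commute h Z := hZc h hh
        exact (c1.mul_right (c2.zpow_right _)).eq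
      · intro h
        apply hYZ (-(1 * (j : ℤ)))
        rw [zpow_neg]
        exact eq_inv_of_mul_eq_one_left h
    have h1 := sum_sum_eq hp.out hZY hZp hZ0 (s := 1) (by
      intro h
      have h2 := Int.natCast_dvd_natCast.mp (by simpa using h : (p : ℤ) ∣ ((1 : ℕ) : ℤ))
      exact hp.out.one_lt.ne' (Nat.dvd_one.mp h2)) w0
    have h2 : ∀ j ∈ range p, ∑ k ∈ range p, (Y * Z ^ ((1 : ℤ) * j)) ^ k • w0 = 0 := by
      intro j _
      apply hfix j
      have h3 := smul_proj_self (Y * Z ^ ((1 : ℤ) * j)) p 1 w0 (by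
        rw [(hZY.symm.zpow_right _).mul_pow, hYp, one_mul, ← zpow_natCast, ← zpow_mul, mul_comm,
          zpow_mul, zpow_natCast, hZp, one_zpow, one_smul])
      simpa [proj] using h3
    rw [sum_congr rfl h2, sum_const_zero] at h1
    apply hw0
    rw [← hm' w0, mul_smul, ← h1, smul_zero]
  -- conjugation by powers of `g`
  have hgZ : Commute g Z := hZc g hg
  have hgpow : ∀ a : ℤ, g ^ a * Y = Z ^ (s * a) * Y * g ^ a := by
    have hinv : g⁻¹ * Y = Z ^ (-s) * Y * g⁻¹ := by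
      have h1 : Y = g⁻¹ * (Z ^ s * Y * g) := by rw [← hgY]; group
      have h2 : g⁻¹ * Z ^ s = Z ^ s * g⁻¹ := ((hgZ.zpow_right s).inv_left).eq
      have h3 : Y * g⁻¹ = Z ^ s * (g⁻¹ * Y) := by
        calc Y * g⁻¹ = g⁻¹ * (Z ^ s * Y * g) * g⁻¹ := by rw [← h1]
          _ = (g⁻¹ * Z ^ s) * Y := by group
          _ = Z ^ s * (g⁻¹ * Y) := by rw [h2, mul_assoc]
      rw [mul_assoc, h3, ← mul_assoc, ← zpow_add, neg_add_cancel, zpow_zero, one_mul]
    intro a
    induction a using Int.induction_on with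
    | zero => simp
    | succ n ih =>
      have h1 : g ^ ((n : ℤ) + 1) * Y = g ^ (n : ℤ) * (g * Y) := by
        rw [zpow_add_one, mul_assoc]
      have h2 : g ^ (n : ℤ) * Z ^ s = Z ^ s * g ^ (n : ℤ) := (hgZ.zpow_zpow _ _).eq
      rw [h1, hgY, ← mul_assoc, ← mul_assoc, h2, mul_assoc (Z ^ s), ih]
      have h3 : s * ((n : ℤ) + 1) = s + s * n := by ring
      rw [h3, zpow_add, zpow_add_one]
      simp only [mul_assoc]
    | pred n ih =>
      have h1 : g ^ (-(n : ℤ) - 1) * Y = g ^ (-(n : ℤ)) * (g⁻¹ * Y) := by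
        rw [zpow_sub_one, mul_assoc]
      have h2 : g ^ (-(n : ℤ)) * Z ^ (-s) = Z ^ (-s) * g ^ (-(n : ℤ)) := (hgZ.zpow_zpow _ _).eq
      rw [h1, hinv, ← mul_assoc, ← mul_assoc, h2, mul_assoc (Z ^ (-s)), ih]
      have h3 : s * (-(n : ℤ) - 1) = -s + s * (-(n : ℤ)) := by ring
      rw [h3, zpow_add, zpow_sub_one]
      simp only [mul_assoc]
  have hgconj : ∀ a : ℤ, g ^ a * Y * (g ^ a)⁻¹ = Y * Z ^ (s * a) := by
    intro a
    rw [hgpow, mul_inv_cancel_right]
    exact (hZY.zpow_left _).eq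
  have hpint := Nat.prime_iff_prime_int.mp hp.out
  -- the projection
  let e : V → V := proj Y p m'
  have e_fix : ∀ v, Y • e v = e v := fun v => smul_proj_self Y p m' v (by rw [hYp, one_smul])
  have e_of_fix : ∀ v, Y • v = v → e v = v := fun v hv => proj_of_fixed Y p m' v hv (hm' v)
  have e_comm : ∀ h : Aut V, h * Y = Y * h → ∀ v, h • e v = e (h • v) := by
    intro h hh v
    exact smul_proj_comm (W := ⊤) (fun w _ => AddSubgroup.mem_top _)
      (fun w _ => by rw [← mul_smul, ← mul_smul, hh]) p m' v (AddSubgroup.mem_top _)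
  have F2' : ∀ a : ℤ, ¬ (p : ℤ) ∣ a → ∀ v, Y • v = v → e (g ^ a • v) = 0 := by
    intro a ha v hv
    apply hZ0
    apply fixed_of_zpow hp.out hZp (a := s * a)
    · intro h
      rcases hpint.dvd_or_dvd h with h | h
      · exact hs h
      · exact ha h
    · set x := e (g ^ a • v) with hx
      have h1 : Y • x = x := e_fix _
      have hR : (Y * Z ^ (s * a)) • g ^ a • v = g ^ a • v := by
        rw [← hgconj, mul_smul, mul_smul, inv_smul_smul, hv]
      have h2 : (Y * Z ^ (s * a)) • x = x := by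
        rw [hx, e_comm, hR]
        rw [mul_assoc, (hZY.zpow_left _).eq]
      have h3 : Y * Z ^ (s * a) = Z ^ (s * a) * Y := (hZY.zpow_left _).eq.symm
      rw [h3, mul_smul, h1] at h2
      exact h2
  refine ⟨⟨Y, g, Z, e, hY, hg, hZ, hY1, hZY, hZ0, fun v w => proj_add Y p m' v w, e_fix,
    e_of_fix, e_comm, ?_, ?_, ?_, ?_⟩⟩
  · intro v
    have h1 : ∀ j ∈ range p, g ^ j • e ((g ^ j)⁻¹ • v) =
        m' • ∑ k ∈ range p, (Y * Z ^ (s * j)) ^ k • v := by
      intro j _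
      change g ^ j • (m' • ∑ k ∈ range p, Y ^ k • (g ^ j)⁻¹ • v) = _
      rw [smul_comm, smul_sum]
      congr 1
      refine sum_congr rfl fun k _ => ?_
      have h2 := hgconj j
      rw [zpow_natCast] at h2
      rw [← h2, conj_pow, mul_smul, mul_smul]
    rw [sum_congr rfl h1, ← smul_sum, sum_sum_eq hp.out hZY hZp hZ0 hs, ← mul_smul, hm']
  · intro j t hj ht hjt v hv
    have h1 : (g ^ t)⁻¹ • g ^ j • v = g ^ ((j : ℤ) - t) • v := by
      rw [← mul_smul]
      congr 1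
      rw [zpow_sub, zpow_natCast, zpow_natCast]
      exact (((Commute.refl g).pow_pow t j).inv_left).eq
    rw [h1]
    apply F2' _ _ v hv
    intro hdvd
    obtain ⟨c, hc⟩ := hdvd
    have hc0 : c = 0 := by
      by_contra hne
      rcases Int.lt_or_gt_of_ne hne with h | h
      · nlinarith
      · nlinarith
    subst hc0
    omega
  · intro h hh
    obtain ⟨b, hb⟩ := hYg h hh
    -- `t` with `s t ≡ b`
    obtain ⟨t, ht, hst⟩ : ∃ t < p, (p : ℤ) ∣ b - s * t := by
      have hcop' : IsCoprime s (p : ℤ) := by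
        rw [isCoprime_comm]
        exact hpint.irreducible.coprime_iff_not_dvd.mpr hs
      obtain ⟨x, y, hxy⟩ := hcop'
      refine ⟨((b * x) % p).toNat, ?_, ?_⟩
      · have h1 := Int.emod_lt_of_pos (b * x) (Int.natCast_pos.mpr hp.out.pos)
        have h2 := Int.emod_nonneg (b * x) (Int.natCast_pos.mpr hp.out.pos).ne'
        omega
      · have h2 := Int.emod_nonneg (b * x) (Int.natCast_pos.mpr hp.out.pos).ne'
        rw [Int.toNat_of_nonneg h2]
        have h3 : b * x % p = b * x - p * (b * x / p) := by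
          have := Int.emod_add_mul_ediv (b * x) p
          linarith
        rw [h3]
        refine ⟨b * y + s * (b * x / p), ?_⟩
        have : b = b * (x * s + y * p) := by rw [hxy, mul_one]
        calc b - s * (b * x - p * (b * x / p)) = b * (x * s + y * p) -
              s * (b * x - p * (b * x / p)) := by rw [← this]
          _ = p * (b * y + s * (b * x / p)) := by ring
    refine ⟨t, ht, ?_⟩
    have h1 : Z ^ b = Z ^ (s * t) := by
      obtain ⟨c, hc⟩ := hst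
      have : b = s * t + p * c := by linarith
      rw [this, zpow_add, zpow_mul Z p c, zpow_natCast, hZp, one_zpow, mul_one]
    have h2 : (g ^ t)⁻¹ * (Z ^ (s * t) * Y) = Y * (g ^ t)⁻¹ := by
      have := hgpow t
      rw [zpow_natCast] at this
      have h3 : Z ^ (s * (t : ℤ)) * Y = g ^ t * Y * (g ^ t)⁻¹ := by rw [this, mul_inv_cancel_right]
      rw [h3]; group
    rw [mul_assoc, hb, h1, ← mul_assoc, h2]
    group
  · intro h hh hhY j
    have h2 : g ^ j * Y * (g ^ j)⁻¹ = Z ^ (s * j) * Y := by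
      have := hgpow j
      rw [zpow_natCast] at this
      rw [this, mul_inv_cancel_right]
    have h3 : (g ^ j)⁻¹ * (Z ^ (s * j) * Y) * g ^ j = Y := by
      rw [← h2]; group
    have h4 : h * (Z ^ (s * (j : ℤ)) * Y) = (Z ^ (s * (j : ℤ)) * Y) * h := by
      have c1 : Commute h Z := hZc h hh
      have c2 : Commute h Y := hhY
      exact ((c1.zpow_right _).mul_right c2).eq
    calc (g ^ j)⁻¹ * h * g ^ j * Y = (g ^ j)⁻¹ * h * (g ^ j * Y * (g ^ j)⁻¹) * g ^ j := by group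
      _ = (g ^ j)⁻¹ * (h * (Z ^ (s * (j : ℤ)) * Y)) * g ^ j := by rw [h2]; group
      _ = (g ^ j)⁻¹ * ((Z ^ (s * (j : ℤ)) * Y) * h) * g ^ j := by rw [h4]
      _ = ((g ^ j)⁻¹ * (Z ^ (s * j) * Y) * g ^ j) * ((g ^ j)⁻¹ * h * g ^ j) := by group
      _ = Y * ((g ^ j)⁻¹ * h * g ^ j) := by rw [h3]

end Pool.Agent.Helper96.Sy
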