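import Mathlib
import Pool.Agent.Helper96.SyMono

set_option autoImplicit false

/-!
Two regular orbits of a `p`-group of automorphisms, `p` odd.
-/

namespace Pool.Agent.Helper96.Sy

open Finset

section Comp

variable {V : Type*} [AddCommGroup V] {p : ℕ} {P : Subgroup (Aut V)} (D : MonoData p P)

lemma MonoData.e_zero : D.e 0 = 0 := D.e_of_fix 0 (smul_zero _)

lemma MonoData.e_sum {ι : Type*} (s : Finset ι) (f : ι → V) :
    D.e (∑ i ∈ s, f i) = ∑ i ∈ s, D.e (f i) := by
  classical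
  induction s using Finset.induction_on with
  | empty => simp [D.e_zero]
  | insert a s ha ih => rw [sum_insert ha, sum_insert ha, D.e_add, ih]

/-- The components of a sum over the blocks. -/
lemma MonoData.e_comp (c : ℕ → V) (hc : ∀ j, D.Y • c j = c j) {t : ℕ} (ht : t < p) :
    D.e ((D.g ^ t)⁻¹ • ∑ j ∈ range p, D.g ^ j • c j) = c t := by
  rw [smul_sum, D.e_sum, sum_eq_single t]
  · rw [inv_smul_smul, D.e_of_fix _ (hc t)]
  · intro j hj hjt
    exact D.F2 j t (mem_range.mp hj) ht hjt _ (hc j)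
  · intro h
    exact absurd (mem_range.mpr ht) h

lemma MonoData.e_comp_smul (c : ℕ → V) (hc : ∀ j, D.Y • c j = c j) (h : Aut V) (t : ℕ) {i : ℕ}
    (hi : i < p)
    (hm : ((D.g ^ t)⁻¹ * h * D.g ^ i) * D.Y = D.Y * ((D.g ^ t)⁻¹ * h * D.g ^ i)) :
    D.e ((D.g ^ t)⁻¹ • h • ∑ j ∈ range p, D.g ^ j • c j) =
      ((D.g ^ t)⁻¹ * h * D.g ^ i) • c i := by
  have h1 : (D.g ^ t)⁻¹ • h • ∑ j ∈ range p, D.g ^ j • c j =
      ((D.g ^ t)⁻¹ * h * D.g ^ i) • (D.g ^ i)⁻¹ • ∑ j ∈ range p, D.g ^ j • c j := by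
    rw [mul_smul, mul_smul, smul_inv_smul]
  rw [h1, ← D.e_comm _ hm, D.e_comp c hc hi]

lemma MonoData.exists_t {h : Aut V} (hh : h ∈ P) (i : ℕ) :
    ∃ t < p, ((D.g ^ t)⁻¹ * h * D.g ^ i) * D.Y = D.Y * ((D.g ^ t)⁻¹ * h * D.g ^ i) := by
  obtain ⟨t, ht, h1⟩ := D.F3 (h * D.g ^ i) (P.mul_mem hh (P.pow_mem D.hg i))
  exact ⟨t, ht, by simpa only [mul_assoc] using h1⟩

lemma MonoData.eq_one {h : Aut V}
    (H : ∀ j < p, ∀ v : V, D.Y • v = v → ((D.g ^ j)⁻¹ * h * D.g ^ j) • v = v) : h = 1 := by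
  apply aut_ext
  intro v
  rw [one_smul]
  conv_lhs => rw [← D.F1 v]
  conv_rhs => rw [← D.F1 v]
  rw [smul_sum]
  refine sum_congr rfl fun j hj => ?_
  have h1 := H j (mem_range.mp hj) (D.e ((D.g ^ j)⁻¹ • v)) (D.e_fix _)
  rw [mul_smul, mul_smul, inv_smul_eq_iff] at h1
  exact h1

/-- The stabilizer in the block system. -/
def MonoData.M : Subgroup (Aut V) where
  carrier := {h | h ∈ P ∧ h * D.Y = D.Y * h}
  one_mem' := ⟨P.one_mem, by simp⟩
  mul_mem' := by
    rintro a b ⟨ha, ha'⟩ ⟨hb, hb'⟩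
    refine ⟨P.mul_mem ha hb, ?_⟩
    rw [mul_assoc, hb', ← mul_assoc, ha', mul_assoc]
  inv_mem' := by
    rintro a ⟨ha, ha'⟩
    refine ⟨P.inv_mem ha, ?_⟩
    exact ((show Commute a D.Y from ha').inv_left).eq

lemma MonoData.mem_M {h : Aut V} : h ∈ D.M ↔ h ∈ P ∧ h * D.Y = D.Y * h := Iff.rfl

lemma MonoData.M_preserves {h : Aut V} (hh : h ∈ D.M) {v : V} (hv : D.Y • v = v) :
    D.Y • h • v = h • v := by
  rw [← mul_smul, ← hh.2, mul_smul, hv]

/-- Regularity of a vector `∑ g ^ j • c j` where `c 0` and the other `c j` lie in different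
regular orbits. -/
lemma MonoData.regular (x : V) (c : ℕ → V) (hc : ∀ j, D.Y • c j = c j)
    (hc0 : c 0 = x)
    (hreg : ∀ j < p, ∀ m ∈ D.M, m • c j = c j → ∀ v : V, D.Y • v = v → m • v = v)
    (hne : ∀ j < p, j ≠ 0 → ∀ m ∈ D.M, m • x ≠ c j) {h : Aut V} (hh : h ∈ P) (hp : 0 < p)
    (hU : h • ∑ j ∈ range p, D.g ^ j • c j = ∑ j ∈ range p, D.g ^ j • c j) : h = 1 := by
  obtain ⟨t, ht, hm⟩ := D.exists_t hh 0
  have h1 := D.e_comp_smul c hc h t hp hm
  rw [hU, D.e_comp c hc ht, hc0] at h1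
  have hmM : (D.g ^ t)⁻¹ * h * D.g ^ 0 ∈ D.M :=
    ⟨P.mul_mem (P.mul_mem (P.inv_mem (P.pow_mem D.hg t)) hh) (P.pow_mem D.hg 0), hm⟩
  have ht0 : t = 0 := by
    by_contra h0
    exact hne t ht h0 _ hmM h1.symm
  subst ht0
  have hhY : h * D.Y = D.Y * h := by simpa using hm
  apply D.eq_one
  intro j hj v hv
  have h2 := D.F4 h hh hhY j
  have h3 := D.e_comp_smul c hc h j hj h2
  rw [hU, D.e_comp c hc hj] at h3
  have hmM' : (D.g ^ j)⁻¹ * h * D.g ^ j ∈ D.M :=
    ⟨P.mul_mem (P.mul_mem (P.inv_mem (P.pow_mem D.hg j)) hh) (P.pow_mem D.hg j), h2⟩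
  exact hreg j hj _ hmM' h3.symm v hv

lemma MonoData.exists_ne_zero [Nontrivial V] : ∃ v : V, D.Y • v = v ∧ v ≠ 0 := by
  by_contra hcon
  push Not at hcon
  obtain ⟨v, hv⟩ := exists_ne (0 : V)
  apply hv
  rw [← D.F1 v]
  apply sum_eq_zero
  intro j _
  rw [hcon _ (D.e_fix _), smul_zero]

end Comp

/-- Number theory: `p ^ a + 1 = 2 ^ b` forces `p + 1` to be a power of two. -/
lemma mersenne_aux {p a b : ℕ} (hp : p.Prime) (hp2 : p ≠ 2) (ha : a ≠ 0)
    (h : p ^ a + 1 = 2 ^ b) : ∃ c, p + 1 = 2 ^ c := by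
  rcases Nat.even_or_odd a with he | ho
  · exfalso
    obtain ⟨k, hk⟩ := he
    have hodd : Odd (p ^ k) := (hp.odd_of_ne_two hp2).pow
    obtain ⟨l, hl⟩ := hodd
    have h1 : p ^ a = 4 * (l * l + l) + 1 := by
      rw [hk, pow_add, hl]; ring
    have h2 : 1 < p ^ a := Nat.one_lt_pow ha hp.one_lt
    have hb : 2 ≤ b := by
      by_contra hb
      have : b = 0 ∨ b = 1 := by omega
      rcases this with rfl | rfl
      · rw [pow_zero] at h; omega
      · rw [pow_one] at h; omega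
    obtain ⟨b', rfl⟩ := Nat.exists_eq_add_of_le hb
    rw [pow_add] at h
    omega
  · have h1 : p + 1 ∣ p ^ a + 1 ^ a := Odd.nat_add_dvd_pow_add_pow p 1 ho
    rw [one_pow, h] at h1
    obtain ⟨c, -, hc⟩ := (Nat.dvd_prime_pow Nat.prime_two).mp h1
    exact ⟨c, hc⟩

/-- The arithmetic hypothesis on `V` and `p`. -/
def Hyp (p : ℕ) (n : ℕ) : Prop := Odd n ∨ ((∃ b, n = 2 ^ b) ∧ ∀ c, p + 1 ≠ 2 ^ c)

lemma Hyp.of_dvd {p n m : ℕ} (h : Hyp p n) (hm : m ∣ n) : Hyp p m := by
  rcases h with h | ⟨⟨b, hb⟩, h⟩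
  · exact Or.inl (h.of_dvd_nat hm)
  · rw [hb] at hm
    obtain ⟨k, -, hk⟩ := (Nat.dvd_prime_pow Nat.prime_two).mp hm
    exact Or.inr ⟨⟨k, hk⟩, h⟩

universe u

/-- The statement with two regular orbits. -/
def TwoOrb {G : Type*} [Group G] {V : Type*} [AddCommGroup V] [DistribMulAction G V]
    (H : Subgroup G) (W : AddSubgroup V) : Prop :=
  ∀ u₀ ∈ W, ∃ u₁ ∈ W, (∀ h ∈ H, h • u₁ = u₁ → ∀ w ∈ W, h • w = w) ∧ ∀ h ∈ H, h • u₀ ≠ u₁

theorem two_orbits (p : ℕ) [hp : Fact p.Prime] (hp2 : p ≠ 2) : ∀ (n : ℕ) (V : Type u)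
    [AddCommGroup V] [Finite V] (P : Subgroup (Aut V)), Nat.card V = n → Nontrivial V →
    (Nat.card V).Coprime p → Hyp p (Nat.card V) → IsPGroup p P →
    ∀ u₀ : V, ∃ u₁ : V, (∀ h ∈ P, h • u₁ = u₁ → h = 1) ∧ ∀ h ∈ P, h • u₀ ≠ u₁ := by
  classical
  intro n
  induction n using Nat.strong_induction_on with
  | _ n ih =>
  intro V _ _ P hn hnt hcop hhyp hP u₀
  have hfin : Finite (Aut V) := Finite.of_injective (fun a : Aut V => (a : V → V))
    DFunLike.coe_injective
  -- internal form of the induction hypothesis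
  have ihW : ∀ (W : AddSubgroup V) (H : Subgroup (Aut V)), (∃ w ∈ W, w ≠ 0) → (∃ w, w ∉ W) →
      (∀ g ∈ H, ∀ w ∈ W, g • w ∈ W) → IsPGroup p H → TwoOrb H W := by
    intro W H hW0 hW1 hinv hH u hu
    have hlt : Nat.card W < n := by
      rw [← hn, ← AddSubgroup.card_top (G := V)]
      exact card_lt_of_lt le_top (by
        obtain ⟨w, hw⟩ := hW1
        exact ⟨w, AddSubgroup.mem_top _, hw⟩)
    have hdvd : Nat.card W ∣ Nat.card V := AddSubgroup.card_addSubgroup_dvd_card W
    obtain ⟨w, hw, hw0⟩ := hW0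
    have hnt' : Nontrivial W := ⟨⟨⟨w, hw⟩, 0, fun h => hw0 (congrArg Subtype.val h)⟩⟩
    obtain ⟨u₁, h1, h2⟩ := ih _ hlt W (resHom H W hinv).range rfl hnt'
      (hcop.coprime_dvd_left hdvd) (hhyp.of_dvd hdvd)
      (hH.of_surjective _ (resHom H W hinv).rangeRestrict_surjective) ⟨u, hu⟩
    refine ⟨u₁, u₁.2, ?_, ?_⟩
    · intro h hh hfix w hw
      have h3 := h1 (resHom H W hinv ⟨h, hh⟩) ⟨_, rfl⟩ (Subtype.ext hfix)
      have h4 : (resHom H W hinv ⟨h, hh⟩) • (⟨w, hw⟩ : W) = ⟨w, hw⟩ := by rw [h3, one_smul]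
      exact congrArg Subtype.val h4
    · intro h hh heq
      exact h2 (resHom H W hinv ⟨h, hh⟩) ⟨_, rfl⟩ (Subtype.ext heq)
  by_cases hdec : ∃ c ∈ P, (∀ h ∈ P, h * c = c * h) ∧ c ≠ 1 ∧ ∃ v : V, v ≠ 0 ∧ c • v = v
  · obtain ⟨c, hcP, hcc, hc1, v, hv0, hcv⟩ := hdec
    obtain ⟨k, hk⟩ := hP ⟨c, hcP⟩
    have hk' : c ^ (p ^ k) = 1 := congrArg Subtype.val hk
    obtain ⟨m', hm'⟩ := exists_inv (V := V) (p ^ k) (hcop.pow_right k)
    set m := p ^ k
    have hfix : ∀ v : V, c • proj c m m' v = proj c m m' v := fun v =>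
      smul_proj_self c m m' v (by rw [hk', one_smul])
    have hof : ∀ v : V, c • v = v → proj c m m' v = v := fun v hv =>
      proj_of_fixed c m m' v hv (hm' v)
    have hcomm : ∀ h ∈ P, ∀ v : V, h • proj c m m' v = proj c m m' (h • v) := fun h hh v =>
      smul_proj_comm (W := ⊤) (fun w _ => AddSubgroup.mem_top _)
        (fun w _ => by rw [← mul_smul, ← mul_smul, hcc h hh]) m m' v (AddSubgroup.mem_top _)
    have hker : ∀ v : V, proj c m m' (v - proj c m m' v) = 0 := by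
      intro v
      rw [proj_sub, hof _ (hfix v), sub_self]
    obtain ⟨v1, hv1⟩ : ∃ v : V, c • v ≠ v := by
      by_contra hcon
      push Not at hcon
      exact hc1 (aut_ext fun v => by rw [hcon v, one_smul])
    have hC : TwoOrb P (fixSub c : AddSubgroup V) := by
      apply ihW _ _ ⟨v, hcv, hv0⟩ ⟨v1, hv1⟩ _ hP
      intro g hg w hw
      rw [mem_fixSub] at hw ⊢
      rw [← mul_smul, ← hcc g hg, mul_smul, hw]
    have hD : TwoOrb P (kerSub c m m' : AddSubgroup V) := by
      apply ihW _ _ ⟨v1 - proj c m m' v1, hker v1, ?_⟩ ⟨v, ?_⟩ _ hP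
      · intro h
        apply hv1
        have : v1 = proj c m m' v1 := sub_eq_zero.mp h
        rw [this, hfix]
      · rw [mem_kerSub, hof v hcv]
        exact hv0
      · intro g hg w hw
        rw [mem_kerSub] at hw ⊢
        rw [← hcomm g hg, hw, smul_zero]
    obtain ⟨a, ha, ha1, ha2⟩ := hC (proj c m m' u₀) (hfix u₀)
    obtain ⟨d, hd, hd1, -⟩ := hD 0 (AddSubgroup.zero_mem _)
    have hpa : proj c m m' (a + d) = a := by
      rw [proj_add, hof a ha, mem_kerSub.mp hd, add_zero]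
    refine ⟨a + d, ?_, ?_⟩
    · intro h hh hfixh
      have e1 : h • a = a := by
        have := congrArg (proj c m m') hfixh
        rw [← hcomm h hh, hpa] at this
        exact this
      have e2 : h • d = d := by
        rw [smul_add, e1] at hfixh
        exact add_left_cancel hfixh
      apply aut_ext
      intro w
      have h3 := ha1 h hh e1 (proj c m m' w) (hfix w)
      have h4 := hd1 h hh e2 (w - proj c m m' w) (hker w)
      rw [one_smul]
      calc h • w = h • (proj c m m' w + (w - proj c m m' w)) := by rw [add_sub_cancel]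
        _ = w := by rw [smul_add, h3, h4, add_sub_cancel]
    · intro h hh heq
      apply ha2 h hh
      rw [hcomm h hh, heq, hpa]
  push Not at hdec
  have hnd : ∀ c ∈ P, (∀ h ∈ P, h * c = c * h) → c = 1 ∨ ∀ v : V, c • v = v → v = 0 := by
    intro c hc hcc
    by_cases h1 : c = 1
    · exact Or.inl h1
    · refine Or.inr fun v hv => ?_
      by_contra hv0
      exact hdec c hc hcc h1 v hv0 hv
  by_cases hab : ∀ a ∈ P, ∀ b ∈ P, a * b = b * a
  · -- the semiregular case
    have hsr : ∀ h ∈ P, ∀ v : V, h • v = v → h = 1 ∨ v = 0 := by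
      intro h hh v hv
      rcases hnd h hh (fun g hg => hab g hg h hh) with h1 | h1
      · exact Or.inl h1
      · exact Or.inr (h1 v hv)
    by_cases hP1 : ∀ h ∈ P, h = 1
    · obtain ⟨u₁, hu₁⟩ := exists_ne u₀
      refine ⟨u₁, fun h hh _ => hP1 h hh, fun h hh heq => ?_⟩
      rw [hP1 h hh, one_smul] at heq
      exact hu₁ heq.symm
    push Not at hP1
    obtain ⟨h0, hh0, hh01⟩ := hP1
    by_contra hcon
    push Not at hcon
    have hall : ∀ v : V, v ≠ 0 → ∃ h ∈ P, h • u₀ = v := by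
      intro v hv
      exact hcon v (fun h hh hfix => (hsr h hh v hfix).resolve_right hv)
    have hu0 : u₀ ≠ 0 := by
      rintro rfl
      obtain ⟨v, hv⟩ := exists_ne (0 : V)
      obtain ⟨h, -, h1⟩ := hall v hv
      rw [smul_zero] at h1
      exact hv h1.symm
    rcases hhyp with hodd | ⟨⟨b, hb⟩, hmers⟩
    · obtain ⟨h, hh, h1⟩ := hall (-u₀) (neg_ne_zero.mpr hu0)
      have h2 : (h * h) • u₀ = u₀ := by rw [mul_smul, h1, smul_neg, h1, neg_neg]
      have h3 := (hsr _ (P.mul_mem hh hh) u₀ h2).resolve_right hu0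
      have h4 : h = 1 := by
        have h5 : orderOf h ∣ 2 := orderOf_dvd_of_pow_eq_one (by rw [pow_two, h3])
        obtain ⟨k, hk⟩ := hP ⟨h, hh⟩
        have hk' : h ^ (p ^ k) = 1 := congrArg Subtype.val hk
        have h6 : orderOf h ∣ p ^ k := orderOf_dvd_of_pow_eq_one hk'
        have h7 : Nat.Coprime 2 (p ^ k) := by
          apply Nat.Coprime.pow_right
          exact (Nat.coprime_primes Nat.prime_two hp.out).mpr (Ne.symm hp2)
        have h8 := Nat.dvd_gcd h5 h6
        rw [h7] at h8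
        exact orderOf_eq_one_iff.mp (Nat.dvd_one.mp h8)
      rw [h4, one_smul] at h1
      -- `2 u₀ = 0`
      have h9 : 2 • u₀ = 0 := by
        rw [two_smul]
        nth_rewrite 2 [h1]
        rw [add_neg_cancel]
      have h10 : addOrderOf u₀ ∣ 2 := addOrderOf_dvd_of_nsmul_eq_zero h9
      have h11 : addOrderOf u₀ ∣ Nat.card V := addOrderOf_dvd_natCard u₀
      have h12 : Nat.Coprime 2 (Nat.card V) := (Nat.coprime_two_left).mpr hodd
      have h13 := Nat.dvd_gcd h10 h11
      rw [h12] at h13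
      exact hu0 (AddMonoid.addOrderOf_eq_one_iff.mp (Nat.dvd_one.mp h13))
    · -- counting
      have hbij : Function.Bijective (fun h : P => (⟨(h : Aut V) • u₀, by
          intro h0
          exact hu0 ((smul_eq_zero_iff_eq _).mp h0)⟩ : {v : V // v ≠ 0})) := by
        constructor
        · intro a b hab'
          have h1 : (a : Aut V) • u₀ = (b : Aut V) • u₀ := congrArg Subtype.val hab'
          have h2 : ((b : Aut V)⁻¹ * a) • u₀ = u₀ := by
            rw [mul_smul, h1, inv_smul_smul]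
          have h3 := (hsr _ (P.mul_mem (P.inv_mem b.2) a.2) u₀ h2).resolve_right hu0
          apply Subtype.ext
          rw [inv_mul_eq_one] at h3
          exact h3.symm
        · rintro ⟨v, hv⟩
          obtain ⟨h, hh, h1⟩ := hall v hv
          exact ⟨⟨h, hh⟩, Subtype.ext h1⟩
      have hcard := Nat.card_congr (Equiv.ofBijective _ hbij)
      obtain ⟨a, ha⟩ := IsPGroup.iff_card.mp hP
      have h1 : Nat.card {v : V // v ≠ 0} + 1 = Nat.card V := by
        have : Fintype V := Fintype.ofFinite V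
        rw [Nat.card_eq_fintype_card, Nat.card_eq_fintype_card, Fintype.card_subtype_compl,
          Fintype.card_subtype_eq]
        have := Fintype.card_pos (α := V)
        omega
      rw [← hcard, ha, hb] at h1
      have ha0 : a ≠ 0 := by
        rintro rfl
        rw [pow_zero] at ha
        have : Subsingleton P := (Nat.card_eq_one_iff_unique.mp ha).1
        exact hh01 (congrArg Subtype.val (Subsingleton.elim (⟨h0, hh0⟩ : P) 1))
      obtain ⟨c, hc⟩ := mersenne_aux hp.out hp2 ha0 h1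
      exact hmers c hc
  · -- the imprimitive case
    obtain ⟨D⟩ := exists_monoData hp2 hcop P hP hab hnd
    have hM : IsPGroup p D.M := hP.to_le (fun h hh => hh.1)
    have hW := ihW (fixSub D.Y) D.M D.exists_ne_zero (by
        by_contra hcon
        push Not at hcon
        exact D.hY1 (aut_ext fun v => by rw [one_smul]; exact hcon v))
      (fun g hg w hw => D.M_preserves hg hw) hM
    obtain ⟨a₀, ha₀, ra₀, -⟩ := hW 0 (AddSubgroup.zero_mem _)
    obtain ⟨a₁, ha₁, ra₁, hne⟩ := hW a₀ ha₀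
    have hne' : ∀ m ∈ D.M, m • a₁ ≠ a₀ := by
      intro m hm h
      exact hne m⁻¹ (D.M.inv_mem hm) (by rw [← h, inv_smul_smul])
    have hp0 : 0 < p := hp.out.pos
    let cA : ℕ → V := fun j => if j = 0 then a₀ else a₁
    let cB : ℕ → V := fun j => if j = 0 then a₁ else a₀
    have hcA : ∀ j, D.Y • cA j = cA j := by
      intro j
      simp only [cA]
      split_ifs
      · exact ha₀
      · exact ha₁
    have hcB : ∀ j, D.Y • cB j = cB j := by
      intro j
      simp only [cB]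
      split_ifs
      · exact ha₁
      · exact ha₀
    have regA : ∀ h ∈ P, h • ∑ j ∈ range p, D.g ^ j • cA j = ∑ j ∈ range p, D.g ^ j • cA j →
        h = 1 := by
      intro h hh
      apply D.regular a₀ cA hcA (by simp [cA]) _ _ hh hp0
      · intro j _ m hm
        simp only [cA]
        split_ifs
        · exact fun h => ra₀ m hm h
        · exact fun h => ra₁ m hm h
      · intro j _ hj m hm
        simp only [cA, if_neg hj]
        exact hne m hm
    have regB : ∀ h ∈ P, h • ∑ j ∈ range p, D.g ^ j • cB j = ∑ j ∈ range p, D.g ^ j • cB j →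
        h = 1 := by
      intro h hh
      apply D.regular a₁ cB hcB (by simp [cB]) _ _ hh hp0
      · intro j _ m hm
        simp only [cB]
        split_ifs
        · exact fun h => ra₁ m hm h
        · exact fun h => ra₀ m hm h
      · intro j _ hj m hm
        simp only [cB, if_neg hj]
        exact hne' m hm
    by_contra hcon
    push Not at hcon
    obtain ⟨h₁, hh₁, e₁⟩ := hcon _ regA
    obtain ⟨h₂, hh₂, e₂⟩ := hcon _ regB
    set h := h₁ * h₂⁻¹ with hh
    have hhP : h ∈ P := P.mul_mem hh₁ (P.inv_mem hh₂)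
    have hAB : h • ∑ j ∈ range p, D.g ^ j • cB j = ∑ j ∈ range p, D.g ^ j • cA j := by
      rw [← e₁, ← e₂, hh, mul_smul, inv_smul_smul]
    have hp3 : 3 ≤ p := by
      have := hp.out.two_le
      omega
    have key : ∀ i, 0 < i → i < p →
        (h * D.g ^ i) * D.Y = D.Y * (h * D.g ^ i) := by
      intro i hi0 hip
      obtain ⟨t, ht, hm⟩ := D.exists_t hhP i
      have h3 := D.e_comp_smul cB hcB h t hip hm
      rw [hAB, D.e_comp cA hcA ht] at h3
      have hmM : (D.g ^ t)⁻¹ * h * D.g ^ i ∈ D.M :=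
        ⟨P.mul_mem (P.mul_mem (P.inv_mem (P.pow_mem D.hg t)) hhP) (P.pow_mem D.hg i), hm⟩
      have ht0 : t = 0 := by
        by_contra ht0
        simp only [cA, cB, if_neg ht0, if_neg hi0.ne'] at h3
        exact hne _ hmM h3.symm
      subst ht0
      simpa using hm
    have k1 := key 1 (by norm_num) (by omega)
    have k2 := key 2 (by norm_num) (by omega)
    have hgY : D.g * D.Y = D.Y * D.g := by
      have c1 : Commute (h * D.g ^ 1) D.Y := k1
      have c2 : Commute (h * D.g ^ 2) D.Y := k2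
      have h4 : D.g = (h * D.g ^ 1)⁻¹ * (h * D.g ^ 2) := by group
      have c3 : Commute D.g D.Y := by
        rw [h4]
        exact c1.inv_left.mul_left c2
      exact c3
    obtain ⟨v, hv, hv0⟩ := D.exists_ne_zero
    have h5 := D.F2 1 0 (by omega) (by omega) (by norm_num) v hv
    rw [pow_zero, inv_one, one_smul, pow_one] at h5
    have h6 : D.Y • D.g • v = D.g • v := by rw [← mul_smul, ← hgY, mul_smul, hv]
    rw [D.e_of_fix _ h6] at h5
    exact hv0 ((smul_eq_zero_iff_eq _).mp h5)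

end Pool.Agent.Helper96.Sy
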