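import Mathlib
import Pool.Agent.Helper96.SyOrbits

set_option autoImplicit false

/-!
The core lemma: commuting `p_i`-groups of automorphisms of a finite abelian group have a common
regular vector, also after translating by given vectors.
-/

namespace Pool.Agent.Helper96.Sy

open Finset

universe u

variable {ι : Type*} [Finite ι]

/-- The semiregular case. -/
lemma semiregular_case (p : ι → ℕ) (hp : ∀ i, (p i).Prime) (hinj : Function.Injective p)
    (V : Type u) [AddCommGroup V] [Finite V] (T : ι → Subgroup (Aut V))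
    (hT : ∀ i, IsPGroup (p i) (T i))
    (hsr : ∀ i, ∀ h ∈ T i, ∀ v : V, h • v = v → h = 1 ∨ v = 0) (w : ι → V) :
    ∃ v : V, ∀ i, ∀ h ∈ T i, h • (v + w i) = v + w i → h = 1 := by
  classical
  have hfin : Finite (Aut V) := Finite.of_injective (fun a : Aut V => (a : V → V))
    DFunLike.coe_injective
  have : Fintype ι := Fintype.ofFinite ι
  by_contra hcon
  push Not at hcon
  choose f h hf hfix hne using hcon
  -- `f : V → ι` picks an index, and `v = - w (f v)`
  have hv : ∀ v, v = - w (f v) := by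
    intro v
    have := (hsr _ _ (hf v) _ (hfix v)).resolve_left (hne v)
    exact eq_neg_of_add_eq_zero_left this
  have hfinj : Function.Injective f := by
    intro a b hab
    rw [hv a, hv b, hab]
  -- `p (f v) < card V`
  have hlt : ∀ v, p (f v) < Nat.card V := by
    intro v
    have hpf : Fact (p (f v)).Prime := ⟨hp _⟩
    obtain ⟨x, hx⟩ : ∃ x : V, h v • x ≠ x := by
      by_contra hc
      push Not at hc
      exact hne v (aut_ext fun x => by rw [hc x, one_smul])
    have hx0 : x ≠ 0 := by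
      rintro rfl
      exact hx (smul_zero _)
    have hz : IsPGroup (p (f v)) (Subgroup.zpowers (h v)) :=
      (hT (f v)).to_le (Subgroup.zpowers_le.mpr (hf v))
    obtain ⟨n, hn⟩ := hz.card_orbit x
    have hn0 : n ≠ 0 := by
      rintro rfl
      rw [pow_zero] at hn
      have hsub := (Nat.card_eq_one_iff_unique.mp hn).1
      have h1 : (⟨h v • x, ⟨⟨h v, Subgroup.mem_zpowers _⟩, rfl⟩⟩ :
          MulAction.orbit (Subgroup.zpowers (h v)) x) = ⟨x, MulAction.mem_orbit_self x⟩ :=
        Subsingleton.elim _ _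
      exact hx (congrArg Subtype.val h1)
    have h1 : p (f v) ≤ p (f v) ^ n := Nat.le_self_pow hn0 _
    have h2 : Nat.card (MulAction.orbit (Subgroup.zpowers (h v)) x) < Nat.card V := by
      rw [Nat.card_coe_set_eq, ← Set.ncard_univ]
      refine Set.ncard_lt_ncard ?_ (Set.toFinite _)
      constructor
      · exact Set.subset_univ _
      · intro hsub
        obtain ⟨g, hg⟩ := hsub (Set.mem_univ (0 : V))
        have : (g : Aut V) • x = 0 := hg
        exact hx0 ((smul_eq_zero_iff_eq _).mp this)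
    rw [hn] at h2
    omega
  -- injection of `V` into the interval `[2, card V)`
  have hcard : Nat.card V ≤ (Finset.Ico 2 (Nat.card V)).card := by
    have : Fintype V := Fintype.ofFinite V
    rw [Nat.card_eq_fintype_card, ← Finset.card_univ]
    apply Finset.card_le_card_of_injOn (fun v => p (f v))
    · intro v _
      simp only [Finset.coe_Ico, Set.mem_Ico]
      refine ⟨(hp _).two_le, ?_⟩
      have := hlt v
      rwa [Nat.card_eq_fintype_card] at this
    · intro a _ b _ hab
      exact hfinj (hinj hab)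
  rw [Nat.card_Ico] at hcard
  have := Nat.card_pos (α := V)
  omega

theorem core_type (p : ι → ℕ) (hp : ∀ i, (p i).Prime) (hinj : Function.Injective p) :
    ∀ (n : ℕ) (V : Type u) [AddCommGroup V] [Finite V] (T : ι → Subgroup (Aut V)),
      Nat.card V = n → (∀ i, (Nat.card V).Coprime (p i)) → (∀ i, IsPGroup (p i) (T i)) →
      (∀ i j, i ≠ j → ∀ a ∈ T i, ∀ b ∈ T j, a * b = b * a) →
      (∀ i, (∀ a ∈ T i, ∀ b ∈ T i, a * b = b * a) ∨ (p i ≠ 2 ∧ Hyp (p i) (Nat.card V))) →
      ∀ w : ι → V, ∃ v : V, ∀ i, ∀ h ∈ T i, h • (v + w i) = v + w i → h = 1 := by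
  classical
  intro n
  induction n using Nat.strong_induction_on with
  | _ n ih =>
  intro V _ _ T hn hcop hT hcomm hhyp w
  have hfin : Finite (Aut V) := Finite.of_injective (fun a : Aut V => (a : V → V))
    DFunLike.coe_injective
  -- internal form of the induction hypothesis
  have ihW : ∀ (W : AddSubgroup V) (H : ι → Subgroup (Aut V)), (∃ w, w ∉ W) →
      (∀ i, H i ≤ T i) → (∀ i, ∀ g ∈ H i, ∀ w ∈ W, g • w ∈ W) → Good H W := by
    intro W H hW1 hHT hinv u hu
    have hlt : Nat.card W < n := by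
      rw [← hn, ← AddSubgroup.card_top (G := V)]
      exact card_lt_of_lt le_top (by
        obtain ⟨w, hw⟩ := hW1
        exact ⟨w, AddSubgroup.mem_top _, hw⟩)
    have hdvd : Nat.card W ∣ Nat.card V := AddSubgroup.card_addSubgroup_dvd_card W
    have hcomm' : ∀ i, ∀ j, (∀ a ∈ H i, ∀ b ∈ H j, a * b = b * a) →
        ∀ a ∈ (resHom (H i) W (hinv i)).range, ∀ b ∈ (resHom (H j) W (hinv j)).range,
          a * b = b * a := by
      rintro i j hc _ ⟨⟨a, ha⟩, rfl⟩ _ ⟨⟨b, hb⟩, rfl⟩
      apply aut_ext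
      intro v
      apply Subtype.ext
      rw [mul_smul, mul_smul]
      change a • b • (v : V) = b • a • (v : V)
      rw [← mul_smul, ← mul_smul, hc a ha b hb]
    obtain ⟨v, hv⟩ := ih _ hlt W (fun i => (resHom (H i) W (hinv i)).range) rfl
      (fun i => (hcop i).coprime_dvd_left hdvd)
      (fun i => ((hT i).to_le (hHT i)).of_surjective _
        (resHom (H i) W (hinv i)).rangeRestrict_surjective)
      (fun i j hij => hcomm' i j (fun a ha b hb => hcomm i j hij a (hHT i ha) b (hHT j hb)))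
      (fun i => by
        rcases hhyp i with h | ⟨h1, h2⟩
        · exact Or.inl (hcomm' i i (fun a ha b hb => h a (hHT i ha) b (hHT i hb)))
        · exact Or.inr ⟨h1, h2.of_dvd hdvd⟩)
      (fun i => ⟨u i, hu i⟩)
    refine ⟨v, v.2, ?_⟩
    intro i h hh hfix w hw
    have h3 := hv i (resHom (H i) W (hinv i) ⟨h, hh⟩) ⟨_, rfl⟩ (Subtype.ext hfix)
    have h4 : (resHom (H i) W (hinv i) ⟨h, hh⟩) • (⟨w, hw⟩ : W) = ⟨w, hw⟩ := by
      rw [h3, one_smul]
    exact congrArg Subtype.val h4
  by_cases hdec : ∃ (c : Aut V) (m : ℕ), c ^ m = 1 ∧ (Nat.card V).Coprime m ∧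
      (∀ i, ∀ h ∈ T i, h * c = c * h) ∧ c ≠ 1 ∧ ∃ v : V, v ≠ 0 ∧ c • v = v
  · obtain ⟨c, m, hcm, hcopm, hcc, hc1, v0, hv0, hcv0⟩ := hdec
    obtain ⟨m', hm'⟩ := exists_inv (V := V) m hcopm
    have hfix : ∀ v : V, c • proj c m m' v = proj c m m' v := fun v =>
      smul_proj_self c m m' v (by rw [hcm, one_smul])
    have hof : ∀ v : V, c • v = v → proj c m m' v = v := fun v hv =>
      proj_of_fixed c m m' v hv (hm' v)
    have hcomm1 : ∀ i, ∀ h ∈ T i, ∀ v : V, h • proj c m m' v = proj c m m' (h • v) :=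
      fun i h hh v =>
      smul_proj_comm (W := ⊤) (fun w _ => AddSubgroup.mem_top _)
        (fun w _ => by rw [← mul_smul, ← mul_smul, hcc i h hh]) m m' v (AddSubgroup.mem_top _)
    have hker : ∀ v : V, proj c m m' (v - proj c m m' v) = 0 := by
      intro v
      rw [proj_sub, hof _ (hfix v), sub_self]
    obtain ⟨v1, hv1⟩ : ∃ v : V, c • v ≠ v := by
      by_contra hcon
      push Not at hcon
      exact hc1 (aut_ext fun v => by rw [hcon v, one_smul])
    have hinvC : ∀ i, ∀ g ∈ T i, ∀ w ∈ (fixSub c : AddSubgroup V), g • w ∈ fixSub c := by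
      intro i g hg w hw
      rw [mem_fixSub] at hw ⊢
      rw [← mul_smul, ← hcc i g hg, mul_smul, hw]
    have hinvD : ∀ i, ∀ g ∈ T i, ∀ w ∈ (kerSub c m m' : AddSubgroup V), g • w ∈ kerSub c m m' := by
      intro i g hg w hw
      rw [mem_kerSub] at hw ⊢
      rw [← hcomm1 i g hg, hw, smul_zero]
    have hC : Good T (fixSub c : AddSubgroup V) := ihW _ _ ⟨v1, hv1⟩ (fun i => le_rfl) hinvC
    have hD : Good T (kerSub c m m' : AddSubgroup V) := by
      apply ihW _ _ ⟨v0, ?_⟩ (fun i => le_rfl) hinvD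
      rw [mem_kerSub, hof v0 hcv0]
      exact hv0
    have hV : Good T (⊤ : AddSubgroup V) := by
      apply good_of_split T ⊤ (fixSub c) (kerSub c m m') le_top le_top _ _ hinvC hinvD hC hD
      · intro w hw hw'
        rw [mem_fixSub] at hw
        rw [mem_kerSub, hof w hw] at hw'
        exact hw'
      · intro w _
        exact ⟨proj c m m' w, hfix w, w - proj c m m' w, hker w, add_sub_cancel _ _⟩
    obtain ⟨v, -, hv⟩ := hV w (fun i => AddSubgroup.mem_top _)
    refine ⟨v, fun i h hh hfixh => ?_⟩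
    apply aut_ext
    intro x
    rw [one_smul]
    exact hv i h hh hfixh x (AddSubgroup.mem_top _)
  push Not at hdec
  have hnd : ∀ i, ∀ c ∈ T i, (∀ h ∈ T i, h * c = c * h) → c = 1 ∨ ∀ v : V, c • v = v → v = 0 := by
    intro i c hc hcc
    by_cases h1 : c = 1
    · exact Or.inl h1
    · refine Or.inr fun v hv => ?_
      by_contra hv0
      obtain ⟨k, hk⟩ := hT i ⟨c, hc⟩
      have hk' : c ^ (p i ^ k) = 1 := congrArg Subtype.val hk
      refine hdec c (p i ^ k) hk' ((hcop i).pow_right k) ?_ h1 v hv0 hv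
      intro j h hh
      by_cases hij : i = j
      · subst hij
        exact hcc h hh
      · exact (hcomm i j hij c hc h hh).symm
  by_cases hab : ∀ i, ∀ a ∈ T i, ∀ b ∈ T i, a * b = b * a
  · refine semiregular_case p hp hinj V T hT ?_ w
    intro i h hh v hv
    rcases hnd i h hh (fun g hg => hab i g hg h hh) with h1 | h1
    · exact Or.inl h1
    · exact Or.inr (h1 v hv)
  push Not at hab
  obtain ⟨i₁, a0, ha0, b0, hb0, hab0⟩ := hab
  have hna : ¬ ∀ a ∈ T i₁, ∀ b ∈ T i₁, a * b = b * a := fun h => hab0 (h a0 ha0 b0 hb0)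
  obtain ⟨hp2, hhyp1⟩ := (hhyp i₁).resolve_left hna
  have hpf : Fact (p i₁).Prime := ⟨hp _⟩
  obtain ⟨D⟩ := exists_monoData hp2 (hcop i₁) (T i₁) (hT i₁) hna (hnd i₁)
  have hnt : Nontrivial V := by
    by_contra hcon
    rw [not_nontrivial_iff_subsingleton] at hcon
    exact hab0 (aut_ext fun v => Subsingleton.elim _ _)
  obtain ⟨y0, hy0, hy00⟩ := D.exists_ne_zero
  have hYn : ∃ v, v ∉ (fixSub D.Y : AddSubgroup V) := by
    by_contra hcon
    push Not at hcon
    exact D.hY1 (aut_ext fun v => by rw [one_smul]; exact hcon v)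
  let T' : ι → Subgroup (Aut V) := Function.update T i₁ D.M
  have hT'1 : T' i₁ = D.M := Function.update_self _ _ _
  have hT'2 : ∀ i, i ≠ i₁ → T' i = T i := fun i hi => Function.update_of_ne hi _ _
  have hT'le : ∀ i, T' i ≤ T i := by
    intro i
    by_cases hi : i = i₁
    · subst hi
      rw [hT'1]
      exact fun h hh => hh.1
    · rw [hT'2 i hi]
  have hcommY : ∀ i, ∀ h ∈ T' i, h * D.Y = D.Y * h := by
    intro i h hh
    by_cases hi : i = i₁
    · subst hi
      rw [hT'1] at hh
      exact hh.2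
    · rw [hT'2 i hi] at hh
      exact hcomm i i₁ hi h hh D.Y D.hY
  have hW : Good T' (fixSub D.Y : AddSubgroup V) := by
    apply ihW _ _ hYn hT'le
    intro i g hg w hw
    rw [mem_fixSub] at hw ⊢
    rw [← mul_smul, ← hcommY i g hg, mul_smul, hw]
  obtain ⟨v₀, hv₀, hreg₀⟩ := hW (fun i => D.e (w i)) (fun i => D.e_fix _)
  set u₀ := v₀ + D.e (w i₁) with hu₀
  have hu₀Y : D.Y • u₀ = u₀ := by rw [hu₀, smul_add, hv₀, D.e_fix]
  have hregu₀ : ∀ h ∈ D.M, h • u₀ = u₀ → ∀ v : V, D.Y • v = v → h • v = v := by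
    intro h hh hfix
    exact hreg₀ i₁ h (by rw [hT'1]; exact hh) hfix
  -- a second regular vector
  have hM : IsPGroup (p i₁) D.M := (hT i₁).to_le (fun h hh => hh.1)
  have hMinv : ∀ g ∈ D.M, ∀ w ∈ (fixSub D.Y : AddSubgroup V), g • w ∈ fixSub D.Y :=
    fun g hg w hw => D.M_preserves hg hw
  obtain ⟨u₁, hu₁Y, hregu₁, hne⟩ : ∃ u₁ : V, D.Y • u₁ = u₁ ∧
      (∀ h ∈ D.M, h • u₁ = u₁ → ∀ v : V, D.Y • v = v → h • v = v) ∧ ∀ h ∈ D.M, h • u₀ ≠ u₁ := by
    have hdvd : Nat.card (fixSub D.Y : AddSubgroup V) ∣ Nat.card V :=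
      AddSubgroup.card_addSubgroup_dvd_card _
    have hnt' : Nontrivial (fixSub D.Y : AddSubgroup V) :=
      ⟨⟨⟨y0, hy0⟩, 0, fun h => hy00 (congrArg Subtype.val h)⟩⟩
    obtain ⟨u₁, h1, h2⟩ := two_orbits (p i₁) hp2 _ (fixSub D.Y : AddSubgroup V)
      (resHom D.M _ hMinv).range rfl hnt' ((hcop i₁).coprime_dvd_left hdvd)
      (hhyp1.of_dvd hdvd) (hM.of_surjective _ (resHom D.M _ hMinv).rangeRestrict_surjective)
      ⟨u₀, hu₀Y⟩
    refine ⟨u₁, u₁.2, ?_, ?_⟩
    · intro h hh hfix w hw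
      have h3 := h1 (resHom D.M _ hMinv ⟨h, hh⟩) ⟨_, rfl⟩ (Subtype.ext hfix)
      have h4 : (resHom D.M _ hMinv ⟨h, hh⟩) • (⟨w, hw⟩ : (fixSub D.Y : AddSubgroup V)) =
          ⟨w, hw⟩ := by rw [h3, one_smul]
      exact congrArg Subtype.val h4
    · intro h hh heq
      exact h2 (resHom D.M _ hMinv ⟨h, hh⟩) ⟨_, rfl⟩ (Subtype.ext heq)
  have hp0 : 0 < p i₁ := (hp i₁).pos
  let c : ℕ → V := fun j => if j = 0 then u₀ else u₁
  have hc : ∀ j, D.Y • c j = c j := by
    intro j
    simp only [c]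
    split_ifs
    · exact hu₀Y
    · exact hu₁Y
  set U := ∑ j ∈ range (p i₁), D.g ^ j • c j with hU
  have eU : D.e U = u₀ := by
    have := D.e_comp c hc hp0
    rw [pow_zero, inv_one, one_smul] at this
    rw [hU, this]
    simp [c]
  refine ⟨U - w i₁, ?_⟩
  intro i h hh hfix
  by_cases hi : i = i₁
  · subst hi
    rw [sub_add_cancel] at hfix
    refine D.regular u₀ c hc (by simp [c]) ?_ ?_ hh hp0 hfix
    · intro j _ m hm
      simp only [c]
      split_ifs
      · exact fun h => hregu₀ m hm h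
      · exact fun h => hregu₁ m hm h
    · intro j _ hj m hm
      simp only [c, if_neg hj]
      exact hne m hm
  · have hh' : h ∈ T' i := by rw [hT'2 i hi]; exact hh
    have hhY := hcommY i h hh'
    have hhg : h * D.g = D.g * h := hcomm i i₁ hi h hh D.g D.hg
    -- project to the first block
    have e1 : D.e (U - w i₁ + w i) = v₀ + D.e (w i) := by
      have h1 : D.e (U - w i₁ + w i) + D.e (w i₁) = D.e U + D.e (w i) := by
        rw [← D.e_add, ← D.e_add]
        congr 1
        abel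
      rw [eU, hu₀] at h1
      have h2 : D.e (U - w i₁ + w i) + D.e (w i₁) = (v₀ + D.e (w i)) + D.e (w i₁) := by
        rw [h1]; abel
      exact add_right_cancel h2
    have e2 : h • (v₀ + D.e (w i)) = v₀ + D.e (w i) := by
      rw [← e1, D.e_comm h hhY, hfix]
    have h3 := hreg₀ i h hh' e2
    apply D.eq_one
    intro j _ v hv
    have h4 : (D.g ^ j)⁻¹ * h * D.g ^ j = h := by
      have : Commute h (D.g ^ j) := (show Commute h D.g from hhg).pow_right j
      rw [mul_assoc, this.eq, inv_mul_cancel_left]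
    rw [h4]
    exact h3 v hv

end Pool.Agent.Helper96.Sy
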