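import Mathlib
import Pool.Agent.Helper96.SyMain

set_option autoImplicit false

/-!
Synchronized Sylow intersections in solvable groups: the induction over an elementary abelian
normal subgroup.
-/

namespace Pool.Agent.Helper96.Sy

open Finset
open scoped Pointwise commutatorElement

universe u

/-- The hypothesis on the prime `q` and the group `G`. -/
def HypG (G : Type*) [Group G] (q : ℕ) : Prop :=
  (∀ Q : Sylow q G, ∀ a ∈ Q, ∀ b ∈ Q, a * b = b * a) ∨
    (q ≠ 2 ∧ (Odd (Nat.card G) ∨ ∀ c : ℕ, q + 1 ≠ 2 ^ c))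

/-- A nontrivial solvable finite group has a nontrivial elementary abelian normal subgroup. -/
lemma exists_elementary (G : Type u) [Group G] [Finite G] [Nontrivial G] [hs : Group.IsSolvable G] :
    ∃ (r : ℕ) (N : Subgroup G), r.Prime ∧ N.Normal ∧ (∀ a ∈ N, ∀ b ∈ N, a * b = b * a) ∧
      (∀ a ∈ N, a ^ r = 1) ∧ ∃ a ∈ N, a ≠ 1 := by
  classical
  obtain ⟨n0, hn0⟩ := hs.solvable
  have hex : ∃ n, derivedSeries G n = ⊥ := ⟨n0, hn0⟩
  have h1 := Nat.find_spec hex
  have h0 : Nat.find hex ≠ 0 := by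
    intro h
    rw [h, derivedSeries_zero] at h1
    exact top_ne_bot h1
  obtain ⟨m, hm⟩ := Nat.exists_eq_succ_of_ne_zero h0
  have hne : derivedSeries G m ≠ ⊥ := Nat.find_min hex (by omega)
  set A := derivedSeries G m with hA
  have hAn : A.Normal := derivedSeries_normal G m
  have hAc : ∀ a ∈ A, ∀ b ∈ A, a * b = b * a := by
    intro a ha b hb
    have h2 : ⁅a, b⁆ ∈ derivedSeries G (m + 1) := by
      rw [derivedSeries_succ]
      exact Subgroup.commutator_mem_commutator ha hb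
    rw [← Nat.succ_eq_add_one, ← hm, h1, Subgroup.mem_bot] at h2
    exact commutatorElement_eq_one_iff_mul_comm.mp h2
  have hcard : Nat.card A ≠ 1 := by
    intro h
    exact hne (Subgroup.card_eq_one.mp h)
  obtain ⟨r, hr, hrd⟩ := Nat.exists_prime_and_dvd hcard
  have : Fact r.Prime := ⟨hr⟩
  obtain ⟨⟨x, hxA⟩, hx⟩ := exists_prime_orderOf_dvd_card' (G := A) r hrd
  have hxr : x ^ r = 1 := by
    have h3 := pow_orderOf_eq_one (⟨x, hxA⟩ : A)
    rw [hx] at h3
    exact congrArg Subtype.val h3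
  have hx1 : x ≠ 1 := by
    intro h
    have : (⟨x, hxA⟩ : A) = 1 := Subtype.ext h
    rw [this, orderOf_one] at hx
    exact hr.one_lt.ne hx
  let N : Subgroup G :=
    { carrier := {a | a ∈ A ∧ a ^ r = 1}
      one_mem' := ⟨A.one_mem, one_pow _⟩
      mul_mem' := by
        rintro a b ⟨ha, ha'⟩ ⟨hb, hb'⟩
        refine ⟨A.mul_mem ha hb, ?_⟩
        have : Commute a b := hAc a ha b hb
        rw [this.mul_pow, ha', hb', one_mul]
      inv_mem' := by
        rintro a ⟨ha, ha'⟩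
        exact ⟨A.inv_mem ha, by rw [inv_pow, ha', inv_one]⟩ }
  refine ⟨r, N, hr, ?_, fun a ha b hb => hAc a ha.1 b hb.1, fun a ha => ha.2,
    ⟨x, ⟨hxA, hxr⟩, hx1⟩⟩
  constructor
  rintro n ⟨hn1, hn2⟩ g
  exact ⟨hAn.conj_mem n hn1 g, by rw [conj_pow, hn2, mul_one, mul_inv_cancel]⟩

lemma mem_conj_smul {G : Type*} [Group G] (H : Subgroup G) (x y : G) :
    y ∈ MulAut.conj x⁻¹ • H ↔ x * y * x⁻¹ ∈ H := by
  rw [Subgroup.mem_pointwise_smul_iff_inv_smul_mem, ← map_inv, inv_inv]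
  rfl

/-- The intersection of all Sylow `q`-subgroups is normal. -/
lemma core_normal (G : Type*) [Group G] (q : ℕ) :
    (⨅ Q : Sylow q G, (Q : Subgroup G)).Normal := by
  constructor
  intro n hn g
  rw [Subgroup.mem_iInf] at hn ⊢
  intro Q
  have h1 := hn (g⁻¹ • Q)
  have h2 : n ∈ MulAut.conj g⁻¹ • (Q : Subgroup G) := h1
  rwa [mem_conj_smul] at h2

/-- Elements of coprime prime-power order that commute with product one. -/
lemma eq_one_of_pows {G : Type*} [Group G] {x : G} {a b : ℕ} (hab : Nat.Coprime a b)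
    (h1 : x ^ a = 1) (h2 : x ^ b = 1) : x = 1 := by
  have h3 := Nat.dvd_gcd (orderOf_dvd_of_pow_eq_one h1) (orderOf_dvd_of_pow_eq_one h2)
  rw [hab] at h3
  exact orderOf_eq_one_iff.mp (Nat.dvd_one.mp h3)

/-- Conjugacy of complements of a normal `r`-subgroup. -/
lemma conj_complement {G : Type*} [Group G] [Finite G] {q r : ℕ} (hq : q.Prime) (hr : r.Prime)
    (hqr : q ≠ r) (N K T₁ T₂ : Subgroup G) (hN : ∀ a ∈ N, a ^ r = 1) (hNK : N ≤ K)
    (h1 : IsPGroup q T₁) (h2 : IsPGroup q T₂) (hT1 : T₁ ≤ K) (hT2 : T₂ ≤ K)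
    (hK1 : ∀ k ∈ K, ∃ t ∈ T₁, ∃ n ∈ N, t * n = k) (hK2 : ∀ k ∈ K, ∃ t ∈ T₂, ∃ n ∈ N, t * n = k) :
    ∃ n ∈ N, ∀ y, y ∈ T₂ ↔ n * y * n⁻¹ ∈ T₁ := by
  have hqf : Fact q.Prime := ⟨hq⟩
  -- each `T` is a Sylow subgroup of `K`
  have key : ∀ T : Subgroup G, T ≤ K → IsPGroup q T → (∀ k ∈ K, ∃ t ∈ T, ∃ n ∈ N, t * n = k) →
      ∃ S : Sylow q K, (S : Subgroup K) = T.subgroupOf K := by
    intro T hTK hT hK
    refine ⟨⟨T.subgroupOf K, hT.comap_subtype, ?_⟩, rfl⟩
    intro Q hQ hle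
    apply le_antisymm _ hle
    rintro ⟨x, hx⟩ hxQ
    obtain ⟨t, ht, n, hn, rfl⟩ := hK x hx
    have htQ : (⟨t, hTK ht⟩ : K) ∈ Q := hle (by rw [Subgroup.mem_subgroupOf]; exact ht)
    have hnQ : (⟨n, hNK hn⟩ : K) ∈ Q := by
      have h3 := Q.mul_mem (Q.inv_mem htQ) hxQ
      have h4 : (⟨t, hTK ht⟩ : K)⁻¹ * ⟨t * n, hx⟩ = ⟨n, hNK hn⟩ := by
        apply Subtype.ext
        simp
      rwa [h4] at h3
    obtain ⟨k, hk⟩ := hQ ⟨_, hnQ⟩
    have hk' : n ^ (q ^ k) = 1 := by
      have := congrArg Subtype.val hk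
      exact congrArg Subtype.val this
    have hn1 : n = 1 := by
      apply eq_one_of_pows (a := q ^ k) (b := r) _ hk' (hN n hn)
      apply Nat.Coprime.pow_left
      exact (Nat.coprime_primes hq hr).mpr hqr
    rw [Subgroup.mem_subgroupOf]
    simp only
    rw [hn1, mul_one]
    exact ht
  obtain ⟨S₁, hS₁⟩ := key T₁ hT1 h1 hK1
  obtain ⟨S₂, hS₂⟩ := key T₂ hT2 h2 hK2
  obtain ⟨k, hk⟩ := MulAction.exists_smul_eq K S₂ S₁
  -- `k y k⁻¹ ∈ T₁ ↔ y ∈ T₂`
  have h3 : ∀ y, y ∈ T₂ ↔ (k : G) * y * (k : G)⁻¹ ∈ T₁ := by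
    intro y
    constructor
    · intro hy
      have h4 : (⟨y, hT2 hy⟩ : K) ∈ (S₂ : Subgroup K) := by
        rw [hS₂, Subgroup.mem_subgroupOf]; exact hy
      have h5 : k * ⟨y, hT2 hy⟩ * k⁻¹ ∈ (S₁ : Subgroup K) := by
        rw [← hk]
        exact Subgroup.smul_mem_pointwise_smul _ (MulAut.conj k) _ h4
      rw [hS₁, Subgroup.mem_subgroupOf] at h5
      exact h5
    · intro hy
      have hyK : y ∈ K := by
        have : y = (k : G)⁻¹ * ((k : G) * y * (k : G)⁻¹) * k := by group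
        rw [this]
        exact K.mul_mem (K.mul_mem (K.inv_mem k.2) (hT1 hy)) k.2
      have h5 : k * ⟨y, hyK⟩ * k⁻¹ ∈ (S₁ : Subgroup K) := by
        rw [hS₁, Subgroup.mem_subgroupOf]; exact hy
      rw [← hk] at h5
      have h6 : (⟨y, hyK⟩ : K) ∈ (S₂ : Subgroup K) := by
        obtain ⟨z, hz, hz'⟩ := h5
        have : z = ⟨y, hyK⟩ := by
          have h7 : k * z * k⁻¹ = k * ⟨y, hyK⟩ * k⁻¹ := hz'
          simpa using h7
        rw [← this]
        exact hz
      rw [hS₂, Subgroup.mem_subgroupOf] at h6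
      exact h6
  obtain ⟨t, ht, n, hn, htn⟩ := hK1 k k.2
  refine ⟨n, hn, fun y => ?_⟩
  rw [h3, ← htn]
  have h4 : t * n * y * (t * n)⁻¹ = t * (n * y * n⁻¹) * t⁻¹ := by group
  rw [h4]
  constructor
  · intro h
    have h5 := T₁.mul_mem (T₁.mul_mem (T₁.inv_mem ht) h) ht
    have h6 : t⁻¹ * (t * (n * y * n⁻¹) * t⁻¹) * t = n * y * n⁻¹ := by group
    rwa [h6] at h5
  · intro h
    exact T₁.mul_mem (T₁.mul_mem ht h) (T₁.inv_mem ht)

/-- Multiplicative automorphisms as automorphisms of the additive group. -/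
def toAut (N : Type u) [CommGroup N] : MulAut N →* Aut (Additive N) where
  toFun h := AddEquiv.toIntLinearEquiv (MulEquiv.toAdditive h)
  map_one' := by
    apply LinearEquiv.ext
    intro v
    rfl
  map_mul' g h := by
    apply LinearEquiv.ext
    intro v
    rfl

lemma toAut_smul (N : Type u) [CommGroup N] (h : MulAut N) (v : N) :
    toAut N h • Additive.ofMul v = Additive.ofMul (h v) := rfl

lemma toAut_injective (N : Type u) [CommGroup N] : Function.Injective (toAut N) := by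
  intro g h hgh
  apply MulEquiv.ext
  intro v
  have h1 : toAut N g • Additive.ofMul v = toAut N h • Additive.ofMul v := by rw [hgh]
  exact Additive.ofMul.injective h1

/-- The core lemma in multiplicative notation. -/
theorem core_mul {ι : Type*} [Finite ι] (p : ι → ℕ) (hp : ∀ i, (p i).Prime)
    (hinj : Function.Injective p) (N : Type u) [CommGroup N] [Finite N]
    (T : ι → Subgroup (MulAut N)) (hcop : ∀ i, (Nat.card N).Coprime (p i))
    (hT : ∀ i, IsPGroup (p i) (T i))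
    (hcomm : ∀ i j, i ≠ j → ∀ a ∈ T i, ∀ b ∈ T j, a * b = b * a)
    (hhyp : ∀ i, (∀ a ∈ T i, ∀ b ∈ T i, a * b = b * a) ∨ (p i ≠ 2 ∧ Hyp (p i) (Nat.card N)))
    (w : ι → N) : ∃ v : N, ∀ i, ∀ h ∈ T i, h (v * w i) = v * w i → h = 1 := by
  have hfin : Finite (Additive N) := ‹Finite N›
  have hcard : Nat.card (Additive N) = Nat.card N := rfl
  obtain ⟨v, hv⟩ := core_type p hp hinj _ (Additive N) (fun i => (T i).map (toAut N)) rfl
    (by rw [hcard]; exact hcop) (fun i => (hT i).map _)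
    (by
      rintro i j hij _ ⟨a, ha, rfl⟩ _ ⟨b, hb, rfl⟩
      rw [← map_mul, hcomm i j hij a ha b hb, map_mul])
    (by
      intro i
      rcases hhyp i with h | h
      · left
        rintro _ ⟨a, ha, rfl⟩ _ ⟨b, hb, rfl⟩
        rw [← map_mul, h a ha b hb, map_mul]
      · right
        rw [hcard]
        exact h)
    (fun i => Additive.ofMul (w i))
  refine ⟨v.toMul, fun i h hh hfix => ?_⟩
  apply toAut_injective N
  rw [map_one]
  apply hv i _ ⟨h, hh, rfl⟩
  exact congrArg Additive.ofMul hfix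

/-- An abelian subgroup as a commutative group. -/
@[reducible] def commN {G : Type*} [Group G] (N : Subgroup G)
    (hc : ∀ a ∈ N, ∀ b ∈ N, a * b = b * a) : CommGroup N :=
  { (inferInstance : Group N) with mul_comm := fun a b => Subtype.ext (hc a a.2 b b.2) }

theorem group_main {ι : Type*} [Finite ι] (p : ι → ℕ) (hp : ∀ i, (p i).Prime)
    (hinj : Function.Injective p) : ∀ (n : ℕ) (G : Type u) [Group G] [Finite G],
      Nat.card G = n → Group.IsSolvable G → (∀ i, HypG G (p i)) → ∀ P : ∀ i, Sylow (p i) G,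
      ∃ x : G, ∀ i, ∀ y ∈ P i, x * y * x⁻¹ ∈ P i → ∀ Q : Sylow (p i) G, y ∈ Q := by
  classical
  intro n
  induction n using Nat.strong_induction_on with
  | _ n ih =>
  intro G _ _ hn hsol hG P
  rcases subsingleton_or_nontrivial G with hss | hnt
  · refine ⟨1, fun i y _ _ Q => ?_⟩
    rw [Subsingleton.elim y 1]
    exact one_mem Q
  obtain ⟨r, N, hr, hNn, hNc, hNr, a0, ha0, ha01⟩ := exists_elementary G
  have hrf : Fact r.Prime := ⟨hr⟩
  have hpf : ∀ i, Fact (p i).Prime := fun i => ⟨hp i⟩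
  let f : G →* G ⧸ N := QuotientGroup.mk' N
  have hf : Function.Surjective f := QuotientGroup.mk'_surjective N
  have hfN : ∀ x, f x = 1 ↔ x ∈ N := fun x => QuotientGroup.eq_one_iff x
  have hNp : IsPGroup r N := fun a => ⟨1, Subtype.ext (by simpa using hNr a a.2)⟩
  -- the induction hypothesis for `G ⧸ N`
  have hcardlt : Nat.card (G ⧸ N) < n := by
    rw [← hn, Subgroup.card_eq_card_quotient_mul_card_subgroup N]
    have h1 : 1 < Nat.card N := by
      rw [Subgroup.one_lt_card_iff_ne_bot]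
      rintro rfl
      exact ha01 (Subgroup.mem_bot.mp ha0)
    have h2 : 0 < Nat.card (G ⧸ N) := Nat.card_pos
    nlinarith
  have hQG : ∀ i, HypG (G ⧸ N) (p i) := by
    intro i
    rcases hG i with h | ⟨h1, h2⟩
    · left
      intro Q
      obtain ⟨R, hR⟩ := Sylow.mapSurjective_surjective hf (p i) Q
      rw [← hR]
      rintro _ ⟨a, ha, rfl⟩ _ ⟨b, hb, rfl⟩
      rw [← map_mul, h R a ha b hb, map_mul]
    · right
      refine ⟨h1, ?_⟩
      rcases h2 with h2 | h2
      · left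
        exact h2.of_dvd_nat (Subgroup.card_quotient_dvd_card N)
      · exact Or.inr h2
  obtain ⟨xb, hxb⟩ := ih _ hcardlt (G ⧸ N) rfl inferInstance hQG
    (fun i => (P i).mapSurjective hf)
  obtain ⟨x₀, rfl⟩ := hf xb
  -- the normal subgroups `K i`
  let Cq : ι → Subgroup (G ⧸ N) := fun i => ⨅ Q : Sylow (p i) (G ⧸ N), (Q : Subgroup (G ⧸ N))
  have hCn : ∀ i, (Cq i).Normal := fun i => core_normal _ _
  have hCp : ∀ i, IsPGroup (p i) (Cq i) := fun i =>
    ((P i).mapSurjective hf).isPGroup'.to_le (iInf_le _ _)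
  let K : ι → Subgroup G := fun i => (Cq i).comap f
  have hKn : ∀ i, (K i).Normal := fun i => (hCn i).comap f
  have hNK : ∀ i, N ≤ K i := by
    intro i a ha
    change f a ∈ Cq i
    rw [(hfN a).mpr ha]
    exact one_mem _
  let T : ι → Subgroup G := fun i => (P i : Subgroup G) ⊓ K i
  have hTP : ∀ i, T i ≤ P i := fun i => inf_le_left
  have hTK : ∀ i, T i ≤ K i := fun i => inf_le_right
  have hTp : ∀ i, IsPGroup (p i) (T i) := fun i => (P i).isPGroup'.to_le (hTP i)
  -- elements of the intersection lie in `T i`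
  have hD : ∀ n ∈ N, ∀ i, ∀ y ∈ P i, (x₀ * n) * y * (x₀ * n)⁻¹ ∈ P i → y ∈ T i := by
    intro n hn i y hy hy'
    refine ⟨hy, ?_⟩
    change f y ∈ Cq i
    rw [Subgroup.mem_iInf]
    apply hxb i (f y) (Subgroup.mem_map_of_mem f hy)
    have h1 := Subgroup.mem_map_of_mem f hy'
    have h2 : f (x₀ * n * y * (x₀ * n)⁻¹) = f x₀ * f y * (f x₀)⁻¹ := by
      rw [map_mul, map_mul, map_mul, map_inv, map_mul, (hfN n).mpr hn, mul_one]
    rw [h2] at h1
    exact h1
  -- every element of `K i` is a product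
  have hKT : ∀ i, ∀ k ∈ K i, ∃ t ∈ T i, ∃ n ∈ N, t * n = k := by
    intro i k hk
    have h1 : f k ∈ ((P i).mapSurjective hf : Subgroup (G ⧸ N)) := (iInf_le _ _ : Cq i ≤ _) hk
    obtain ⟨a, ha, hak⟩ := h1
    have h2 : a⁻¹ * k ∈ N := by
      rw [← hfN, map_mul, map_inv, hak, inv_mul_cancel]
    refine ⟨a, ⟨ha, ?_⟩, a⁻¹ * k, h2, by group⟩
    change f a ∈ Cq i
    rw [hak]
    exact hk
  -- the translating elements
  have hconj : ∀ i : {i // p i ≠ r}, ∃ n ∈ N, ∀ y, x₀ * y * x₀⁻¹ ∈ T i ↔ n * y * n⁻¹ ∈ T i := by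
    rintro ⟨i, hi⟩
    obtain ⟨n, hn, h1⟩ := conj_complement (hp i) hr hi N (K i) (T i) (MulAut.conj x₀⁻¹ • T i)
      hNr (hNK i) (hTp i) ((hTp i).map _) (hTK i)
      (by
        intro y hy
        rw [mem_conj_smul] at hy
        have h2 := (hKn i).conj_mem _ (hTK i hy) x₀⁻¹
        have h3 : x₀⁻¹ * (x₀ * y * x₀⁻¹) * x₀⁻¹⁻¹ = y := by group
        rwa [h3] at h2)
      (hKT i)
      (by
        intro k hk
        obtain ⟨t, ht, m, hm, htm⟩ := hKT i _ ((hKn i).conj_mem k hk x₀)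
        refine ⟨x₀⁻¹ * t * x₀, ?_, x₀⁻¹ * m * x₀, ?_, ?_⟩
        · rw [mem_conj_smul]
          have h3 : x₀ * (x₀⁻¹ * t * x₀) * x₀⁻¹ = t := by group
          rwa [h3]
        · have := hNn.conj_mem m hm x₀⁻¹
          rwa [inv_inv] at this
        · calc x₀⁻¹ * t * x₀ * (x₀⁻¹ * m * x₀) = x₀⁻¹ * (t * m) * x₀ := by group
            _ = k := by rw [htm]; group)
    refine ⟨n, hn, fun y => ?_⟩
    rw [← h1, mem_conj_smul]
  choose nn hnn hnn' using hconj
  -- the core lemma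
  obtain ⟨v, hvN, hv⟩ : ∃ v ∈ N, ∀ i : {i // p i ≠ r}, ∀ y ∈ T i,
      y * (v * nn i) * y⁻¹ = v * nn i → ∀ a ∈ N, y * a * y⁻¹ = a := by
    let _ : CommGroup N := commN N hNc
    obtain ⟨b, hb⟩ := IsPGroup.iff_card.mp hNp
    obtain ⟨v, hv⟩ := core_mul (fun i : {i // p i ≠ r} => p i) (fun i => hp i)
      (fun i j hij => Subtype.ext (hinj hij)) N
      (fun i => (T i).map (MulAut.conjNormal : G →* MulAut N))
      (by
        intro i
        rw [hb]
        apply Nat.Coprime.pow_left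
        exact (Nat.coprime_primes hr (hp i)).mpr (Ne.symm i.2))
      (fun i => (hTp i).map _)
      (by
        rintro ⟨i, hi⟩ ⟨j, hj⟩ hij _ ⟨a, ha, rfl⟩ _ ⟨b, hb, rfl⟩
        have hij' : i ≠ j := fun h => hij (Subtype.ext h)
        have h1 : f a * f b = f b * f a :=
          Subgroup.commute_of_normal_of_disjoint (Cq i) (Cq j) (hCn i) (hCn j)
            (IsPGroup.disjoint_of_ne (p i) (p j) (fun h => hij' (hinj h)) _ _ (hCp i) (hCp j))
            (f a) (f b) (hTK i ha) (hTK j hb)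
        have h2 : (b * a)⁻¹ * (a * b) ∈ N := by
          rw [← hfN, map_mul, map_inv, map_mul, map_mul, h1, inv_mul_cancel]
        have h3 : (MulAut.conjNormal ((b * a)⁻¹ * (a * b)) : MulAut N) = 1 := by
          apply MulEquiv.ext
          intro m
          apply Subtype.ext
          rw [MulAut.conjNormal_apply]
          change _ = (m : G)
          rw [hNc _ h2 m m.2, mul_inv_cancel_right]
        rw [map_mul, map_inv, inv_mul_eq_one] at h3
        rw [← map_mul, ← map_mul, h3])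
      (by
        rintro ⟨i, hi⟩
        rcases hG i with h | ⟨h1, h2⟩
        · left
          rintro _ ⟨a, ha, rfl⟩ _ ⟨b, hb, rfl⟩
          rw [← map_mul, h (P i) a (hTP i ha) b (hTP i hb), map_mul]
        · right
          refine ⟨h1, ?_⟩
          rcases h2 with h2 | h2
          · left
            exact h2.of_dvd_nat (Subgroup.card_subgroup_dvd_card N)
          · by_cases hr2 : r = 2
            · subst hr2
              exact Or.inr ⟨⟨b, hb⟩, h2⟩
            · left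
              rw [hb]
              exact (hr.odd_of_ne_two hr2).pow)
      (fun i => ⟨nn i, hnn i⟩)
    refine ⟨v, v.2, ?_⟩
    rintro i y hy hfix a ha
    have h1 := hv i (MulAut.conjNormal y) ⟨y, hy, rfl⟩ (Subtype.ext (by
      rw [MulAut.conjNormal_apply]
      exact hfix))
    have h2 : ((MulAut.conjNormal y : MulAut N) ⟨a, ha⟩ : G) = a := by rw [h1]; rfl
    rw [MulAut.conjNormal_apply] at h2
    exact h2
  refine ⟨x₀ * v, fun i y hy hxy Q => ?_⟩
  have hyT := hD v hvN i y hy hxy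
  by_cases hi : p i = r
  · -- the prime of `N`
    have hKp : IsPGroup (p i) (K i) := by
      apply (hCp i).comap_of_ker_isPGroup f
      rw [QuotientGroup.ker_mk', hi]
      exact hNp
    have := hKn i
    exact hKp.le_sylow_of_normal Q (hTK i hyT)
  · -- the other primes
    have hcop : ∀ k, Nat.Coprime (p i ^ k) r := fun k => by
      apply Nat.Coprime.pow_left
      exact (Nat.coprime_primes (hp i) hr).mpr hi
    have hNT : ∀ m ∈ N, m ∈ T i → m = 1 := by
      intro m hm hmT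
      obtain ⟨k, hk⟩ := hTp i ⟨m, hmT⟩
      exact eq_one_of_pows (hcop k) (congrArg Subtype.val hk) (hNr m hm)
    set m := nn ⟨i, hi⟩ with hm
    have hmN : m ∈ N := hnn ⟨i, hi⟩
    have hxT : (x₀ * v) * y * (x₀ * v)⁻¹ ∈ T i := ⟨hxy, (hKn i).conj_mem _ (hTK i hyT) _⟩
    have hs : m * (v * y * v⁻¹) * m⁻¹ ∈ T i := by
      rw [← hnn' ⟨i, hi⟩]
      have h1 : x₀ * (v * y * v⁻¹) * x₀⁻¹ = (x₀ * v) * y * (x₀ * v)⁻¹ := by group
      rw [h1]
      exact hxT
    have hs2 : (m * (v * y * v⁻¹) * m⁻¹) * y⁻¹ ∈ N := by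
      rw [← hfN]
      simp only [map_mul, map_inv, (hfN m).mpr hmN, (hfN v).mpr hvN, one_mul, inv_one, mul_one,
        mul_inv_cancel]
    have hs3 := hNT _ hs2 ((T i).mul_mem hs ((T i).inv_mem hyT))
    have hcen := hv ⟨i, hi⟩ y hyT (by
      change y * (v * m) * y⁻¹ = v * m
      have h1 : m * v = v * m := hNc m hmN v hvN
      rw [mul_inv_eq_one] at hs3
      rw [← h1]
      rw [mul_inv_eq_iff_eq_mul]
      calc y * (m * v) = (m * (v * y * v⁻¹) * m⁻¹) * (m * v) := by rw [hs3]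
        _ = m * v * y := by group)
    -- the centralizer of `N` in `T i` is a normal `p i`-subgroup
    let C : Subgroup G :=
      { carrier := {c | c ∈ T i ∧ ∀ a ∈ N, c * a = a * c}
        one_mem' := ⟨(T i).one_mem, fun a _ => by rw [one_mul, mul_one]⟩
        mul_mem' := by
          rintro c d ⟨hc, hc'⟩ ⟨hd, hd'⟩
          refine ⟨(T i).mul_mem hc hd, fun a ha => ?_⟩
          rw [mul_assoc, hd' a ha, ← mul_assoc, hc' a ha, mul_assoc]
        inv_mem' := by
          rintro c ⟨hc, hc'⟩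
          refine ⟨(T i).inv_mem hc, fun a ha => ?_⟩
          exact ((show Commute c a from hc' a ha).inv_left).eq }
    have hCnorm : C.Normal := by
      constructor
      rintro c ⟨hc, hc'⟩ g
      have hcent : ∀ a ∈ N, (g * c * g⁻¹) * a = a * (g * c * g⁻¹) := by
        intro a ha
        have h1 : g⁻¹ * a * g ∈ N := by
          have := hNn.conj_mem a ha g⁻¹
          rwa [inv_inv] at this
        calc g * c * g⁻¹ * a = g * (c * (g⁻¹ * a * g)) * g⁻¹ := by group
          _ = g * ((g⁻¹ * a * g) * c) * g⁻¹ := by rw [hc' _ h1]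
          _ = a * (g * c * g⁻¹) := by group
      refine ⟨?_, hcent⟩
      obtain ⟨t, ht, l, hl, htl⟩ := hKT i _ ((hKn i).conj_mem c (hTK i hc) g)
      have htl' : t = (g * c * g⁻¹) * l⁻¹ := by rw [← htl]; group
      have hcomm : Commute t l := by
        have h1 : Commute (g * c * g⁻¹) l := hcent l hl
        rw [htl']
        exact h1.mul_left (Commute.refl l).inv_left
      obtain ⟨k1, hk1⟩ := hTp i ⟨t, ht⟩
      obtain ⟨k2, hk2⟩ := hTp i ⟨c, hc⟩
      have hk1' : t ^ (p i ^ k1) = 1 := congrArg Subtype.val hk1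
      have hk2' : c ^ (p i ^ k2) = 1 := congrArg Subtype.val hk2
      have hl1 : l ^ (p i ^ (k1 + k2)) = 1 := by
        have h1 : l = t⁻¹ * (g * c * g⁻¹) := by rw [← htl]; group
        have h2 : Commute t⁻¹ (g * c * g⁻¹) := by
          rw [← htl]
          exact ((Commute.refl t).mul_right hcomm).inv_left
        have h3 : t ^ (p i ^ (k1 + k2)) = 1 := by rw [pow_add, pow_mul, hk1', one_pow]
        have h4 : c ^ (p i ^ (k1 + k2)) = 1 := by rw [add_comm, pow_add, pow_mul, hk2', one_pow]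
        rw [h1, h2.mul_pow, conj_pow, inv_pow, h3, h4, inv_one, one_mul, mul_one, mul_inv_cancel]
      have hl2 : l = 1 := eq_one_of_pows (hcop _) hl1 (hNr l hl)
      rw [← htl, hl2, mul_one]
      exact ht
    have hCpg : IsPGroup (p i) C := (hTp i).to_le (fun c hc => hc.1)
    refine hCpg.le_sylow_of_normal Q ⟨hyT, fun a ha => ?_⟩
    have := hcen a ha
    rwa [mul_inv_eq_iff_eq_mul] at this

end Pool.Agent.Helper96.Sy
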