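import Pool.Agent.Helper64.C3.Defs2
import Pool.Agent.Helper64.C3.Koebe

set_option autoImplicit false

open Metric Set Filter Topology Asymptotics MeasureTheory
open scoped ComplexConjugate Real

namespace Pool.Agent.Helper64.C3

theorem ub_norm_circleMap (t θ : ℝ) (ht : 0 ≤ t) : ‖circleMap 0 t θ‖ = t := by
  simp [abs_of_nonneg ht]

/-- orthogonality -/
theorem ub_orth (t : ℝ) (m n : ℕ) :
    (∫ θ in (0 : ℝ)..2 * π, (circleMap 0 t θ) ^ m * conj (circleMap 0 t θ) ^ n) =
      if m = n then ((2 * π * t ^ (2 * m) : ℝ) : ℂ) else 0 := by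
  have h1 : ∀ θ : ℝ, (circleMap 0 t θ) ^ m * conj (circleMap 0 t θ) ^ n =
      ((t : ℂ) ^ (m + n)) * Complex.exp ((((m : ℂ) - n) * Complex.I) * θ) := by
    intro θ
    have e1 : circleMap 0 t θ = t * Complex.exp (θ * Complex.I) := by simp [circleMap]
    have e2 : conj (circleMap 0 t θ) = t * Complex.exp (-(θ * Complex.I)) := by
      rw [e1, map_mul, Complex.conj_ofReal, ← Complex.exp_conj]
      simp
    rw [e2, e1, mul_pow, mul_pow, ← Complex.exp_nat_mul, ← Complex.exp_nat_mul]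
    rw [show (t : ℂ) ^ m * Complex.exp (m * (θ * Complex.I)) *
      ((t : ℂ) ^ n * Complex.exp (n * -(θ * Complex.I))) =
      (t : ℂ) ^ (m + n) * (Complex.exp (m * (θ * Complex.I)) * Complex.exp (n * -(θ * Complex.I)))
      by rw [pow_add]; ring]
    rw [← Complex.exp_add]
    congr 2
    ring
  simp_rw [h1]
  split_ifs with h
  · subst h
    simp only [sub_self, zero_mul, Complex.exp_zero, mul_one]
    rw [intervalIntegral.integral_const]
    push_cast
    rw [sub_zero, Complex.real_smul, ← two_mul]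
    push_cast
    ring
  · rw [intervalIntegral.integral_const_mul, integral_exp_mul_complex]
    · have h2 : Complex.exp (((m : ℂ) - n) * Complex.I * ((2 * π : ℝ) : ℂ)) = 1 := by
        have h3 : ((m : ℂ) - n) * Complex.I * ((2 * π : ℝ) : ℂ) =
          (((m : ℤ) - (n : ℤ) : ℤ) : ℂ) * (2 * π * Complex.I) := by
          push_cast; ring
        rw [h3, Complex.exp_int_mul_two_pi_mul_I]
      rw [h2]
      simp
    · have : (m : ℂ) - n ≠ 0 := by
        rw [sub_ne_zero]
        exact_mod_cast h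
      exact mul_ne_zero this Complex.I_ne_zero

/-- Parseval on a circle -/
theorem ub_parseval (c : ℕ → ℂ) (n : ℕ → ℕ) (hn : Function.Injective n) (t : ℝ) (ht : 0 ≤ t)
    (hs : Summable fun k => ‖c k‖ * t ^ (n k)) (F : ℂ → ℂ)
    (hF : ∀ z ∈ sphere (0 : ℂ) t, HasSum (fun k => c k * z ^ (n k)) (F z)) :
    HasSum (fun k => ‖c k‖ ^ 2 * t ^ (2 * n k)) (Real.circleAverage (fun z => ‖F z‖ ^ 2) 0 t) := by
  have hcm : ∀ θ : ℝ, circleMap 0 t θ ∈ sphere (0 : ℂ) t := fun θ => by
    rw [mem_sphere_zero_iff_norm]; exact ub_norm_circleMap t θ ht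
  have hsum2 : Summable fun p : ℕ × ℕ => (‖c p.1‖ * t ^ (n p.1)) * (‖c p.2‖ * t ^ (n p.2)) :=
    hs.mul_of_nonneg hs (fun _ => by positivity) (fun _ => by positivity)
  -- the double series
  have hD : ∀ θ : ℝ, HasSum (fun p : ℕ × ℕ => (c p.1 * (circleMap 0 t θ) ^ (n p.1)) *
      (conj (c p.2) * conj (circleMap 0 t θ) ^ (n p.2)))
      (((‖F (circleMap 0 t θ)‖ ^ 2 : ℝ) : ℂ)) := by
    intro θ
    have h1 := hF _ (hcm θ)
    have h2 : HasSum (fun k => conj (c k) * conj (circleMap 0 t θ) ^ (n k))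
        (conj (F (circleMap 0 t θ))) := by
      have := (Complex.hasSum_conj'.2 h1)
      refine this.congr_fun fun k => ?_
      simp
    have h3 : Summable fun p : ℕ × ℕ => (c p.1 * (circleMap 0 t θ) ^ (n p.1)) *
      (conj (c p.2) * conj (circleMap 0 t θ) ^ (n p.2)) := by
      refine Summable.of_norm ?_
      refine hsum2.congr fun p => ?_
      simp only [norm_mul, norm_pow, RCLike.norm_conj, ub_norm_circleMap t θ ht]
    have h4 := h1.mul h2 h3
    rw [Complex.mul_conj] at h4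
    rw [Complex.normSq_eq_norm_sq] at h4
    exact h4
  have hcmc : Continuous fun θ : ℝ => circleMap 0 t θ := continuous_circleMap 0 t
  have hI := intervalIntegral.hasSum_integral_of_dominated_convergence (a := 0) (b := 2 * π)
    (μ := volume) (F := fun (p : ℕ × ℕ) (θ : ℝ) => (c p.1 * (circleMap 0 t θ) ^ (n p.1)) *
      (conj (c p.2) * conj (circleMap 0 t θ) ^ (n p.2)))
    (f := fun θ => ((‖F (circleMap 0 t θ)‖ ^ 2 : ℝ) : ℂ))
    (fun p _ => (‖c p.1‖ * t ^ (n p.1)) * (‖c p.2‖ * t ^ (n p.2)))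
    (fun p => by
      apply Continuous.aestronglyMeasurable
      fun_prop)
    (fun p => ae_of_all _ fun θ _ => by
      simp only [norm_mul, norm_pow, RCLike.norm_conj, ub_norm_circleMap t θ ht]
      exact le_rfl)
    (ae_of_all _ fun θ _ => hsum2)
    (by simp)
    (ae_of_all _ fun θ _ => hD θ)
  have hval : ∀ p : ℕ × ℕ, (∫ θ in (0 : ℝ)..2 * π, (c p.1 * (circleMap 0 t θ) ^ (n p.1)) *
      (conj (c p.2) * conj (circleMap 0 t θ) ^ (n p.2))) =
      if p.1 = p.2 then ((2 * π * (‖c p.1‖ ^ 2 * t ^ (2 * n p.1)) : ℝ) : ℂ) else 0 := by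
    intro p
    have e1 : ∀ θ : ℝ, (c p.1 * (circleMap 0 t θ) ^ (n p.1)) *
      (conj (c p.2) * conj (circleMap 0 t θ) ^ (n p.2)) = (c p.1 * conj (c p.2)) *
        ((circleMap 0 t θ) ^ (n p.1) * conj (circleMap 0 t θ) ^ (n p.2)) := fun θ => by ring
    simp_rw [e1]
    rw [intervalIntegral.integral_const_mul, ub_orth]
    by_cases h : p.1 = p.2
    · rw [if_pos h, if_pos (by rw [h]), ← h, Complex.mul_conj, Complex.normSq_eq_norm_sq]
      push_cast
      ring
    · rw [if_neg h, if_neg (fun h' => h (hn h')), mul_zero]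
  simp_rw [hval] at hI
  have hdiag : HasSum (fun k : ℕ => ((2 * π * (‖c k‖ ^ 2 * t ^ (2 * n k)) : ℝ) : ℂ))
      (∫ θ in (0 : ℝ)..2 * π, ((‖F (circleMap 0 t θ)‖ ^ 2 : ℝ) : ℂ)) := by
    have hinj : Function.Injective (fun k : ℕ => (k, k)) := fun a b h => (Prod.ext_iff.1 h).1
    rw [← hinj.hasSum_iff] at hI
    · refine hI.congr_fun fun k => ?_
      simp
    · rintro ⟨a, b⟩ hab
      rw [if_neg]
      intro h
      apply hab
      exact ⟨a, Prod.ext rfl h⟩
  rw [intervalIntegral.integral_ofReal] at hdiag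
  have hreal := Complex.hasSum_ofReal.1 hdiag
  have h2 := hreal.mul_left (2 * π)⁻¹
  rw [Real.circleAverage_def, smul_eq_mul]
  refine h2.congr_fun fun k => ?_
  have : (2 * π) ≠ 0 := by positivity
  field_simp


/-- the area integral in polar coordinates -/
theorem ub_polar (f : ℂ → ℝ) (s : ℝ) (hf : ContinuousOn f (closedBall 0 s)) :
    ∫ z in ball (0 : ℂ) s, f z = ∫ t in Ioo 0 s, 2 * π * (t * Real.circleAverage f 0 t) := by
  have h1 : ∫ z in ball (0 : ℂ) s, f z = ∫ z, (ball (0 : ℂ) s).indicator f z :=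
    (integral_indicator isOpen_ball.measurableSet).symm
  rw [h1, ← Complex.integral_comp_polarCoord_symm]
  have h2 : ∀ p ∈ polarCoord.target, p.1 • (ball (0 : ℂ) s).indicator f (Complex.polarCoord.symm p) =
      (Ioo 0 s ×ˢ Ioo (-π) π).indicator (fun p : ℝ × ℝ => p.1 * f (circleMap 0 p.1 p.2)) p := by
    rintro ⟨t, θ⟩ ⟨ht, hθ⟩
    have e1 : Complex.polarCoord.symm (t, θ) = circleMap 0 t θ := by
      rw [Complex.polarCoord_symm_apply, circleMap, zero_add, Complex.exp_mul_I]
      push_cast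
      rfl
    have ht' : (0 : ℝ) < t := ht
    have e2 : (circleMap 0 t θ ∈ ball (0 : ℂ) s) ↔ ((t, θ) ∈ (Ioo 0 s ×ˢ Ioo (-π) π : Set (ℝ × ℝ))) := by
      rw [mem_ball_zero_iff, ub_norm_circleMap t θ ht'.le]
      simp only [mem_prod, mem_Ioo]
      simp only [mem_Ioo] at hθ
      tauto
    rw [e1]
    by_cases h : circleMap 0 t θ ∈ ball (0 : ℂ) s
    · rw [indicator_of_mem h, indicator_of_mem (e2.1 h), smul_eq_mul]
    · rw [indicator_of_notMem h, indicator_of_notMem (fun h' => h (e2.2 h')), smul_zero]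
  rw [setIntegral_congr_fun polarCoord.open_target.measurableSet h2]
  have hsub : (Ioo 0 s ×ˢ Ioo (-π) π : Set (ℝ × ℝ)) ⊆ polarCoord.target := by
    rintro ⟨t, θ⟩ ⟨ht, hθ⟩
    exact ⟨ht.1, hθ⟩
  rw [setIntegral_indicator (measurableSet_Ioo.prod measurableSet_Ioo), inter_eq_right.2 hsub]
  have hcont : ContinuousOn (fun p : ℝ × ℝ => p.1 * f (circleMap 0 p.1 p.2))
      (Icc 0 s ×ˢ Icc (-π) π) := by
    refine continuousOn_fst.mul ?_
    refine hf.comp (f := fun p : ℝ × ℝ => circleMap 0 p.1 p.2) ?_ ?_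
    · unfold circleMap
      fun_prop
    · rintro ⟨t, θ⟩ ⟨ht, -⟩
      rw [mem_closedBall_zero_iff, ub_norm_circleMap t θ ht.1]
      exact ht.2
  have hint : IntegrableOn (fun p : ℝ × ℝ => p.1 * f (circleMap 0 p.1 p.2))
      (Ioo 0 s ×ˢ Ioo (-π) π) (volume.prod volume) := by
    have := hcont.integrableOn_compact (μ := (volume : Measure (ℝ × ℝ)))
      (isCompact_Icc.prod isCompact_Icc)
    exact this.mono_set (prod_mono Ioo_subset_Icc_self Ioo_subset_Icc_self)
  rw [Measure.volume_eq_prod, setIntegral_prod _ hint]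
  refine setIntegral_congr_fun measurableSet_Ioo fun t ht => ?_
  simp only
  rw [integral_const_mul, Real.circleAverage_def, smul_eq_mul]
  have e3 : ∫ θ in Ioo (-π) π, f (circleMap 0 t θ) = ∫ θ in (0 : ℝ)..2 * π, f (circleMap 0 t θ) := by
    rw [← integral_Ioc_eq_integral_Ioo, ← intervalIntegral.integral_of_le (by linarith [Real.pi_pos])]
    have hper : Function.Periodic (fun θ => f (circleMap 0 t θ)) (2 * π) := fun θ => by
      simp only [periodic_circleMap 0 t θ]
    have := hper.intervalIntegral_add_eq (-π) 0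
    rw [show -π + 2 * π = π by ring, zero_add] at this
    exact this
  rw [e3]
  have : (2 * π) ≠ 0 := by positivity
  field_simp

/-- lower bound for the area integral -/
theorem ub_area_ge (c : ℕ → ℂ) (n : ℕ → ℕ) (hn : Function.Injective n) (F : ℂ → ℂ) (s : ℝ)
    (hs0 : 0 < s) (hs1 : s < 1) (hFd : DifferentiableOn ℂ F (ball 0 1))
    (hsum : ∀ t : ℝ, 0 ≤ t → t < 1 → Summable fun k => ‖c k‖ * t ^ (n k))
    (hF : ∀ z ∈ ball (0 : ℂ) 1, HasSum (fun k => c k * z ^ (n k)) (F z)) (N : ℕ) :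
    ∑ k ∈ Finset.range N, π * (‖c k‖ ^ 2 * s ^ (2 * n k + 2) / (n k + 1)) ≤
      ∫ z in ball (0 : ℂ) s, ‖F z‖ ^ 2 := by
  have hFc : ContinuousOn (fun z => ‖F z‖ ^ 2) (closedBall (0 : ℂ) s) :=
    ((hFd.continuousOn.mono (closedBall_subset_ball hs1)).norm).pow 2
  rw [ub_polar _ s hFc]
  have hpar : ∀ t ∈ Ioo 0 s, HasSum (fun k => ‖c k‖ ^ 2 * t ^ (2 * n k))
      (Real.circleAverage (fun z => ‖F z‖ ^ 2) 0 t) := by
    intro t ht
    refine ub_parseval c n hn t ht.1.le (hsum t ht.1.le (ht.2.trans hs1)) F fun z hz => hF z ?_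
    rw [mem_sphere_zero_iff_norm] at hz
    rw [mem_ball_zero_iff, hz]
    exact ht.2.trans hs1
  have hle : ∀ t ∈ Ioo 0 s, 2 * π * (t * ∑ k ∈ Finset.range N, ‖c k‖ ^ 2 * t ^ (2 * n k)) ≤
      2 * π * (t * Real.circleAverage (fun z => ‖F z‖ ^ 2) 0 t) := by
    intro t ht
    have := sum_le_hasSum (Finset.range N) (fun k _ => by have := ht.1.le; positivity) (hpar t ht)
    have h2 : 0 ≤ 2 * π := by positivity
    gcongr
    exact ht.1.le
  have hintL : IntegrableOn (fun t : ℝ => 2 * π * (t * ∑ k ∈ Finset.range N, ‖c k‖ ^ 2 * t ^ (2 * n k)))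
      (Ioo 0 s) := by
    refine IntegrableOn.mono_set ?_ Ioo_subset_Icc_self
    apply Continuous.integrableOn_Icc
    fun_prop
  have hintR : IntegrableOn (fun t : ℝ => 2 * π * (t * Real.circleAverage (fun z => ‖F z‖ ^ 2) 0 t))
      (Ioo 0 s) := by
    -- bounded and measurable
    have hcont : ContinuousOn (fun t : ℝ => 2 * π * (t * Real.circleAverage (fun z => ‖F z‖ ^ 2) 0 t))
        (Icc 0 s) := by
      refine continuousOn_const.mul (continuousOn_id.mul ?_)
      refine Real.ContinuousOn.circleAverage (hFc.mono ?_) (fun r hr => hr.1)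
      intro z hz
      rw [mem_closedBall_zero_iff]
      have h := hz.2
      rwa [sub_zero] at h
    exact (hcont.integrableOn_Icc).mono_set Ioo_subset_Icc_self
  refine le_trans (le_of_eq ?_) (setIntegral_mono_on hintL hintR measurableSet_Ioo hle)
  rw [← integral_Ioc_eq_integral_Ioo, ← intervalIntegral.integral_of_le hs0.le]
  simp_rw [Finset.mul_sum]
  rw [intervalIntegral.integral_finsetSum]
  · refine Finset.sum_congr rfl fun k _ => ?_
    have e : ∀ t : ℝ, 2 * π * (t * (‖c k‖ ^ 2 * t ^ (2 * n k))) =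
      (2 * π * ‖c k‖ ^ 2) * t ^ (2 * n k + 1) := fun t => by ring
    simp_rw [e]
    rw [intervalIntegral.integral_const_mul, integral_pow]
    push_cast
    have : ((n k : ℝ) + 1) ≠ 0 := by positivity
    rw [show (2 * (n k : ℝ) + 1 + 1) = 2 * (n k + 1) by ring]
    field_simp
    ring
  · intro k _
    apply Continuous.intervalIntegrable
    fun_prop


/-- the area of the image -/
theorem ub_area_le {G : ℂ → ℂ} (hd : DifferentiableOn ℂ G (ball 0 1)) (hi : InjOn G (ball 0 1))
    (s M : ℝ) (hs1 : s < 1) (hM : 0 ≤ M) (hG : ∀ z ∈ ball (0 : ℂ) s, ‖G z‖ ≤ M) :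
    ∫ z in ball (0 : ℂ) s, ‖deriv G z‖ ^ 2 ≤ π * M ^ 2 := by
  have hsub : ball (0 : ℂ) s ⊆ ball 0 1 := ball_subset_ball hs1.le
  have hder : ∀ z ∈ ball (0 : ℂ) s, HasFDerivWithinAt G
      (((ContinuousLinearMap.toSpanSingleton ℂ (deriv G z)).restrictScalars ℝ) : ℂ →L[ℝ] ℂ)
      (ball 0 s) z := by
    intro z hz
    have h1 : HasDerivAt G (deriv G z) z :=
      (hd.differentiableAt (isOpen_ball.mem_nhds (hsub hz))).hasDerivAt
    exact (h1.hasFDerivAt.restrictScalars ℝ).hasFDerivWithinAt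
  have hdet : ∀ a : ℂ, |((((ContinuousLinearMap.toSpanSingleton ℂ a).restrictScalars ℝ) :
      ℂ →L[ℝ] ℂ)).det| = ‖a‖ ^ 2 := by
    intro a
    have : ((((ContinuousLinearMap.toSpanSingleton ℂ a).restrictScalars ℝ) :
      ℂ →L[ℝ] ℂ)).det = Algebra.norm ℝ a := by
      rw [Algebra.norm_apply]
      unfold ContinuousLinearMap.det
      congr 1
      ext z <;> simp [mul_comm]
    rw [this, Algebra.norm_complex_apply, Complex.normSq_eq_norm_sq, abs_of_nonneg (by positivity)]
  have harea := integral_image_eq_integral_abs_det_fderiv_smul (volume : Measure ℂ)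
    (isOpen_ball (x := (0:ℂ)) (ε := s)).measurableSet hder (hi.mono hsub) (fun _ => (1 : ℝ))
  simp_rw [hdet] at harea
  simp only [smul_eq_mul, mul_one] at harea
  rw [← harea]
  rw [setIntegral_const, smul_eq_mul, mul_one]
  have hsub2 : G '' ball 0 s ⊆ closedBall 0 M := by
    rintro _ ⟨z, hz, rfl⟩
    rw [mem_closedBall_zero_iff]
    exact hG z hz
  have h3 : volume.real (G '' ball 0 s) ≤ volume.real (closedBall (0 : ℂ) M) :=
    measureReal_mono hsub2 (by
      rw [Complex.volume_closedBall]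
      exact ENNReal.mul_ne_top (by simp) (by simp))
  refine h3.trans (le_of_eq ?_)
  rw [measureReal_def, Complex.volume_closedBall, ENNReal.toReal_mul, ENNReal.toReal_pow,
    ENNReal.toReal_ofReal hM]
  simp
  ring

/-- U-B (Littlewood / Prawitz). -/
theorem mean_bound {g : ℂ → ℂ} (hd : DifferentiableOn ℂ g (ball 0 1)) (hi : InjOn g (ball 0 1))
    (h0 : g 0 = 0) (h1 : deriv g 0 ≠ 0) {C : ℝ}
    (hg : ∀ z ∈ ball (0 : ℂ) 1, ‖g z‖ ≤ C * ‖z‖ / (1 - ‖z‖) ^ 2)
    {r : ℝ} (hr0 : 0 < r) (hr1 : r < 1) :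
    Real.circleAverage (fun z => ‖g z‖) 0 r ≤ C * r / (1 - r) := by
  have h0b : (0 : ℂ) ∈ ball (0 : ℂ) 1 := by simp
  have hC : 0 ≤ C := by
    have hz : (r : ℂ) ∈ ball (0 : ℂ) 1 := by
      rw [mem_ball_zero_iff, Complex.norm_real, Real.norm_of_nonneg hr0.le]; exact hr1
    have h := (norm_nonneg _).trans (hg _ hz)
    rw [Complex.norm_real, Real.norm_of_nonneg hr0.le] at h
    have h2 : 0 < (1 - r) ^ 2 := by have : 0 < 1 - r := by linarith
                                    positivity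
    rw [le_div_iff₀ h2, zero_mul] at h
    exact nonneg_of_mul_nonneg_left h hr0
  -- the function `u = g / z` and its square root
  have hud : DifferentiableOn ℂ (dslope g 0) (ball 0 1) :=
    (Complex.differentiableOn_dslope (isOpen_ball.mem_nhds h0b)).2 hd
  have hgu : ∀ z, g z = z * dslope g 0 z := by
    intro z
    have := sub_smul_dslope g 0 z
    rw [sub_zero, h0, sub_zero, smul_eq_mul] at this
    exact this.symm
  have hunz : ∀ z ∈ ball (0 : ℂ) 1, dslope g 0 z ≠ 0 := by
    intro z hz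
    rcases eq_or_ne z 0 with rfl | hz0
    · rw [dslope_same]; exact h1
    · intro h
      have h2 : g z = g 0 := by rw [hgu z, h, mul_zero, h0]
      exact hz0 (hi hz h0b h2)
  obtain ⟨b, hb⟩ := IsAlgClosed.exists_pow_nat_eq (dslope g 0 0) (n := 2) (by norm_num)
  obtain ⟨h, hhd, -, hhu⟩ := exists_sqrt hud hunz hb
  -- Taylor coefficients
  set a : ℕ → ℂ := fun k => ((k.factorial : ℂ))⁻¹ * iteratedDeriv k h 0 with ha
  have hsq : ∀ z ∈ ball (0 : ℂ) 1, z ^ 2 ∈ ball (0 : ℂ) 1 := by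
    intro z hz
    rw [mem_ball_zero_iff] at hz ⊢
    rw [norm_pow]
    nlinarith [norm_nonneg z]
  have hser : ∀ z ∈ ball (0 : ℂ) 1, HasSum (fun k => a k * z ^ k) (h z) := by
    intro z hz
    have := Complex.hasSum_taylorSeries_on_ball hhd hz
    refine this.congr_fun fun k => ?_
    simp only [ha, sub_zero, smul_eq_mul]
    ring
  have hser' : ∀ z ∈ ball (0 : ℂ) 1, HasSum (fun k : ℕ => (k : ℂ) * a k * z ^ k) (z * deriv h z) := by
    intro z hz
    have h2 := Complex.hasSum_taylorSeries_on_ball (hhd.deriv isOpen_ball) hz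
    have h3 := h2.mul_left z
    have h4 : HasSum (fun k => ((k + 1 : ℕ) : ℂ) * a (k + 1) * z ^ (k + 1)) (z * deriv h z) := by
      refine h3.congr_fun fun k => ?_
      simp only [ha, sub_zero, smul_eq_mul]
      rw [← iteratedDeriv_succ', Nat.factorial_succ]
      push_cast
      have e1 : ((k : ℂ) + 1) ≠ 0 := by exact_mod_cast Nat.succ_ne_zero k
      have e2 : ((k.factorial : ℂ)) ≠ 0 := by exact_mod_cast k.factorial_ne_zero
      field_simp
      ring
    have h5 := (hasSum_nat_add_iff (f := fun k : ℕ => (k : ℂ) * a k * z ^ k) 1).1 h4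
    simpa using h5
  set G : ℂ → ℂ := fun z => z * h (z ^ 2) with hGdef
  have hsqd : DifferentiableOn ℂ (fun z : ℂ => z ^ 2) (ball 0 1) := by fun_prop
  have hGd : DifferentiableOn ℂ G (ball 0 1) := differentiableOn_id.mul (hhd.comp hsqd hsq)
  have hGsq : ∀ z ∈ ball (0 : ℂ) 1, G z ^ 2 = g (z ^ 2) := by
    intro z hz
    simp only [hGdef]
    rw [mul_pow, hhu _ (hsq z hz), ← hgu]
  have hhnz : ∀ z ∈ ball (0 : ℂ) 1, h z ≠ 0 := by
    intro z hz h2
    apply hunz z hz
    rw [← hhu z hz, h2]; simp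
  have hGi : InjOn G (ball 0 1) := by
    intro z hz w hw hzw
    have h2 : g (z ^ 2) = g (w ^ 2) := by rw [← hGsq z hz, ← hGsq w hw, hzw]
    have h3 := hi (hsq z hz) (hsq w hw) h2
    rcases sq_eq_sq_iff_eq_or_eq_neg.1 h3 with h4 | h4
    · exact h4
    · subst h4
      have h5 : G (-w) = -G w := by simp [hGdef]
      rw [h5] at hzw
      have h6 : G w = 0 := by
        have : (2 : ℂ) * G w = 0 := by linear_combination -hzw
        simpa using this
      have h7 : w = 0 := by
        simp only [hGdef] at h6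
        rcases mul_eq_zero.1 h6 with h8 | h8
        · exact h8
        · exact absurd h8 (hhnz _ (hsq w hw))
      rw [h7]; simp
  have hGder : ∀ z ∈ ball (0 : ℂ) 1, deriv G z = h (z ^ 2) + 2 * (z ^ 2 * deriv h (z ^ 2)) := by
    intro z hz
    have h2 : HasDerivAt h (deriv h (z ^ 2)) (z ^ 2) :=
      (hhd.differentiableAt (isOpen_ball.mem_nhds (hsq z hz))).hasDerivAt
    have h3 : HasDerivAt (fun z : ℂ => z ^ 2) (2 * z) z := by simpa using hasDerivAt_pow 2 z
    have h4 : HasDerivAt (fun z : ℂ => h (z ^ 2)) (deriv h (z ^ 2) * (2 * z)) z := h2.comp z h3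
    have h5 := (hasDerivAt_id z).mul h4
    have h6 : HasDerivAt G (1 * h (z ^ 2) + id z * (deriv h (z ^ 2) * (2 * z))) z := h5
    rw [h6.deriv]
    simp only [id]
    ring
  have hGser : ∀ z ∈ ball (0 : ℂ) 1,
      HasSum (fun k => ((2 * k + 1 : ℕ) : ℂ) * a k * z ^ (2 * k)) (deriv G z) := by
    intro z hz
    rw [hGder z hz]
    have h2 := (hser _ (hsq z hz)).add ((hser' _ (hsq z hz)).mul_left 2)
    refine h2.congr_fun fun k => ?_
    push_cast
    rw [pow_mul]
    ring
  -- area estimate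
  have harea : ∀ (N : ℕ) (x : ℝ), 0 < x → x < 1 →
      ∑ k ∈ Finset.range N, (2 * k + 1) * ‖a k‖ ^ 2 * x ^ (2 * k) ≤ C / (1 - x) ^ 2 := by
    intro N x hx0 hx1
    have hs0 : 0 < √x := Real.sqrt_pos.2 hx0
    have hs2 : √x ^ 2 = x := Real.sq_sqrt hx0.le
    have hs1 : √x < 1 := by
      rw [Real.sqrt_lt' (by norm_num)]; simpa using hx1
    have hsm : ∀ t : ℝ, 0 ≤ t → t < 1 →
        Summable fun k => ‖((2 * k + 1 : ℕ) : ℂ) * a k‖ * t ^ (2 * k) := by
      intro t ht0 ht1
      have hz : (t : ℂ) ∈ ball (0 : ℂ) 1 := by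
        rw [mem_ball_zero_iff, Complex.norm_real, Real.norm_of_nonneg ht0]; exact ht1
      refine (hGser _ hz).summable.norm.congr fun k => ?_
      rw [norm_mul, norm_pow, Complex.norm_real, Real.norm_of_nonneg ht0]
    have h2 := ub_area_ge (fun k => ((2 * k + 1 : ℕ) : ℂ) * a k) (fun k => 2 * k)
      (fun i j hij => by simpa using hij) (deriv G) (√x) hs0 hs1 (hGd.deriv isOpen_ball) hsm hGser N
    have hM0 : 0 ≤ √C * √x / (1 - x) := by
      have : 0 < 1 - x := by linarith
      positivity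
    have h3 := ub_area_le hGd hGi (√x) (√C * √x / (1 - x)) hs1 hM0 (by
      intro z hz
      have hz1 : z ∈ ball (0 : ℂ) 1 := ball_subset_ball hs1.le hz
      have hzx : ‖z‖ ^ 2 < x := by
        rw [mem_ball_zero_iff] at hz
        rw [← hs2]
        exact pow_lt_pow_left₀ hz (norm_nonneg z) (by norm_num)
      have h4 : ‖G z‖ ^ 2 ≤ (√C * √x / (1 - x)) ^ 2 := by
        rw [← norm_pow, hGsq z hz1]
        refine (hg _ (hsq z hz1)).trans ?_
        rw [div_pow, mul_pow, Real.sq_sqrt hC, hs2, norm_pow]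
        have : 0 < 1 - x := by linarith
        gcongr
      exact (sq_le_sq₀ (norm_nonneg _) hM0).1 h4)
    have h4 := h2.trans h3
    rw [← Finset.mul_sum] at h4
    have h5 := le_of_mul_le_mul_left h4 Real.pi_pos
    rw [div_pow, mul_pow, Real.sq_sqrt hC, hs2] at h5
    have h6 : ∀ k : ℕ, ‖((2 * k + 1 : ℕ) : ℂ) * a k‖ ^ 2 * √x ^ (2 * (2 * k) + 2) /
        (((2 * k : ℕ) : ℝ) + 1) = x * ((2 * k + 1) * ‖a k‖ ^ 2 * x ^ (2 * k)) := by
      intro k
      have e1 : √x ^ (2 * (2 * k) + 2) = x ^ (2 * k + 1) := by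
        rw [show 2 * (2 * k) + 2 = 2 * (2 * k + 1) by ring, pow_mul, hs2]
      rw [e1, norm_mul, Complex.norm_natCast]
      push_cast
      have : (2 * (k : ℝ) + 1) ≠ 0 := by positivity
      field_simp
      ring
    simp_rw [h6] at h5
    rw [← Finset.mul_sum] at h5
    have h7 : C * x / (1 - x) ^ 2 = x * (C / (1 - x) ^ 2) := by ring
    rw [h7] at h5
    exact le_of_mul_le_mul_left h5 hx0
  -- integrate
  have hmain : ∀ N : ℕ, ∑ k ∈ Finset.range N, ‖a k‖ ^ 2 * r ^ (2 * k + 1) ≤ C * r / (1 - r) := by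
    intro N
    set φ : ℝ → ℝ := fun x => C * x / (1 - x) - ∑ k ∈ Finset.range N, ‖a k‖ ^ 2 * x ^ (2 * k + 1)
      with hφ
    have hφd : ∀ x : ℝ, x < 1 → HasDerivAt φ (C / (1 - x) ^ 2 -
        ∑ k ∈ Finset.range N, (2 * k + 1) * ‖a k‖ ^ 2 * x ^ (2 * k)) x := by
      intro x hx
      have hx' : 1 - x ≠ 0 := by linarith
      have e1 : HasDerivAt (fun x : ℝ => C * x / (1 - x)) (C / (1 - x) ^ 2) x := by
        have e2 : HasDerivAt (fun x : ℝ => C * x) C x := by
          simpa using (hasDerivAt_id x).const_mul C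
        have e3 : HasDerivAt (fun x : ℝ => 1 - x) (-1) x := by
          simpa using (hasDerivAt_id x).const_sub 1
        have e4 := e2.div e3 hx'
        convert! e4 using 1
        field_simp
        ring
      have e5 : HasDerivAt (fun x : ℝ => ∑ k ∈ Finset.range N, ‖a k‖ ^ 2 * x ^ (2 * k + 1))
          (∑ k ∈ Finset.range N, (2 * k + 1) * ‖a k‖ ^ 2 * x ^ (2 * k)) x := by
        refine HasDerivAt.fun_sum fun k _ => ?_
        have e6 := (hasDerivAt_pow (2 * k + 1) x).const_mul (‖a k‖ ^ 2)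
        convert! e6 using 1
        rw [Nat.add_sub_cancel]
        push_cast
        ring
      exact e1.sub e5
    have hmono : MonotoneOn φ (Icc 0 r) := by
      refine monotoneOn_of_deriv_nonneg (convex_Icc 0 r)
        (fun x hx => (hφd x (hx.2.trans_lt hr1)).continuousAt.continuousWithinAt) ?_ ?_
      · intro x hx
        rw [interior_Icc] at hx
        exact (hφd x (hx.2.trans hr1)).differentiableAt.differentiableWithinAt
      · intro x hx
        rw [interior_Icc] at hx
        rw [(hφd x (hx.2.trans hr1)).deriv]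
        have := harea N x hx.1 (hx.2.trans hr1)
        linarith
    have h2 := hmono (left_mem_Icc.2 hr0.le) (right_mem_Icc.2 hr0.le) hr0.le
    simp only [hφ] at h2
    simp at h2
    linarith
  -- conclusion
  have hca : Real.circleAverage (fun z => ‖g z‖) 0 r =
      r * Real.circleAverage (fun z => ‖h z‖ ^ 2) 0 r := by
    rw [← smul_eq_mul, ← Real.circleAverage_fun_smul]
    apply Real.circleAverage_congr_sphere
    intro z hz
    rw [abs_of_pos hr0] at hz
    have hz1 : z ∈ ball (0 : ℂ) 1 := by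
      rw [mem_sphere_zero_iff_norm] at hz
      rw [mem_ball_zero_iff, hz]; exact hr1
    simp only
    rw [hgu z, norm_mul, ← hhu z hz1, norm_pow, mem_sphere_zero_iff_norm.1 hz, smul_eq_mul]
  have hsm : Summable fun k => ‖a k‖ * r ^ k := by
    have hz : (r : ℂ) ∈ ball (0 : ℂ) 1 := by
      rw [mem_ball_zero_iff, Complex.norm_real, Real.norm_of_nonneg hr0.le]; exact hr1
    refine (hser _ hz).summable.norm.congr fun k => ?_
    rw [norm_mul, norm_pow, Complex.norm_real, Real.norm_of_nonneg hr0.le]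
  have hpar := ub_parseval a id Function.injective_id r hr0.le hsm h (fun z hz => hser z (by
    rw [mem_sphere_zero_iff_norm] at hz
    rw [mem_ball_zero_iff, hz]; exact hr1))
  have hpar2 := (hpar.mul_left r).tendsto_sum_nat
  rw [hca]
  refine le_of_tendsto' hpar2 fun N => ?_
  refine le_trans (le_of_eq ?_) (hmain N)
  refine Finset.sum_congr rfl fun k _ => ?_
  simp only [id]
  ring

end Pool.Agent.Helper64.C3
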