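import Pool.Agent.Helper72.BA.Defs

/-!
# Module KE1 of MP_3dd6d4_an: the cutoffs and the kernels are Schwartz functions
-/

set_option autoImplicit false

open MeasureTheory Complex FourierTransform Filter Topology
open scoped ENNReal NNReal ComplexConjugate ContDiff

noncomputable section

namespace Helper72.BA.P

open Helper72.BA

/-! ### The profile -/

theorem psi_nonneg (t : ℝ) : 0 ≤ psi t := Real.smoothTransition.nonneg _

theorem psi_le_one (t : ℝ) : psi t ≤ 1 := Real.smoothTransition.le_one _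

theorem psi_eq_one {t : ℝ} (h : t ≤ 1) : psi t = 1 :=
  Real.smoothTransition.one_of_one_le (by linarith)

theorem psi_eq_zero {t : ℝ} (h : 2 ≤ t) : psi t = 0 :=
  Real.smoothTransition.zero_of_nonpos (by linarith)

theorem psi_antitone : Antitone psi := fun _ _ h =>
  Real.smoothTransition.monotone (by linarith)

theorem contDiff_psi {m : ℕ∞} : ContDiff ℝ m psi :=
  Real.smoothTransition.contDiff.comp (contDiff_const.sub contDiff_id)

/-! ### The radial cutoffs -/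

theorem Psi_nonneg (i : ℤ) (ξ : ℂ) : 0 ≤ Psi i ξ := psi_nonneg _

theorem Psi_le_one (i : ℤ) (ξ : ℂ) : Psi i ξ ≤ 1 := psi_le_one _

theorem Psi_eq_one {i : ℤ} {ξ : ℂ} (h : ‖ξ‖ ≤ (2:ℝ) ^ i) : Psi i ξ = 1 := by
  apply psi_eq_one
  rw [zpow_neg, inv_mul_le_iff₀ (by positivity), mul_one]
  exact h

theorem Psi_eq_zero {i : ℤ} {ξ : ℂ} (h : (2:ℝ) ^ (i + 1) ≤ ‖ξ‖) : Psi i ξ = 0 := by
  apply psi_eq_zero
  rw [zpow_neg, le_inv_mul_iff₀ (by positivity)]
  rwa [zpow_add_one₀ (by norm_num)] at h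

theorem Psi_mono {i j : ℤ} (h : i ≤ j) (ξ : ℂ) : Psi i ξ ≤ Psi j ξ := by
  apply psi_antitone
  apply mul_le_mul_of_nonneg_right _ (norm_nonneg _)
  exact zpow_le_zpow_right₀ (by norm_num) (by omega)

theorem chi_nonneg (j : ℤ) (ξ : ℂ) : 0 ≤ chi j ξ :=
  sub_nonneg.mpr (Psi_mono (by omega) ξ)

theorem chi_le_one (j : ℤ) (ξ : ℂ) : chi j ξ ≤ 1 := by
  have h1 := Psi_le_one j ξ
  have h2 := Psi_nonneg (j - 1) ξ
  rw [chi]
  linarith

theorem chi_eq_zero_left {j : ℤ} {ξ : ℂ} (h : ‖ξ‖ ≤ (2:ℝ) ^ (j - 1)) : chi j ξ = 0 := by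
  rw [chi, Psi_eq_one h, Psi_eq_one (h.trans (zpow_le_zpow_right₀ (by norm_num) (by omega))),
    sub_self]

theorem chi_eq_zero_right {j : ℤ} {ξ : ℂ} (h : (2:ℝ) ^ (j + 1) ≤ ‖ξ‖) : chi j ξ = 0 := by
  rw [chi, Psi_eq_zero h, Psi_eq_zero ((zpow_le_zpow_right₀ (by norm_num) (by omega)).trans h),
    sub_self]

theorem sum_chi_Ico (a b : ℤ) (h : a ≤ b) (ξ : ℂ) :
    ∑ j ∈ Finset.Ico a b, chi j ξ = Psi (b - 1) ξ - Psi (a - 1) ξ := by
  induction b, h using Int.leInduction with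
  | base => simp
  | succ m hm ih =>
    have h1 : Finset.Ico a (m + 1) = insert m (Finset.Ico a m) := by
      ext x
      simp only [Finset.mem_Ico, Finset.mem_insert]
      omega
    rw [h1, Finset.sum_insert (by simp), ih, chi]
    rw [show m + 1 - 1 = m by ring]
    ring

theorem sum_chi_le_one (A : Finset ℤ) (ξ : ℂ) : ∑ j ∈ A, chi j ξ ≤ 1 := by
  obtain ⟨N, hN⟩ : ∃ N : ℕ, ∀ j ∈ A, j ∈ Finset.Ico (-(N : ℤ)) (N + 1) := by
    refine ⟨∑ j ∈ A, j.natAbs, fun j hj => ?_⟩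
    have h1 : j.natAbs ≤ ∑ j ∈ A, j.natAbs :=
      Finset.single_le_sum (f := fun j : ℤ => j.natAbs) (fun _ _ => Nat.zero_le _) hj
    rw [Finset.mem_Ico]
    omega
  calc ∑ j ∈ A, chi j ξ ≤ ∑ j ∈ Finset.Ico (-(N : ℤ)) (N + 1), chi j ξ :=
        Finset.sum_le_sum_of_subset_of_nonneg hN fun j _ _ => chi_nonneg j ξ
    _ = Psi (N + 1 - 1) ξ - Psi (-(N : ℤ) - 1) ξ := sum_chi_Ico _ _ (by omega) ξ
    _ ≤ 1 := by
      have h1 := Psi_le_one (N + 1 - 1) ξ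
      have h2 := Psi_nonneg (-(N : ℤ) - 1) ξ
      linarith

/-! ### Smoothness -/

theorem contDiff_Psi (i : ℤ) : ContDiff ℝ ∞ (Psi i) := by
  rw [contDiff_iff_contDiffAt]
  intro ξ
  by_cases h : ξ = 0
  · subst h
    have h1 : Psi i =ᶠ[𝓝 0] fun _ => 1 := by
      filter_upwards [Metric.ball_mem_nhds (0 : ℂ) (show (0:ℝ) < 2 ^ i by positivity)] with x hx
      rw [mem_ball_zero_iff] at hx
      exact Psi_eq_one hx.le
    exact contDiffAt_const.congr_of_eventuallyEq h1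
  · exact contDiff_psi.contDiffAt.comp ξ (contDiffAt_const.mul (contDiffAt_norm ℝ h))

theorem contDiff_chi (j : ℤ) : ContDiff ℝ ∞ (chi j) :=
  (contDiff_Psi j).sub (contDiff_Psi (j - 1))

theorem hasCompactSupport_Psi (i : ℤ) : HasCompactSupport (Psi i) := by
  apply HasCompactSupport.of_support_subset_isCompact
    (isCompact_closedBall (0 : ℂ) ((2:ℝ) ^ (i + 1)))
  intro ξ hξ
  rw [mem_closedBall_zero_iff]
  by_contra h
  exact hξ (Psi_eq_zero (not_le.mp h).le)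

theorem hasCompactSupport_chi (j : ℤ) : HasCompactSupport (chi j) := by
  apply HasCompactSupport.of_support_subset_isCompact
    (isCompact_closedBall (0 : ℂ) ((2:ℝ) ^ (j + 1)))
  intro ξ hξ
  rw [mem_closedBall_zero_iff]
  by_contra h
  exact hξ (chi_eq_zero_right (not_le.mp h).le)

theorem contDiffAt_mult (n : ℕ) {ξ : ℂ} (h : ξ ≠ 0) : ContDiffAt ℝ ∞ (mult n) ξ := by
  have h1 : ContDiffAt ℝ ∞ (fun z : ℂ => (starRingEnd ℂ) z) ξ := conjCLE.contDiff.contDiffAt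
  have h2 : ContDiffAt ℝ ∞ (fun z : ℂ => z) ξ := contDiffAt_id
  have h3 : ContDiffAt ℝ ∞ (fun z : ℂ => ((starRingEnd ℂ) z * z⁻¹) ^ n) ξ :=
    (h1.mul (h2.inv h)).pow n
  exact h3

theorem contDiff_mult_chi (n : ℕ) (j : ℤ) :
    ContDiff ℝ ∞ (fun ξ : ℂ => mult n ξ * (chi j ξ : ℂ)) := by
  rw [contDiff_iff_contDiffAt]
  intro ξ
  by_cases h : ξ = 0
  · subst h
    have h1 : (fun ξ : ℂ => mult n ξ * (chi j ξ : ℂ)) =ᶠ[𝓝 0] fun _ => 0 := by
      filter_upwards [Metric.ball_mem_nhds (0 : ℂ) (show (0:ℝ) < 2 ^ (j - 1) by positivity)]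
        with x hx
      rw [mem_ball_zero_iff] at hx
      rw [chi_eq_zero_left hx.le, ofReal_zero, mul_zero]
    exact contDiffAt_const.congr_of_eventuallyEq h1
  · exact (contDiffAt_mult n h).mul (ofRealCLM.contDiff.comp (contDiff_chi j)).contDiffAt

theorem hasCompactSupport_mult_chi (n : ℕ) (j : ℤ) :
    HasCompactSupport (fun ξ : ℂ => mult n ξ * (chi j ξ : ℂ)) := by
  apply HasCompactSupport.of_support_subset_isCompact
    (isCompact_closedBall (0 : ℂ) ((2:ℝ) ^ (j + 1)))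
  intro ξ hξ
  rw [mem_closedBall_zero_iff]
  by_contra h
  apply hξ
  show mult n ξ * (chi j ξ : ℂ) = 0
  rw [chi_eq_zero_right (not_le.mp h).le, ofReal_zero, mul_zero]

/-! ### The kernels -/

/-- the multiplier of the annulus as a Schwartz function -/
def multS (n : ℕ) (j : ℤ) : SchwartzMap ℂ ℂ :=
  (hasCompactSupport_mult_chi n j).toSchwartzMap (contDiff_mult_chi n j)

theorem multS_coe (n : ℕ) (j : ℤ) :
    (multS n j : ℂ → ℂ) = fun ξ : ℂ => mult n ξ * (chi j ξ : ℂ) := rfl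

/-- the low pass multiplier as a Schwartz function -/
def PsiS (i : ℤ) : SchwartzMap ℂ ℂ :=
  HasCompactSupport.toSchwartzMap (f := fun ξ : ℂ => (Psi i ξ : ℂ))
    ((hasCompactSupport_Psi i).comp_left ofReal_zero) (ofRealCLM.contDiff.comp (contDiff_Psi i))

theorem PsiS_coe (i : ℤ) : (PsiS i : ℂ → ℂ) = fun ξ : ℂ => (Psi i ξ : ℂ) := rfl

theorem KK_eq (n : ℕ) (j : ℤ) : KK n j = ((𝓕⁻ (multS n j) : SchwartzMap ℂ ℂ) : ℂ → ℂ) := by
  rw [SchwartzMap.fourierInv_coe]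
  rfl

theorem kap_eq (i : ℤ) : kap i = ((𝓕⁻ (PsiS i) : SchwartzMap ℂ ℂ) : ℂ → ℂ) := by
  rw [SchwartzMap.fourierInv_coe]
  rfl

theorem ker_KK (n : ℕ) (j : ℤ) : Ker (KK n j) := ⟨_, KK_eq n j⟩

theorem ker_kap (i : ℤ) : Ker (kap i) := ⟨_, kap_eq i⟩

theorem fourier_KK (n : ℕ) (j : ℤ) (ξ : ℂ) : 𝓕 (KK n j) ξ = mult n ξ * (chi j ξ : ℂ) := by
  have h : 𝓕 (𝓕⁻ (multS n j)) = multS n j := FourierTransform.fourier_fourierInv_eq _
  rw [KK_eq, ← SchwartzMap.fourier_coe, h]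
  rfl

theorem fourier_kap (i : ℤ) (ξ : ℂ) : 𝓕 (kap i) ξ = (Psi i ξ : ℂ) := by
  have h : 𝓕 (𝓕⁻ (PsiS i)) = PsiS i := FourierTransform.fourier_fourierInv_eq _
  rw [kap_eq, ← SchwartzMap.fourier_coe, h]
  rfl

end Helper72.BA.P
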