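import Pool.Agent.Helper72.BA.Stubs

/-!
# Module LE of MP_3dd6d4_an: the `L^∞` endpoint
-/

set_option autoImplicit false

open MeasureTheory Complex FourierTransform Filter Topology
open scoped ENNReal NNReal ComplexConjugate

noncomputable section

namespace Helper72.BA.P

open Helper72.BA

namespace LEaux

/-! ### characters -/

lemma norm_ch (z η : ℂ) : ‖ch z η‖ = 1 := by
  rw [ch, show (2 * Real.pi * I * (z.re * η.re + z.im * η.im : ℝ) : ℂ) =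
    ((2 * Real.pi * (z.re * η.re + z.im * η.im) : ℝ) : ℂ) * I by push_cast; ring]
  exact Complex.norm_exp_ofReal_mul_I _

lemma ch_add (z η ζ : ℂ) : ch z (η + ζ) = ch z η * ch z ζ := by
  rw [ch, ch, ch, ← Complex.exp_add]
  congr 1
  rw [add_re, add_im]
  push_cast
  ring

lemma ch_add_left (z w η : ℂ) : ch (z + w) η = ch z η * ch w η := by
  rw [ch, ch, ch, ← Complex.exp_add]
  congr 1
  rw [add_re, add_im]
  push_cast
  ring

lemma continuous_ch : Continuous fun p : ℂ × ℂ => ch p.1 p.2 := by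
  unfold ch
  fun_prop

lemma fourier_ch (f : ℂ → ℂ) (ξ : ℂ) : 𝓕 f ξ = ∫ z, ch z (-ξ) * f z := by
  rw [Real.fourier_eq']
  congr 1
  ext z
  rw [smul_eq_mul, ch]
  congr 2
  rw [Complex.inner]
  simp only [mul_re, conj_re, conj_im, neg_re, neg_im]
  push_cast
  ring

/-! ### dilations -/

lemma fourier_dil (φ : ℂ → ℂ) (r : ℝ) (hr : 0 < r) (ξ : ℂ) :
    𝓕 (fun z => φ (z / r)) ξ = (r : ℂ) ^ 2 * 𝓕 φ (r * ξ) := by
  rw [fourier_ch, fourier_ch]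
  have h1 : ∀ z : ℂ, ch z (-ξ) * φ (z / r) =
      (fun w => ch w (-(r * ξ)) * φ w) (r⁻¹ • z) := by
    intro z
    have hr' : (r : ℂ) ≠ 0 := ofReal_ne_zero.mpr hr.ne'
    have h2 : (r⁻¹ : ℝ) • z = z / r := by
      rw [real_smul, ofReal_inv, div_eq_inv_mul]
    simp only [h2]
    congr 1
    rw [ch, ch]
    congr 1
    have h3 : z.re * (-ξ).re + z.im * (-ξ).im =
        (z / r).re * (-(r * ξ)).re + (z / r).im * (-(r * ξ)).im := by
      rw [div_ofReal_re, div_ofReal_im]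
      simp only [neg_re, neg_im, mul_re, mul_im, ofReal_re, ofReal_im, zero_mul, sub_zero,
        add_zero]
      field_simp
    rw [h3]
  rw [integral_congr_ae (Eventually.of_forall h1),
    Measure.integral_comp_inv_smul_of_nonneg volume (fun w => ch w (-(r * ξ)) * φ w) hr.le,
    Complex.finrank_real_complex, real_smul, ofReal_pow]

/-! ### properties of `gW` -/

lemma nice_zero : Nice (fun _ => (0 : ℂ)) :=
  ⟨measurable_const, integrable_zero _ _ _, 0, fun _ => by simp⟩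

lemma nice_add {f g : ℂ → ℂ} (hf : Nice f) (hg : Nice g) : Nice (fun z => f z + g z) := by
  obtain ⟨C, hC⟩ := hf.bdd
  obtain ⟨D, hD⟩ := hg.bdd
  exact ⟨hf.meas.add hg.meas, hf.int.add hg.int, C + D, fun z =>
    (norm_add_le _ _).trans (add_le_add (hC z) (hD z))⟩

lemma nice_sum {ι : Type*} (s : Finset ι) (f : ι → ℂ → ℂ) (hf : ∀ i ∈ s, Nice (f i)) :
    Nice (fun z => ∑ i ∈ s, f i z) := by
  classical
  induction s using Finset.induction_on with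
  | empty => simpa using nice_zero
  | insert a s ha ih =>
    simp only [Finset.sum_insert ha]
    exact nice_add (hf a (Finset.mem_insert_self _ _))
      (ih fun i hi => hf i (Finset.mem_insert_of_mem hi))

lemma nice_gW (n : ℕ) (W : Finset ℤ) {f : ℂ → ℂ} (hf : Nice f) : Nice (gW n W f) :=
  nice_sum W _ fun j _ => nice_cv (ker_KK n j) hf

lemma continuous_gW (n : ℕ) (W : Finset ℤ) {f : ℂ → ℂ} (hf : Nice f) :
    Continuous (gW n W f) :=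
  continuous_finsetSum _ fun j _ => continuous_cv (ker_KK n j) hf

lemma fourier_sum {ι : Type*} (s : Finset ι) (f : ι → ℂ → ℂ) (hf : ∀ i ∈ s, Nice (f i))
    (ξ : ℂ) : 𝓕 (fun z => ∑ i ∈ s, f i z) ξ = ∑ i ∈ s, 𝓕 (f i) ξ := by
  rw [fourier_ch]
  simp_rw [Finset.mul_sum]
  rw [integral_finsetSum]
  · simp_rw [fourier_ch]
  · intro i hi
    have h1 : Continuous fun z => ch z (-ξ) :=
      continuous_ch.comp (continuous_id.prodMk continuous_const)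
    refine (hf i hi).int.bdd_mul h1.aestronglyMeasurable (c := 1) ?_
    exact Eventually.of_forall fun z => (norm_ch z (-ξ)).le

lemma fourier_gW (n : ℕ) (W : Finset ℤ) {f : ℂ → ℂ} (hf : Nice f) (ξ : ℂ) :
    𝓕 (gW n W f) ξ = ∑ j ∈ W, mult n ξ * (chi j ξ : ℂ) * 𝓕 f ξ := by
  show 𝓕 (fun z => ∑ j ∈ W, cv (KK n j) f z) ξ = _
  rw [fourier_sum W _ fun j _ => nice_cv (ker_KK n j) hf]
  refine Finset.sum_congr rfl fun j _ => ?_
  show 𝓕 (cv (KK n j) f) ξ = _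
  rw [fourier_cv (ker_KK n j) hf, fourier_KK]

lemma integrable_fourier_gW (n : ℕ) (W : Finset ℤ) {f : ℂ → ℂ} (hf : Nice f) :
    Integrable (𝓕 (gW n W f)) := by
  have h1 : 𝓕 (gW n W f) = fun ξ => ∑ j ∈ W, 𝓕 (cv (KK n j) f) ξ := by
    ext ξ
    exact fourier_sum W _ (fun j _ => nice_cv (ker_KK n j) hf) ξ
  rw [h1]
  exact integrable_finsetSum _ fun j _ => integrable_fourier_cv (ker_KK n j) hf

lemma fourier_gW_zero (n b : ℕ) {f : ℂ → ℂ} (hf : Nice f) {ξ : ℂ} (h : (2:ℝ) ^ b ≤ ‖ξ‖) :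
    𝓕 (gW n (Finset.Ico (0:ℤ) b) f) ξ = 0 := by
  rw [fourier_gW n _ hf]
  refine Finset.sum_eq_zero fun j hj => ?_
  rw [Finset.mem_Ico] at hj
  have h1 : (2:ℝ) ^ (j + 1) ≤ ‖ξ‖ := by
    refine le_trans ?_ h
    rw [← zpow_natCast]
    exact zpow_le_zpow_right₀ (by norm_num) (by omega)
  rw [chi_eq_zero_right h1, ofReal_zero, mul_zero, zero_mul]

/-! ### the function `g_0` -/

lemma ch_comm (z η : ℂ) : ch z η = ch η z := by
  rw [ch, ch]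
  congr 3
  ring

lemma psi_mem (t : ℝ) : 0 ≤ psi t ∧ psi t ≤ 1 :=
  ⟨Real.smoothTransition.nonneg _, Real.smoothTransition.le_one _⟩

lemma cW_zero_left {b : ℕ} (hb : 1 ≤ b) {t : ℝ} (h : t ≤ 1 / 2) : cW b t = 0 := by
  have h1 : psi (2 * t) = 1 := Real.smoothTransition.one_of_one_le (by linarith)
  have h2 : psi ((2:ℝ) ^ (1 - (b : ℤ)) * t) = 1 := by
    apply Real.smoothTransition.one_of_one_le
    have h3 : (0:ℝ) < (2:ℝ) ^ (1 - (b : ℤ)) := by positivity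
    have h4 : (2:ℝ) ^ (1 - (b : ℤ)) ≤ 1 := by
      have := zpow_le_zpow_right₀ (show (1:ℝ) ≤ 2 by norm_num) (show (1 - (b : ℤ)) ≤ 0 by omega)
      simpa using this
    nlinarith
  rw [cW, h1, h2, sub_self]

lemma cW_zero_right {b : ℕ} (hb : 1 ≤ b) {t : ℝ} (h : (2:ℝ) ^ b ≤ t) : cW b t = 0 := by
  have h0 : (2:ℝ) ≤ 2 ^ b := by
    calc (2:ℝ) = 2 ^ 1 := by norm_num
      _ ≤ 2 ^ b := pow_le_pow_right₀ (by norm_num) hb
  have h1 : psi (2 * t) = 0 := Real.smoothTransition.zero_of_nonpos (by linarith)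
  have h2 : psi ((2:ℝ) ^ (1 - (b : ℤ)) * t) = 0 := by
    apply Real.smoothTransition.zero_of_nonpos
    have h3 : (2:ℝ) ^ (1 - (b : ℤ)) * 2 ^ b = 2 := by
      rw [← zpow_natCast, ← zpow_add₀ (by norm_num)]
      norm_num
    have h4 : (2:ℝ) ^ (1 - (b : ℤ)) * 2 ^ b ≤ (2:ℝ) ^ (1 - (b : ℤ)) * t :=
      mul_le_mul_of_nonneg_left h (by positivity)
    linarith
  rw [cW, h1, h2, sub_self]

lemma cW_le_one (b : ℕ) (t : ℝ) : cW b t ≤ 1 := by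
  have h1 := psi_mem ((2:ℝ) ^ (1 - (b : ℤ)) * t)
  have h2 := psi_mem (2 * t)
  rw [cW]
  linarith [h1.2, h2.1]

section gzero

variable {b : ℕ} (hb : 1 ≤ b) {F : ℂ → ℂ} (hF : Measurable F)
  (hFb : ∀ η, ‖F η‖ ≤ cW b ‖η‖ / (Real.pi * ‖η‖ ^ 2))

include hb hFb

lemma F_bdd (η : ℂ) : ‖F η‖ ≤ 4 := by
  by_cases h : ‖η‖ ≤ 1 / 2
  · have := hFb η
    rw [cW_zero_left hb h, zero_div] at this
    linarith
  · push Not at h
    refine (hFb η).trans ?_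
    have h1 : (1:ℝ) / 4 ≤ ‖η‖ ^ 2 := by nlinarith
    have h2 := Real.pi_gt_three
    rw [div_le_iff₀ (by positivity)]
    have h3 := cW_le_one b ‖η‖
    nlinarith

lemma F_supp (η : ℂ) (h : (2:ℝ) ^ b ≤ ‖η‖) : F η = 0 := by
  have := hFb η
  rw [cW_zero_right hb h, zero_div] at this
  exact norm_le_zero_iff.mp this

include hF

lemma F_nice : Nice F := by
  refine ⟨hF, ?_, 4, F_bdd hb hFb⟩
  have h1 : IntegrableOn F (Metric.closedBall 0 ((2:ℝ) ^ b)) := by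
    refine Measure.integrableOn_of_bounded (M := 4) ?_ hF.aestronglyMeasurable ?_
    · exact (isCompact_closedBall _ _).measure_lt_top.ne
    · exact Eventually.of_forall fun η => F_bdd hb hFb η
  refine (integrableOn_iff_integrable_of_support_subset ?_).mp h1
  intro η hη
  rw [mem_closedBall_zero_iff]
  by_contra h
  exact hη (F_supp hb hFb η (not_le.mp h).le)

end gzero

lemma continuous_g0 {F : ℂ → ℂ} (hF : Nice F) : Continuous fun z => ∫ η, F η * ch z η := by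
  refine continuous_of_dominated (bound := fun η => ‖F η‖) ?_ ?_ hF.int.norm ?_
  · intro z
    have h1 : Continuous fun η => ch z η :=
      continuous_ch.comp (continuous_const.prodMk continuous_id)
    exact hF.int.aestronglyMeasurable.mul h1.aestronglyMeasurable
  · intro z
    refine Eventually.of_forall fun η => ?_
    rw [norm_mul, norm_ch, mul_one]
  · refine Eventually.of_forall fun η => ?_
    have h1 : Continuous fun z => ch z η :=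
      continuous_ch.comp (continuous_id.prodMk continuous_const)
    exact continuous_const.mul h1

lemma bdd_g0 {F : ℂ → ℂ} (z : ℂ) : ‖∫ η, F η * ch z η‖ ≤ ∫ η, ‖F η‖ := by
  refine (norm_integral_le_integral_norm _).trans (le_of_eq ?_)
  congr 1
  ext η
  rw [norm_mul, norm_ch, mul_one]

lemma nice_mul {a c : ℂ → ℂ} (ha : Nice a) (hc : Measurable c) (C : ℝ) (hC : ∀ z, ‖c z‖ ≤ C) :
    Nice (fun z => a z * c z) := by
  obtain ⟨A, hA⟩ := ha.bdd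
  refine ⟨ha.meas.mul hc, ?_, A * C, fun z => ?_⟩
  · exact ha.int.mul_bdd hc.aestronglyMeasurable (c := C) (Eventually.of_forall hC)
  · rw [norm_mul]
    exact mul_le_mul (hA z) (hC z) (norm_nonneg _) ((norm_nonneg _).trans (hA z))

/-- the Fourier transform of `φ g_0` -/
lemma fourier_mul_g0 {a F : ℂ → ℂ} (ha : Nice a) (hF : Nice F) (η : ℂ) :
    𝓕 (fun z => a z * ∫ ζ, F ζ * ch z ζ) η = ∫ ζ, 𝓕 a (η - ζ) * F ζ := by
  rw [fourier_ch]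
  have h1 : ∀ z, ch z (-η) * (a z * ∫ ζ, F ζ * ch z ζ) =
      ∫ ζ, ch z (-(η - ζ)) * (a z * F ζ) := by
    intro z
    rw [← mul_assoc, ← integral_const_mul]
    congr 1
    ext ζ
    rw [neg_sub, sub_eq_neg_add, ch_add]
    ring
  rw [integral_congr_ae (Eventually.of_forall h1), integral_integral_swap]
  · congr 1
    ext ζ
    rw [fourier_ch, ← integral_mul_const]
    congr 1
    ext z
    ring
  · have h2 : Integrable (fun p : ℂ × ℂ => a p.1 * F p.2) (volume.prod volume) :=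
      ha.int.mul_prod hF.int
    have h3 : Continuous fun p : ℂ × ℂ => ch p.1 (-(η - p.2)) :=
      continuous_ch.comp (continuous_fst.prodMk
        (show Continuous fun p : ℂ × ℂ => -(η - p.2) by fun_prop))
    exact h2.bdd_mul h3.aestronglyMeasurable (c := 1)
      (Eventually.of_forall fun p => (norm_ch _ _).le)

/-! ### the dilated window -/

lemma nice_schwartz (φ : SchwartzMap ℂ ℂ) : Nice φ := by
  obtain ⟨C, -, hC⟩ := φ.decay 0 0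
  refine ⟨φ.continuous.measurable, φ.integrable, C, fun z => ?_⟩
  simpa using hC z

lemma nice_dil {φ : ℂ → ℂ} (hφ : Nice φ) (r : ℝ) (hr : 0 < r) : Nice (fun z => φ (z / r)) := by
  obtain ⟨C, hC⟩ := hφ.bdd
  refine ⟨hφ.meas.comp (by fun_prop), ?_, C, fun z => hC _⟩
  have h1 := hφ.int.comp_smul (R := r⁻¹) (inv_ne_zero hr.ne')
  refine h1.congr (Eventually.of_forall fun z => ?_)
  simp only [real_smul, ofReal_inv, div_eq_inv_mul]

/-- the spectrum of the windowed function -/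
lemma fourier_window_zero (n b : ℕ) {f a : ℂ → ℂ} (hf : Nice f) (ha : Nice a) (σ : ℝ)
    (has : ∀ ξ, σ < ‖ξ‖ → 𝓕 a ξ = 0) {η : ℂ} (h : (2:ℝ) ^ b + σ < ‖η‖) :
    𝓕 (fun z => a z * gW n (Finset.Ico (0:ℤ) b) f z) η = 0 := by
  rw [fourier_mul ha (nice_gW n _ hf) (continuous_gW n _ hf) (integrable_fourier_gW n _ hf)]
  have h1 : ∀ ζ, 𝓕 (gW n (Finset.Ico (0:ℤ) b) f) ζ * 𝓕 a (η - ζ) = 0 := by
    intro ζ
    by_cases hζ : (2:ℝ) ^ b ≤ ‖ζ‖
    · rw [fourier_gW_zero n b hf hζ, zero_mul]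
    · push Not at hζ
      have h2 : ‖η‖ ≤ ‖η - ζ‖ + ‖ζ‖ := by
        calc ‖η‖ = ‖(η - ζ) + ζ‖ := by rw [sub_add_cancel]
          _ ≤ _ := norm_add_le _ _
      rw [has _ (by linarith), mul_zero]
  rw [integral_congr_ae (Eventually.of_forall h1), integral_zero]

/-- elementary inequality -/
lemma sq_add_le (A B : ℂ) (δ : ℝ) (hδ : 0 < δ) :
    ‖A + B‖ₑ ^ 2 ≤ ENNReal.ofReal (1 + δ) * ‖A‖ₑ ^ 2 + ENNReal.ofReal (1 + δ⁻¹) * ‖B‖ₑ ^ 2 := by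
  have h1 : ‖A + B‖ ^ 2 ≤ (1 + δ) * ‖A‖ ^ 2 + (1 + δ⁻¹) * ‖B‖ ^ 2 := by
    have h2 := norm_add_le A B
    have h3 : ‖A + B‖ ^ 2 ≤ (‖A‖ + ‖B‖) ^ 2 := pow_le_pow_left₀ (norm_nonneg _) h2 2
    have h4 : 2 * ‖A‖ * ‖B‖ ≤ δ * ‖A‖ ^ 2 + δ⁻¹ * ‖B‖ ^ 2 := by
      have h5 : 0 ≤ δ⁻¹ * (δ * ‖A‖ - ‖B‖) ^ 2 := by positivity
      have h6 : δ⁻¹ * (δ * ‖A‖ - ‖B‖) ^ 2 = δ * ‖A‖ ^ 2 - 2 * ‖A‖ * ‖B‖ + δ⁻¹ * ‖B‖ ^ 2 := by
        field_simp
        ring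
      linarith
    nlinarith
  simp only [← ofReal_norm]
  rw [← ENNReal.ofReal_pow (norm_nonneg _), ← ENNReal.ofReal_pow (norm_nonneg _),
    ← ENNReal.ofReal_pow (norm_nonneg _), ← ENNReal.ofReal_mul (by positivity),
    ← ENNReal.ofReal_mul (by positivity), ← ENNReal.ofReal_add (by positivity) (by positivity)]
  exact ENNReal.ofReal_le_ofReal h1

/-- the basic estimate at the origin -/
lemma basic (n b : ℕ) {f a : ℂ → ℂ} (hf : Nice f) (ha : Nice a)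
    {F : ℂ → ℂ} (hF : Nice F) (e : ℂ → ℝ) (h0e : ∀ z, 0 ≤ e z)
    (hFe : ∀ z : ℂ, ‖gW n (Finset.Ico (0:ℤ) b) f z - n * ∫ η, F η * ch z η‖ ≤ n * e z)
    (Θ : ℂ → ℂ) (M : ℝ) (hΘ : ∀ η, ‖Θ η‖ ≤ M) (δ : ℝ) (hδ : 0 < δ) :
    ∫⁻ η, ‖Θ η * 𝓕 (fun z => a z * gW n (Finset.Ico (0:ℤ) b) f z) η‖ₑ ^ 2 ≤
      ENNReal.ofReal ((1 + δ) * n ^ 2) * (∫⁻ η, ‖Θ η * ∫ ζ, 𝓕 a (η - ζ) * F ζ‖ₑ ^ 2)
      + ENNReal.ofReal ((1 + δ⁻¹) * M ^ 2 * n ^ 2) *
          ∫⁻ z, ‖a z‖ₑ ^ 2 * ENNReal.ofReal (e z) ^ 2 := by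
  obtain ⟨err, herr⟩ : ∃ err : ℂ → ℂ, err = fun z =>
    a z * (gW n (Finset.Ico (0:ℤ) b) f z - n * ∫ η, F η * ch z η) := ⟨_, rfl⟩
  have hg0c := continuous_g0 hF
  have hg0 : Nice (fun z => a z * ∫ ζ, F ζ * ch z ζ) :=
    nice_mul ha hg0c.measurable _ bdd_g0
  have hGn := nice_gW n (Finset.Ico (0:ℤ) b) hf
  obtain ⟨CG, hCG⟩ := hGn.bdd
  have herrN : Nice err := by
    rw [herr]
    refine nice_mul ha (hGn.meas.sub (measurable_const.mul hg0c.measurable))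
      (CG + n * ∫ η, ‖F η‖) fun z => ?_
    refine (norm_sub_le _ _).trans (add_le_add (hCG z) ?_)
    rw [norm_mul, norm_natCast]
    exact mul_le_mul_of_nonneg_left (bdd_g0 z) (Nat.cast_nonneg _)
  have hsplit : ∀ η, 𝓕 (fun z => a z * gW n (Finset.Ico (0:ℤ) b) f z) η =
      n * (∫ ζ, 𝓕 a (η - ζ) * F ζ) + 𝓕 err η := by
    intro η
    rw [← fourier_mul_g0 ha hF]
    have h1 : (fun z => a z * gW n (Finset.Ico (0:ℤ) b) f z) =
        fun z => ∑ i : Fin 2, (![fun z => (n : ℂ) * (a z * ∫ ζ, F ζ * ch z ζ), err] i) z := by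
      ext z
      rw [Fin.sum_univ_two]
      simp only [Matrix.cons_val_zero, Matrix.cons_val_one, herr]
      ring
    have hN1 : Nice (fun z => (n : ℂ) * (a z * ∫ ζ, F ζ * ch z ζ)) := by
      have := nice_mul hg0 (c := fun _ => (n : ℂ)) measurable_const n (fun z => by simp)
      refine ⟨?_, ?_, ?_⟩
      · exact measurable_const.mul hg0.meas
      · exact hg0.int.const_mul _
      · obtain ⟨C, hC⟩ := this.bdd
        exact ⟨C, fun z => by rw [mul_comm]; exact hC z⟩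
    rw [h1, fourier_sum]
    · rw [Fin.sum_univ_two]
      simp only [Matrix.cons_val_zero, Matrix.cons_val_one]
      congr 1
      rw [fourier_ch, fourier_ch, ← integral_const_mul]
      congr 1
      ext z
      ring
    · intro i _
      fin_cases i
      · exact hN1
      · exact herrN
  have hpt : ∀ η, ‖Θ η * 𝓕 (fun z => a z * gW n (Finset.Ico (0:ℤ) b) f z) η‖ₑ ^ 2 ≤
      ENNReal.ofReal ((1 + δ) * n ^ 2) * ‖Θ η * ∫ ζ, 𝓕 a (η - ζ) * F ζ‖ₑ ^ 2 +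
        ENNReal.ofReal ((1 + δ⁻¹) * M ^ 2) * ‖𝓕 err η‖ₑ ^ 2 := by
    intro η
    rw [hsplit, mul_add]
    refine (sq_add_le _ _ δ hδ).trans (add_le_add ?_ ?_)
    · rw [show Θ η * (n * ∫ ζ, 𝓕 a (η - ζ) * F ζ) = n * (Θ η * ∫ ζ, 𝓕 a (η - ζ) * F ζ) by ring,
        enorm_mul, mul_pow, ← mul_assoc, ENNReal.ofReal_mul (by positivity),
        ENNReal.ofReal_pow (Nat.cast_nonneg _), ENNReal.ofReal_natCast, ← ofReal_norm (n : ℂ),
        norm_natCast, ENNReal.ofReal_natCast]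
    · rw [enorm_mul, mul_pow, ← mul_assoc, ENNReal.ofReal_mul (by positivity)]
      gcongr
      have hM : 0 ≤ M := (norm_nonneg _).trans (hΘ 0)
      rw [← ofReal_norm, ← ENNReal.ofReal_pow (norm_nonneg _)]
      exact ENNReal.ofReal_le_ofReal (pow_le_pow_left₀ (norm_nonneg _) (hΘ η) 2)
  refine (lintegral_mono hpt).trans ?_
  have hm1 : Measurable fun η => ‖𝓕 err η‖ₑ ^ 2 := by
    have h1 : Continuous (𝓕 err) := by
      have h2 : 𝓕 err = fun η => ∫ z, err z * ch (-η) z := by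
        ext η
        rw [fourier_ch]
        congr 1
        ext z
        rw [ch_comm, mul_comm]
      rw [h2]
      exact (continuous_g0 herrN).comp continuous_neg
    exact h1.measurable.enorm.pow_const 2
  rw [lintegral_add_right _ (hm1.const_mul _), lintegral_const_mul' _ _ ENNReal.ofReal_ne_top,
    lintegral_const_mul' _ _ ENNReal.ofReal_ne_top]
  refine add_le_add le_rfl ?_
  rw [plancherel herrN, ENNReal.ofReal_mul (show 0 ≤ (1 + δ⁻¹) * M ^ 2 by positivity), mul_assoc]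
  gcongr
  rw [← lintegral_const_mul' _ _ ENNReal.ofReal_ne_top]
  refine lintegral_mono fun z => ?_
  rw [herr]
  simp only
  rw [enorm_mul, mul_pow, mul_left_comm]
  gcongr
  rw [← ofReal_norm, ← ENNReal.ofReal_pow (norm_nonneg _),
    ← ENNReal.ofReal_pow (h0e z), ← ENNReal.ofReal_mul (by positivity)]
  apply ENNReal.ofReal_le_ofReal
  rw [← mul_pow]
  exact pow_le_pow_left₀ (norm_nonneg _) (hFe z) 2

/-! ### translations -/

lemma gW_shift (n : ℕ) (W : Finset ℤ) (f : ℂ → ℂ) (z₀ z : ℂ) :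
    gW n W (fun w => f (w + z₀)) z = gW n W f (z + z₀) := by
  refine Finset.sum_congr rfl fun j _ => ?_
  show ∫ w, KK n j (z - w) * f (w + z₀) = ∫ w, KK n j (z + z₀ - w) * f w
  rw [← integral_add_right_eq_self (fun w => KK n j (z + z₀ - w) * f w) z₀]
  congr 1
  ext w
  congr 2
  ring

lemma fourier_shift (H : ℂ → ℂ) (z₀ η : ℂ) :
    ‖𝓕 (fun z => H (z - z₀)) η‖ₑ = ‖𝓕 H η‖ₑ := by
  have h1 : 𝓕 (fun z => H (z - z₀)) η = ch z₀ (-η) * 𝓕 H η := by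
    rw [fourier_ch, fourier_ch, ← integral_const_mul,
      ← integral_add_right_eq_self (fun z => ch z (-η) * H (z - z₀)) z₀]
    congr 1
    ext z
    rw [add_sub_cancel_right, ch_add_left]
    ring
  rw [h1, enorm_mul, ← ofReal_norm (ch z₀ (-η)), norm_ch, ENNReal.ofReal_one, one_mul]

lemma nice_shift {f : ℂ → ℂ} (hf : Nice f) (z₀ : ℂ) : Nice (fun w => f (w + z₀)) := by
  obtain ⟨C, hC⟩ := hf.bdd
  exact ⟨hf.meas.comp (by fun_prop), hf.int.comp_add_right z₀, C, fun z => hC _⟩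

end LEaux

open LEaux

/-- the `L^∞` endpoint -/
theorem Linf_bound (b : ℕ) (hb : 1 ≤ b) (φ : SchwartzMap ℂ ℂ) (hφ : ∀ z, ‖φ z‖ ≤ 1) (ρ₀ : ℝ)
    (hφs : ∀ ξ, ρ₀ < ‖ξ‖ → 𝓕 (φ : ℂ → ℂ) ξ = 0) (θ : SchwartzMap ℂ ℂ)
    (hθs : ∀ ξ, 1 ≤ ‖ξ‖ → θ ξ = 0) (hθ1 : nrm 2 θ = 1) (ε : ℝ) (hε : 0 < ε) :
    ∃ κ r : ℝ, 0 < κ ∧ κ ≤ 1 / 8 ∧ 1 ≤ r ∧ ρ₀ / r ≤ 1 / 8 ∧ ∃ n0 : ℕ, ∀ n : ℕ, n0 ≤ n →
      ∀ f : ℂ → ℂ, Nice f → (∀ z, ‖f z‖ ≤ 1) → ∀ z₀ ξ : ℂ,
      ENNReal.ofReal (‖ξ‖ ^ 4) * ∫⁻ η, ‖(κ : ℂ)⁻¹ * θ ((ξ - η) / κ) *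
          𝓕 (fun z => φ ((z - z₀) / r) * gW n (Finset.Ico (0:ℤ) b) f z) η‖ₑ ^ 2
        ≤ ENNReal.ofReal (((1 + ε) * n / Real.pi) ^ 2) := by
  obtain ⟨κ, r, hκ, hκ8, hr, hρr, hmain⟩ :=
    main_Linf b hb φ hφ ρ₀ hφs θ hθs hθ1 (ε / 2) (by positivity)
  obtain ⟨e, he0, ⟨C, hC⟩, hem, hker⟩ := kernel_asymp b hb
  have hr0 : 0 < r := by linarith
  obtain ⟨a, ha⟩ : ∃ a : ℂ → ℂ, a = fun z => φ (z / r) := ⟨_, rfl⟩
  have haN : Nice a := ha ▸ nice_dil (nice_schwartz φ) r hr0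
  have ha1 : ∀ z, ‖a z‖ ≤ 1 := fun z => by rw [ha]; exact hφ _
  have haF : ∀ ξ, 𝓕 a ξ = (r : ℂ) ^ 2 * 𝓕 (φ : ℂ → ℂ) (r * ξ) := fun ξ => by
    rw [ha]; exact fourier_dil φ r hr0 ξ
  have has : ∀ ξ, (1 / 8 : ℝ) < ‖ξ‖ → 𝓕 a ξ = 0 := by
    intro ξ hξ
    rw [haF, hφs, mul_zero]
    rw [norm_mul, norm_real, Real.norm_of_nonneg hr0.le]
    rw [div_le_iff₀ hr0] at hρr
    nlinarith
  obtain ⟨Mθ, hMθ⟩ := (nice_schwartz θ).bdd
  obtain ⟨M, hM⟩ : ∃ M, M = κ⁻¹ * Mθ := ⟨_, rfl⟩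
  -- the error
  have hD : Tendsto (fun n => ∫⁻ z, ‖a z‖ₑ ^ 2 * ENNReal.ofReal (e n z) ^ 2) atTop (𝓝 0) := by
    have h1 := tendsto_lintegral_of_dominated_convergence (μ := volume)
      (F := fun n z => ‖a z‖ₑ ^ 2 * ENNReal.ofReal (e n z) ^ 2) (f := fun _ => 0)
      (fun z => ‖a z‖ₑ * ENNReal.ofReal C ^ 2) (fun n => ?_) (fun n => ?_) ?_ ?_
    · simpa using h1
    · exact (haN.meas.enorm.pow_const 2).mul ((hem n).ennreal_ofReal.pow_const 2)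
    · refine Eventually.of_forall fun z => ?_
      simp only
      gcongr
      · have h2 : ‖a z‖ₑ ≤ 1 := by
          rw [← ofReal_norm, ← ENNReal.ofReal_one]
          exact ENNReal.ofReal_le_ofReal (ha1 z)
        calc ‖a z‖ₑ ^ 2 = ‖a z‖ₑ * ‖a z‖ₑ := sq _
          _ ≤ ‖a z‖ₑ * 1 := by gcongr
          _ = ‖a z‖ₑ := mul_one _
      · exact (hC n z).2
    · rw [lintegral_mul_const _ haN.meas.enorm]
      exact ENNReal.mul_ne_top haN.int.hasFiniteIntegral.ne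
        (ENNReal.pow_ne_top ENNReal.ofReal_ne_top)
    · refine Eventually.of_forall fun z => ?_
      have h2 : Tendsto (fun n => ENNReal.ofReal (e n z)) atTop (𝓝 0) := by
        rw [← ENNReal.ofReal_zero]
        exact ENNReal.tendsto_ofReal (he0 z)
      have h3 : Tendsto (fun n => ENNReal.ofReal (e n z) ^ 2) atTop (𝓝 0) := by
        have := ENNReal.Tendsto.pow (n := 2) h2
        simpa using this
      have h4 := ENNReal.Tendsto.const_mul (a := ‖a z‖ₑ ^ 2) h3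
        (Or.inr (ENNReal.pow_ne_top enorm_ne_top))
      simpa using h4
  -- the constants
  obtain ⟨s, hs⟩ : ∃ s, s = ((1 + ε) / Real.pi) ^ 2 - ((1 + ε / 2) / Real.pi) ^ 2 := ⟨_, rfl⟩
  have hπ := Real.pi_pos
  have hs0 : 0 < s := by
    rw [hs, sub_pos]
    gcongr
    linarith
  obtain ⟨q, hq⟩ : ∃ q, q = ((1 + ε / 2) / Real.pi) ^ 2 := ⟨_, rfl⟩
  have hq0 : 0 < q := by rw [hq]; positivity
  obtain ⟨δ, hδ⟩ : ∃ δ, δ = s / 2 / q := ⟨_, rfl⟩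
  have hδ0 : 0 < δ := by rw [hδ]; positivity
  have hδq : δ * q = s / 2 := by rw [hδ]; field_simp
  obtain ⟨Q, hQ⟩ : ∃ Q, Q = ((2:ℝ) ^ b + 1) ^ 4 * ((1 + δ⁻¹) * M ^ 2) := ⟨_, rfl⟩
  have hQ0 : 0 ≤ Q := by rw [hQ]; positivity
  obtain ⟨τ, hτ⟩ : ∃ τ, τ = s / 2 / (Q + 1) := ⟨_, rfl⟩
  have hτ0 : 0 < τ := by rw [hτ]; positivity
  have hτQ : Q * τ ≤ s / 2 := by
    have h1 : (Q + 1) * τ = s / 2 := by rw [hτ]; field_simp
    nlinarith
  have hev : ∀ᶠ n in atTop, ∫⁻ z, ‖a z‖ₑ ^ 2 * ENNReal.ofReal (e n z) ^ 2 < ENNReal.ofReal τ :=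
    (tendsto_order.1 hD).2 _ (ENNReal.ofReal_pos.mpr hτ0)
  obtain ⟨n0, hn0⟩ := eventually_atTop.mp hev
  refine ⟨κ, r, hκ, hκ8, hr, hρr, max n0 1, fun n hn f hf hf1 z₀ ξ => ?_⟩
  have hn1 : 1 ≤ n := le_trans (le_max_right _ _) hn
  have hn2 := hn0 n (le_trans (le_max_left _ _) hn)
  -- translation
  obtain ⟨f₀, hf₀⟩ : ∃ f₀ : ℂ → ℂ, f₀ = fun w => f (w + z₀) := ⟨_, rfl⟩
  have hf₀N : Nice f₀ := hf₀ ▸ nice_shift hf z₀
  have htr : ∀ η, ‖𝓕 (fun z => φ ((z - z₀) / r) * gW n (Finset.Ico (0:ℤ) b) f z) η‖ₑ =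
      ‖𝓕 (fun z => a z * gW n (Finset.Ico (0:ℤ) b) f₀ z) η‖ₑ := by
    intro η
    have h1 : (fun z => φ ((z - z₀) / r) * gW n (Finset.Ico (0:ℤ) b) f z) =
        fun z => (fun z => a z * gW n (Finset.Ico (0:ℤ) b) f₀ z) (z - z₀) := by
      funext z
      simp only
      rw [hf₀, gW_shift, sub_add_cancel, ha]
    rw [h1, fourier_shift (fun z => a z * gW n (Finset.Ico (0:ℤ) b) f₀ z) z₀ η]
  have hint : ∫⁻ η, ‖(κ : ℂ)⁻¹ * θ ((ξ - η) / κ) *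
          𝓕 (fun z => φ ((z - z₀) / r) * gW n (Finset.Ico (0:ℤ) b) f z) η‖ₑ ^ 2 =
      ∫⁻ η, ‖(κ : ℂ)⁻¹ * θ ((ξ - η) / κ) *
          𝓕 (fun z => a z * gW n (Finset.Ico (0:ℤ) b) f₀ z) η‖ₑ ^ 2 := by
    refine lintegral_congr fun η => ?_
    rw [enorm_mul, htr, ← enorm_mul]
  rw [hint]
  by_cases hξ : (2:ℝ) ^ b + 1 < ‖ξ‖
  · have h0 : ∀ η, ‖(κ : ℂ)⁻¹ * θ ((ξ - η) / κ) *
          𝓕 (fun z => a z * gW n (Finset.Ico (0:ℤ) b) f₀ z) η‖ₑ ^ 2 = 0 := by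
      intro η
      by_cases h1 : 1 ≤ ‖(ξ - η) / κ‖
      · rw [hθs _ h1]
        simp
      · push Not at h1
        rw [norm_div, norm_real, Real.norm_of_nonneg hκ.le, div_lt_one hκ] at h1
        have h2 : ‖ξ‖ ≤ ‖ξ - η‖ + ‖η‖ := by
          calc ‖ξ‖ = ‖(ξ - η) + η‖ := by rw [sub_add_cancel]
            _ ≤ _ := norm_add_le _ _
        rw [fourier_window_zero n b hf₀N haN (1 / 8) has (by linarith)]
        simp
    rw [lintegral_congr h0, lintegral_zero, mul_zero]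
    exact bot_le
  · push Not at hξ
    obtain ⟨F, hFm, hFb, hFe⟩ := hker n hn1 f₀ hf₀N (fun z => by rw [hf₀]; exact hf1 _)
    have hFN := F_nice hb hFm hFb
    have h1 := basic n b hf₀N haN hFN (e n) (fun z => (hC n z).1) hFe
      (fun η => (κ : ℂ)⁻¹ * θ ((ξ - η) / κ)) M (fun η => by
        rw [norm_mul, norm_inv, norm_real, Real.norm_of_nonneg hκ.le, hM]
        exact mul_le_mul_of_nonneg_left (hMθ _) (by positivity)) δ hδ0
    have h2 := hmain F hFm hFb ξ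
    have h3 : ∫⁻ η, ‖(κ : ℂ)⁻¹ * θ ((ξ - η) / κ) *
          ∫ ζ, (r : ℂ) ^ 2 * 𝓕 (φ : ℂ → ℂ) (r * (η - ζ)) * F ζ‖ₑ ^ 2 =
        ∫⁻ η, ‖(κ : ℂ)⁻¹ * θ ((ξ - η) / κ) * ∫ ζ, 𝓕 a (η - ζ) * F ζ‖ₑ ^ 2 := by
      refine lintegral_congr fun η => ?_
      simp_rw [haF]
    rw [h3] at h2
    calc ENNReal.ofReal (‖ξ‖ ^ 4) * ∫⁻ η, ‖(κ : ℂ)⁻¹ * θ ((ξ - η) / κ) *
          𝓕 (fun z => a z * gW n (Finset.Ico (0:ℤ) b) f₀ z) η‖ₑ ^ 2
        ≤ ENNReal.ofReal (‖ξ‖ ^ 4) * (ENNReal.ofReal ((1 + δ) * n ^ 2) *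
            (∫⁻ η, ‖(κ : ℂ)⁻¹ * θ ((ξ - η) / κ) * ∫ ζ, 𝓕 a (η - ζ) * F ζ‖ₑ ^ 2)
          + ENNReal.ofReal ((1 + δ⁻¹) * M ^ 2 * n ^ 2) *
            ∫⁻ z, ‖a z‖ₑ ^ 2 * ENNReal.ofReal (e n z) ^ 2) := by gcongr
      _ = ENNReal.ofReal ((1 + δ) * n ^ 2) * (ENNReal.ofReal (‖ξ‖ ^ 4) *
            (∫⁻ η, ‖(κ : ℂ)⁻¹ * θ ((ξ - η) / κ) * ∫ ζ, 𝓕 a (η - ζ) * F ζ‖ₑ ^ 2))
          + ENNReal.ofReal (‖ξ‖ ^ 4) * (ENNReal.ofReal ((1 + δ⁻¹) * M ^ 2 * n ^ 2) *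
            ∫⁻ z, ‖a z‖ₑ ^ 2 * ENNReal.ofReal (e n z) ^ 2) := by ring
      _ ≤ ENNReal.ofReal ((1 + δ) * n ^ 2) * ENNReal.ofReal (((1 + ε / 2) / Real.pi) ^ 2)
          + ENNReal.ofReal (((2:ℝ) ^ b + 1) ^ 4) * (ENNReal.ofReal ((1 + δ⁻¹) * M ^ 2 * n ^ 2) *
            ENNReal.ofReal τ) := by
        gcongr
      _ = ENNReal.ofReal ((1 + δ) * n ^ 2 * q + Q * τ * n ^ 2) := by
        rw [← hq, ← ENNReal.ofReal_mul (by positivity), ← ENNReal.ofReal_mul (by positivity),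
          ← ENNReal.ofReal_mul (by positivity), ← ENNReal.ofReal_add (by positivity)
          (by positivity), hQ]
        congr 1
        ring
      _ ≤ ENNReal.ofReal (((1 + ε) * n / Real.pi) ^ 2) := by
        apply ENNReal.ofReal_le_ofReal
        have h4 : ((1 + ε) * n / Real.pi) ^ 2 = (q + s) * n ^ 2 := by
          rw [hs, hq]
          ring
        rw [h4]
        have h5 : (0:ℝ) ≤ (n:ℝ) ^ 2 := by positivity
        nlinarith

end Helper72.BA.P
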