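import Mathlib

set_option autoImplicit false

universe u

namespace Pool.Agent.Helper96.CP

/-- A `d`-CP structure on a monoid `M`: a bijection `toFun` from `M^d` to `M` together with
elements `elt i` such that `elt i * toFun m = m i`. -/
structure CPStructure (M : Type u) [Monoid M] (d : ℕ) where
  /-- the bijection from `M^d` to `M` -/
  toFun : (Fin d → M) → M
  /-- the distinguished elements -/
  elt : Fin d → M
  bijective : Function.Bijective toFun
  elt_mul : ∀ (i : Fin d) (m : Fin d → M), elt i * toFun m = m i

/-- The `1`-CP structure `(id, 1)`. -/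
def CPStructure.one (M : Type u) [Monoid M] : CPStructure M 1 where
  toFun m := m 0
  elt _ := 1
  bijective := ⟨fun a b h => funext fun i => by rw [Subsingleton.elim i 0]; exact h,
    fun a => ⟨fun _ => a, rfl⟩⟩
  elt_mul i m := by rw [Subsingleton.elim i 0, one_mul]

/-- Combination of an `s`-CP structure with a family of `d i`-CP structures. The index `k` of the
new structure corresponds, in lexicographic order, to a pair `(i, j)` with `i < s` and `j < d i`. -/
def CPStructure.combine {M : Type u} [Monoid M] {s : ℕ} (Ψ : CPStructure M s) {d : Fin s → ℕ}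
    (Φ : ∀ i, CPStructure M (d i)) : CPStructure M (∑ i, d i) where
  toFun m := Ψ.toFun fun i => (Φ i).toFun fun j => m (finSigmaFinEquiv ⟨i, j⟩)
  elt k := (Φ (finSigmaFinEquiv.symm k).1).elt (finSigmaFinEquiv.symm k).2 *
    Ψ.elt (finSigmaFinEquiv.symm k).1
  bijective := by
    constructor
    · intro a b h
      have h1 := Ψ.bijective.1 h
      funext k
      obtain ⟨⟨i, j⟩, rfl⟩ := finSigmaFinEquiv.surjective k
      exact congrFun ((Φ i).bijective.1 (congrFun h1 i)) j
    · intro y
      obtain ⟨a, rfl⟩ := Ψ.bijective.2 y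
      choose b hb using fun i => (Φ i).bijective.2 (a i)
      let F : (i : Fin s) × Fin (d i) → M := fun p => b p.1 p.2
      have hF : ∀ i, (fun j => F (finSigmaFinEquiv.symm (finSigmaFinEquiv ⟨i, j⟩))) = b i := by
        intro i
        funext j
        rw [Equiv.symm_apply_apply]
      refine ⟨fun k => F (finSigmaFinEquiv.symm k), ?_⟩
      refine congrArg _ (funext fun i => ?_)
      rw [hF, hb]
  elt_mul k m := by
    rw [mul_assoc, Ψ.elt_mul, (Φ _).elt_mul]
    simp

/-- `f` is a homomorphism of CP monoids from `(M, S)` to `(N, T)`. -/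
structure IsCPHom {M N : Type u} [Monoid M] [Monoid N] (S : CPStructure M 2)
    (T : CPStructure N 2) (f : M →* N) : Prop where
  map_elt : ∀ i, f (S.elt i) = T.elt i
  map_toFun : ∀ m : Fin 2 → M, f (S.toFun m) = T.toFun fun i => f (m i)

/-- `(U, S)` is an initial object of the category of CP monoids. -/
def IsUniversal {U : Type u} [Monoid U] (S : CPStructure U 2) : Prop :=
  ∀ (N : Type u) [Monoid N] (T : CPStructure N 2), ∃! f : U →* N, IsCPHom S T f

/-- The set `𝕊(U)` of CP structures obtained from the `2`-CP structure `S` and from `(id, 1)` by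
finitely many combinations. -/
inductive Generated {U : Type u} [Monoid U] (S : CPStructure U 2) :
    (d : ℕ) → CPStructure U d → Prop
  | base : Generated S 2 S
  | one : Generated S 1 (CPStructure.one U)
  | combine {s : ℕ} {Ψ : CPStructure U s} {d : Fin s → ℕ} {Φ : ∀ i, CPStructure U (d i)}
      (hΨ : Generated S s Ψ) (hΦ : ∀ i, Generated S (d i) (Φ i)) :
      Generated S (∑ i, d i) (Ψ.combine Φ)

/-- The element `Φ(τ_{σ⁻¹(1)}, …, τ_{σ⁻¹(d)})` attached to a `d`-CP structure and `σ ∈ S_d`. -/
def CPStructure.psi {M : Type u} [Monoid M] {d : ℕ} (Φ : CPStructure M d)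
    (σ : Equiv.Perm (Fin d)) : M :=
  Φ.toFun fun i => Φ.elt (σ⁻¹ i)

end Pool.Agent.Helper96.CP
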