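import Pool.Agent.Helper96.CPDefs

set_option autoImplicit false

universe u

namespace Pool.Agent.Helper96.CP

/-- Terms in the language of CP monoids. -/
inductive Tm : Type u
  | one : Tm
  | gen : Fin 2 → Tm
  | mul : Tm → Tm → Tm
  | sig : Tm → Tm → Tm

/-- The congruence defining the initial CP monoid. -/
inductive Eqv : Tm.{u} → Tm.{u} → Prop
  | refl (a) : Eqv a a
  | symm {a b} : Eqv a b → Eqv b a
  | trans {a b c} : Eqv a b → Eqv b c → Eqv a c
  | congr_mul {a a' b b'} : Eqv a a' → Eqv b b' → Eqv (.mul a b) (.mul a' b')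
  | congr_sig {a a' b b'} : Eqv a a' → Eqv b b' → Eqv (.sig a b) (.sig a' b')
  | assoc (a b c) : Eqv (.mul (.mul a b) c) (.mul a (.mul b c))
  | one_mul (a) : Eqv (.mul .one a) a
  | mul_one (a) : Eqv (.mul a .one) a
  | gen_zero (a b) : Eqv (.mul (.gen 0) (.sig a b)) a
  | gen_one (a b) : Eqv (.mul (.gen 1) (.sig a b)) b
  | eta (a) : Eqv (.sig (.mul (.gen 0) a) (.mul (.gen 1) a)) a

/-- The setoid. -/
def st : Setoid Tm.{u} := ⟨Eqv, ⟨Eqv.refl, Eqv.symm, Eqv.trans⟩⟩

/-- The initial CP monoid. -/
def Univ : Type u := Quotient st.{u}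

/-- Multiplication. -/
def Univ.mul : Univ.{u} → Univ.{u} → Univ.{u} :=
  Quotient.map₂ Tm.mul fun _ _ h _ _ h' => Eqv.congr_mul h h'

/-- The pairing. -/
def Univ.sig : Univ.{u} → Univ.{u} → Univ.{u} :=
  Quotient.map₂ Tm.sig fun _ _ h _ _ h' => Eqv.congr_sig h h'

instance : Monoid Univ.{u} where
  mul := Univ.mul
  one := Quotient.mk st Tm.one
  mul_assoc := by
    rintro ⟨a⟩ ⟨b⟩ ⟨c⟩
    exact Quotient.sound (Eqv.assoc a b c)
  one_mul := by
    rintro ⟨a⟩
    exact Quotient.sound (Eqv.one_mul a)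
  mul_one := by
    rintro ⟨a⟩
    exact Quotient.sound (Eqv.mul_one a)

/-- The distinguished elements. -/
def Univ.gen (i : Fin 2) : Univ.{u} := Quotient.mk st (Tm.gen i)

theorem Univ.gen_zero (a b : Univ.{u}) : Univ.gen 0 * Univ.sig a b = a := by
  revert a b
  rintro ⟨a⟩ ⟨b⟩
  exact Quotient.sound (Eqv.gen_zero a b)

theorem Univ.gen_one (a b : Univ.{u}) : Univ.gen 1 * Univ.sig a b = b := by
  revert a b
  rintro ⟨a⟩ ⟨b⟩
  exact Quotient.sound (Eqv.gen_one a b)

theorem Univ.eta (a : Univ.{u}) : Univ.sig (Univ.gen 0 * a) (Univ.gen 1 * a) = a := by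
  revert a
  rintro ⟨a⟩
  exact Quotient.sound (Eqv.eta a)

/-- The `2`-CP structure on the initial CP monoid. -/
def univStr : CPStructure Univ.{u} 2 where
  toFun m := Univ.sig (m 0) (m 1)
  elt := Univ.gen
  bijective := by
    constructor
    · intro a b h
      have h : Univ.sig (a 0) (a 1) = Univ.sig (b 0) (b 1) := h
      funext i
      refine Fin.cases ?_ (fun i => ?_) i
      · rw [← Univ.gen_zero (a 0) (a 1), h, Univ.gen_zero]
      · obtain rfl : i = 0 := Subsingleton.elim _ _
        show a 1 = b 1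
        rw [← Univ.gen_one (a 0) (a 1), h, Univ.gen_one]
    · intro y
      exact ⟨fun i => Univ.gen i * y, Univ.eta y⟩
  elt_mul i m := by
    refine Fin.cases ?_ (fun i => ?_) i
    · exact Univ.gen_zero _ _
    · obtain rfl : i = 0 := Subsingleton.elim _ _
      exact Univ.gen_one _ _

section eval

variable {N : Type u} [Monoid N] (T : CPStructure N 2)

/-- Evaluation of terms in a CP monoid. -/
def eval : Tm.{u} → N
  | .one => 1
  | .gen i => T.elt i
  | .mul a b => eval a * eval b
  | .sig a b => T.toFun ![eval a, eval b]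

theorem eval_eqv {a b : Tm.{u}} (h : Eqv a b) : eval T a = eval T b := by
  induction h with
  | refl => rfl
  | symm _ ih => exact ih.symm
  | trans _ _ ih ih' => exact ih.trans ih'
  | congr_mul _ _ ih ih' => simp only [eval, ih, ih']
  | congr_sig _ _ ih ih' => simp only [eval, ih, ih']
  | assoc a b c => exact mul_assoc _ _ _
  | one_mul a => exact one_mul _
  | mul_one a => exact mul_one _
  | gen_zero a b => exact T.elt_mul 0 _
  | gen_one a b => exact T.elt_mul 1 _
  | eta a =>
    show T.toFun ![T.elt 0 * eval T a, T.elt 1 * eval T a] = eval T a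
    obtain ⟨m, hm⟩ := T.bijective.2 (eval T a)
    rw [← hm, T.elt_mul, T.elt_mul]
    congr 1
    funext i
    fin_cases i <;> rfl

/-- The homomorphism from the initial CP monoid. -/
def evalHom : Univ.{u} →* N where
  toFun := Quotient.lift (eval T) fun _ _ h => eval_eqv T h
  map_one' := rfl
  map_mul' := by
    rintro ⟨a⟩ ⟨b⟩
    rfl

theorem isCPHom_evalHom : IsCPHom univStr T (evalHom T) := by
  refine ⟨fun i => rfl, fun m => ?_⟩
  obtain ⟨a, ha⟩ := Quotient.exists_rep (m 0)
  obtain ⟨b, hb⟩ := Quotient.exists_rep (m 1)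
  show evalHom T (Univ.sig (m 0) (m 1)) = T.toFun fun i => evalHom T (m i)
  have h1 : (fun i => evalHom T (m i)) = ![evalHom T (m 0), evalHom T (m 1)] := by
    funext i
    fin_cases i <;> rfl
  rw [h1, ← ha, ← hb]
  rfl

end eval

theorem isUniversal_univStr : IsUniversal univStr.{u} := by
  intro N _ T
  refine ⟨evalHom T, isCPHom_evalHom T, ?_⟩
  intro g hg
  let mk : Tm.{u} → Univ.{u} := Quotient.mk st
  have key : ∀ t : Tm.{u}, g (mk t) = eval T t := by
    intro t
    induction t with
    | one => exact map_one g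
    | gen i => exact hg.map_elt i
    | mul a b iha ihb =>
      show g (mk a * mk b) = _
      rw [map_mul, iha, ihb]
      rfl
    | sig a b iha ihb =>
      have h1 := hg.map_toFun (![mk a, mk b] : Fin 2 → Univ.{u})
      have h2 : (fun i => g ((![mk a, mk b] : Fin 2 → Univ.{u}) i)) = ![eval T a, eval T b] := by
        funext i
        refine Fin.cases ?_ (fun i => ?_) i
        · exact iha
        · obtain rfl : i = 0 := Subsingleton.elim _ _
          exact ihb
      rw [h2] at h1
      exact h1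
  apply MonoidHom.ext
  rintro ⟨t⟩
  exact key t

end Pool.Agent.Helper96.CP
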