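import Pool.Agent.Helper96.CPDefs

set_option autoImplicit false

universe u

namespace Pool.Agent.Helper96.CP

/-! ### Basic facts on CP structures -/

section basic

variable {U : Type u} [Monoid U] (S : CPStructure U 2)

theorem toFun_elt_mul {d : ℕ} (Φ : CPStructure U d) (x : U) :
    Φ.toFun (fun i => Φ.elt i * x) = x := by
  obtain ⟨m, rfl⟩ := Φ.bijective.2 x
  congr 1
  funext i
  rw [Φ.elt_mul]

theorem toFun_mul {d : ℕ} (Φ : CPStructure U d) (m : Fin d → U) (x : U) :
    Φ.toFun m * x = Φ.toFun (fun i => m i * x) := by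
  conv_lhs => rw [← toFun_elt_mul Φ (Φ.toFun m * x)]
  congr 1
  funext i
  rw [← mul_assoc, Φ.elt_mul]

/-- Finite binary trees. -/
inductive Tree : Type
  | leaf : Tree
  | node : Tree → Tree → Tree

/-- The leaves of a tree. -/
@[reducible]
def Leaf : Tree → Type
  | .leaf => Unit
  | .node l r => Leaf l ⊕ Leaf r

instance leafFintype : (T : Tree) → Fintype (Leaf T)
  | .leaf => inferInstanceAs (Fintype Unit)
  | .node l r =>
    haveI := leafFintype l
    haveI := leafFintype r
    inferInstanceAs (Fintype (Leaf l ⊕ Leaf r))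

instance leafDec : (T : Tree) → DecidableEq (Leaf T)
  | .leaf => inferInstanceAs (DecidableEq Unit)
  | .node l r =>
    haveI := leafDec l
    haveI := leafDec r
    inferInstanceAs (DecidableEq (Leaf l ⊕ Leaf r))

/-- Number of leaves. -/
def size : Tree → ℕ
  | .leaf => 1
  | .node l r => size l + size r

theorem size_pos : (T : Tree) → 0 < size T
  | .leaf => Nat.one_pos
  | .node l _ => Nat.add_pos_left (size_pos l) _

/-- The bijection attached to a tree. -/
def val : (T : Tree) → (Leaf T → U) → U
  | .leaf, m => m ()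
  | .node l r, m => S.toFun ![val l (fun i => m (Sum.inl i)), val r (fun i => m (Sum.inr i))]

/-- The distinguished elements attached to a tree. -/
def elt : (T : Tree) → Leaf T → U
  | .leaf, _ => 1
  | .node l _, Sum.inl i => elt l i * S.elt 0
  | .node _ r, Sum.inr i => elt r i * S.elt 1

theorem elt_mul_val : (T : Tree) → (m : Leaf T → U) → (i : Leaf T) →
    elt S T i * val S T m = m i
  | .leaf, m, () => one_mul _
  | .node l r, m, Sum.inl i => by
    show elt S l i * S.elt 0 * S.toFun _ = _
    rw [mul_assoc, S.elt_mul]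
    exact elt_mul_val l _ i
  | .node l r, m, Sum.inr i => by
    show elt S r i * S.elt 1 * S.toFun _ = _
    rw [mul_assoc, S.elt_mul]
    exact elt_mul_val r _ i

theorem val_elt_mul : (T : Tree) → (x : U) → val S T (fun i => elt S T i * x) = x
  | .leaf, x => one_mul _
  | .node l r, x => by
    show S.toFun ![val S l (fun i => elt S l i * S.elt 0 * x),
      val S r (fun i => elt S r i * S.elt 1 * x)] = x
    simp only [mul_assoc]
    rw [val_elt_mul l, val_elt_mul r]
    conv_rhs => rw [← toFun_elt_mul S x]
    congr 1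
    funext i
    fin_cases i <;> rfl

theorem val_mul (T : Tree) (m : Leaf T → U) (x : U) :
    val S T m * x = val S T (fun i => m i * x) := by
  conv_lhs => rw [← val_elt_mul S T (val S T m * x)]
  congr 1
  funext i
  rw [← mul_assoc, elt_mul_val]

/-- The permutation element attached to a tree and a permutation of its leaves. -/
def perm (T : Tree) (σ : Equiv.Perm (Leaf T)) : U := val S T (fun i => elt S T (σ⁻¹ i))

theorem perm_mul_val (T : Tree) (σ : Equiv.Perm (Leaf T)) (m : Leaf T → U) :
    perm S T σ * val S T m = val S T (fun i => m (σ⁻¹ i)) := by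
  unfold perm
  rw [val_mul]
  congr 1
  funext i
  rw [elt_mul_val]

theorem perm_one (T : Tree) : perm S T 1 = 1 := by
  have := val_elt_mul S T 1
  simpa [perm] using this

theorem perm_mul (T : Tree) (σ τ : Equiv.Perm (Leaf T)) :
    perm S T σ * perm S T τ = perm S T (σ * τ) := by
  conv_lhs => rw [perm.eq_1 S T τ]
  rw [perm_mul_val]
  simp [perm]

/-- Permutation elements as units. -/
def permUnit (T : Tree) (σ : Equiv.Perm (Leaf T)) : Uˣ where
  val := perm S T σ
  inv := perm S T σ⁻¹
  val_inv := by rw [perm_mul, mul_inv_cancel, perm_one]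
  inv_val := by rw [perm_mul, inv_mul_cancel, perm_one]

theorem node_step (l r : Tree) (d : Fin 2 → ℕ) (F : ∀ i, CPStructure U (d i))
    (e : Leaf l ≃ Fin (d 0)) (e' : Leaf r ≃ Fin (d 1))
    (hF : ∀ i, Generated S (d i) (F i))
    (hv : ∀ m : Leaf l → U, val S l m = (F 0).toFun (fun k => m (e.symm k)))
    (hv' : ∀ m : Leaf r → U, val S r m = (F 1).toFun (fun k => m (e'.symm k)))
    (he : ∀ i, elt S l i = (F 0).elt (e i)) (he' : ∀ i, elt S r i = (F 1).elt (e' i)) :
    ∃ E : Leaf (.node l r) ≃ Fin (∑ i, d i),
      Generated S (∑ i, d i) (S.combine F) ∧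
      (∀ m : Leaf (.node l r) → U,
        val S (.node l r) m = (S.combine F).toFun (fun k => m (E.symm k))) ∧
      ∀ i, elt S (.node l r) i = (S.combine F).elt (E i) := by
  let g : Leaf (.node l r) → (i : Fin 2) × Fin (d i) := fun x => match x with
    | Sum.inl i => ⟨0, e i⟩
    | Sum.inr i => ⟨1, e' i⟩
  have g0 : ∀ i, g (Sum.inl i) = ⟨0, e i⟩ := fun i => rfl
  have g1 : ∀ i, g (Sum.inr i) = ⟨1, e' i⟩ := fun i => rfl
  have hinj : Function.Injective g := by
    rintro (x | x) (y | y) h
    · rw [g0, g0] at h
      have h2 : e x = e y := by simpa using h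
      exact congrArg _ (e.injective h2)
    · rw [g0, g1] at h
      have := congrArg Sigma.fst h
      simp at this
    · rw [g1, g0] at h
      have := congrArg Sigma.fst h
      simp at this
    · rw [g1, g1] at h
      have h2 : e' x = e' y := by simpa using h
      exact congrArg _ (e'.injective h2)
  have hsurj : Function.Surjective g := by
    rintro ⟨i, j⟩
    revert j
    refine Fin.cases ?_ (fun i => ?_) i
    · intro j
      refine ⟨Sum.inl (e.symm j), ?_⟩
      rw [g0, Equiv.apply_symm_apply]
    · obtain rfl : i = 0 := Subsingleton.elim _ _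
      intro j
      refine ⟨Sum.inr (e'.symm j), ?_⟩
      rw [g1, Equiv.apply_symm_apply]
      rfl
  let G : Leaf (.node l r) ≃ (i : Fin 2) × Fin (d i) := Equiv.ofBijective g ⟨hinj, hsurj⟩
  have G0 : ∀ j, G.symm ⟨0, j⟩ = Sum.inl (e.symm j) := by
    intro j
    rw [Equiv.symm_apply_eq]
    show _ = g (Sum.inl (e.symm j))
    rw [g0, Equiv.apply_symm_apply]
  have G1 : ∀ j, G.symm ⟨1, j⟩ = Sum.inr (e'.symm j) := by
    intro j
    rw [Equiv.symm_apply_eq]
    show _ = g (Sum.inr (e'.symm j))
    rw [g1, Equiv.apply_symm_apply]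
  refine ⟨G.trans finSigmaFinEquiv, Generated.combine Generated.base hF, ?_, ?_⟩
  · intro m
    show S.toFun _ = S.toFun _
    congr 1
    funext i
    refine Fin.cases ?_ (fun i => ?_) i
    · show val S l _ = (F 0).toFun _
      rw [hv]
      congr 1
      funext j
      simp only [Equiv.symm_trans_apply, Equiv.symm_apply_apply]
      rw [G0]
    · obtain rfl : i = 0 := Subsingleton.elim _ _
      show val S r _ = (F 1).toFun _
      rw [hv']
      congr 1
      funext j
      show m (Sum.inr (e'.symm j)) = m (G.symm (finSigmaFinEquiv.symm (finSigmaFinEquiv ⟨1, j⟩)))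
      rw [Equiv.symm_apply_apply, G1]
  · intro i
    have key : ∀ x : Leaf (.node l r), (S.combine F).elt ((G.trans finSigmaFinEquiv) x) =
        (F (g x).1).elt (g x).2 * S.elt (g x).1 := by
      intro x
      show (F (finSigmaFinEquiv.symm (finSigmaFinEquiv (g x))).1).elt
        (finSigmaFinEquiv.symm (finSigmaFinEquiv (g x))).2 *
          S.elt (finSigmaFinEquiv.symm (finSigmaFinEquiv (g x))).1 = _
      rw [Equiv.symm_apply_apply]
    rw [key]
    rcases i with i | i
    · show elt S l i * S.elt 0 = _
      rw [he]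
    · show elt S r i * S.elt 1 = _
      rw [he']

/-- Each tree gives a generated CP structure. -/
theorem exists_generated : (T : Tree) → ∃ (d : ℕ) (e : Leaf T ≃ Fin d) (Φ : CPStructure U d),
    Generated S d Φ ∧ d = size T ∧ (∀ m : Leaf T → U, val S T m = Φ.toFun (fun k => m (e.symm k))) ∧
      ∀ i, elt S T i = Φ.elt (e i)
  | .leaf => by
    refine ⟨1, Equiv.ofUnique Unit (Fin 1), CPStructure.one U, Generated.one, rfl,
      fun m => rfl, fun i => rfl⟩
  | .node l r => by
    obtain ⟨a, e, Φ, hΦ, ha, hv, he⟩ := exists_generated l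
    obtain ⟨b, e', Φ', hΦ', hb, hv', he'⟩ := exists_generated r
    let d : Fin 2 → ℕ := ![a, b]
    let F : ∀ i, CPStructure U (d i) := Fin.cons Φ (Fin.cons Φ' (fun i => i.elim0))
    have hF : ∀ i, Generated S (d i) (F i) := by
      intro i
      refine Fin.cases ?_ (fun i => ?_) i
      · exact hΦ
      · obtain rfl : i = 0 := Subsingleton.elim _ _
        exact hΦ'
    obtain ⟨E, h1, h2, h3⟩ := node_step S l r d F e e' hF hv hv' he he'
    refine ⟨_, E, _, h1, ?_, h2, h3⟩
    rw [Fin.sum_univ_two]
    show a + b = size l + size r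
    rw [ha, hb]

theorem card_leaf : (T : Tree) → Fintype.card (Leaf T) = size T
  | .leaf => rfl
  | .node l r => by
    have := card_leaf l
    have := card_leaf r
    show Fintype.card (Leaf l ⊕ Leaf r) = size l + size r
    rw [Fintype.card_sum]
    congr 1

/-- The group generated by the symmetric groups attached to generated CP structures. -/
def genSet : Set Uˣ :=
  {u | ∃ (d : ℕ) (Φ : CPStructure U d) (σ : Equiv.Perm (Fin d)),
    2 ≤ d ∧ Generated S d Φ ∧ (u : U) = Φ.psi σ}

theorem permUnit_mem (T : Tree) (hT : 2 ≤ size T) (σ : Equiv.Perm (Leaf T)) :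
    permUnit S T σ ∈ genSet S := by
  obtain ⟨d, e, Φ, hΦ, hd, hv, he⟩ := exists_generated S T
  refine ⟨d, Φ, (e.symm.trans σ).trans e, hd ▸ hT, hΦ, ?_⟩
  show val S T (fun i => elt S T (σ⁻¹ i)) = _
  rw [hv]
  unfold CPStructure.psi
  congr 1
  funext k
  rw [he]
  congr 1

/-- Products of the two distinguished elements. -/
def wrd : List (Fin 2) → U
  | [] => 1
  | b :: l => S.elt b * wrd l

/-- Contraction of an exposed caret. -/
theorem contract : (T : Tree) → 2 ≤ size T → ∃ T₀ : Tree, size T₀ + 1 = size T ∧
    ∃ a b : Leaf T, a ≠ b ∧ ∀ (w : Leaf T → List (Fin 2)) (v : List (Fin 2)),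
      w a = 0 :: v → w b = 1 :: v → ∃ w₀ : Leaf T₀ → List (Fin 2),
        val S T (fun i => wrd S (w i)) = val S T₀ (fun i => wrd S (w₀ i))
  | .leaf, h => absurd h (by simp [size])
  | .node .leaf .leaf, _ => by
    refine ⟨.leaf, rfl, Sum.inl (), Sum.inr (), by simp, ?_⟩
    intro w v hw hw'
    refine ⟨fun _ => v, ?_⟩
    show S.toFun ![wrd S (w (Sum.inl ())), wrd S (w (Sum.inr ()))] = wrd S v
    rw [hw, hw']
    conv_rhs => rw [← toFun_elt_mul S (wrd S v)]
    congr 1
    funext i
    fin_cases i <;> rfl
  | .node (.node l₁ l₂) r, _ => by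
    obtain ⟨T₀, h0, a, b, hab, H⟩ := contract (.node l₁ l₂)
      (Nat.add_le_add (size_pos l₁) (size_pos l₂))
    refine ⟨.node T₀ r, ?_, Sum.inl a, Sum.inl b, fun h => hab (Sum.inl.inj h), ?_⟩
    · show size T₀ + size r + 1 = size (.node l₁ l₂) + size r
      omega
    · intro w v hw hw'
      obtain ⟨w₀, hw₀⟩ := H (fun i => w (Sum.inl i)) v hw hw'
      refine ⟨fun i => Sum.casesOn i w₀ (fun j => w (Sum.inr j)), ?_⟩
      show S.toFun ![val S (.node l₁ l₂) (fun i => wrd S (w (Sum.inl i))), _] =
        S.toFun ![val S T₀ (fun i => wrd S (w₀ i)), _]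
      rw [hw₀]
  | .node .leaf (.node r₁ r₂), _ => by
    obtain ⟨T₀, h0, a, b, hab, H⟩ := contract (.node r₁ r₂)
      (Nat.add_le_add (size_pos r₁) (size_pos r₂))
    refine ⟨.node .leaf T₀, ?_, Sum.inr a, Sum.inr b, fun h => hab (Sum.inr.inj h), ?_⟩
    · show size .leaf + size T₀ + 1 = size .leaf + size (.node r₁ r₂)
      omega
    · intro w v hw hw'
      obtain ⟨w₀, hw₀⟩ := H (fun i => w (Sum.inr i)) v hw hw'
      refine ⟨fun i => Sum.casesOn i (fun j => w (Sum.inl j)) w₀, ?_⟩
      show S.toFun ![_, val S (.node r₁ r₂) (fun i => wrd S (w (Sum.inr i)))] =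
        S.toFun ![_, val S T₀ (fun i => wrd S (w₀ i))]
      rw [hw₀]

/-- Elements that are finite combinations of words. -/
inductive Rep : U → Prop
  | ofWord (l : List (Fin 2)) : Rep (wrd S l)
  | sig (m : Fin 2 → U) : (∀ i, Rep (m i)) → Rep (S.toFun m)

theorem Rep.elt_mul {x : U} (hx : Rep S x) (b : Fin 2) : Rep S (S.elt b * x) := by
  cases hx with
  | ofWord l => exact Rep.ofWord (b :: l)
  | sig m hm => rw [S.elt_mul]; exact hm b

theorem Rep.mul {x y : U} (hx : Rep S x) (hy : Rep S y) : Rep S (x * y) := by
  induction hx with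
  | ofWord l =>
    induction l with
    | nil => rw [wrd, one_mul]; exact hy
    | cons b l ih => rw [wrd, mul_assoc]; exact ih.elt_mul S b
  | sig m _ ih => rw [toFun_mul]; exact Rep.sig _ ih

theorem Rep.one : Rep S (1 : U) := Rep.ofWord []

/-- The submonoid of combinations of words. -/
def repSub : Submonoid U where
  carrier := {x | Rep S x}
  one_mem' := Rep.one S
  mul_mem' := fun hx hy => Rep.mul S hx hy

/-- The CP structure on this submonoid. -/
def repStr : CPStructure (repSub S) 2 where
  toFun m := ⟨S.toFun fun i => (m i : U), Rep.sig _ fun i => (m i).2⟩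
  elt i := ⟨S.elt i, by
    have := Rep.ofWord (S := S) [i]
    rwa [wrd, wrd, mul_one] at this⟩
  bijective := by
    constructor
    · intro a b h
      have h1 := S.bijective.1 (congrArg Subtype.val h)
      funext i
      exact Subtype.ext (congrFun h1 i)
    · rintro ⟨x, hx⟩
      refine ⟨fun i => ⟨S.elt i * x, Rep.elt_mul S hx i⟩, ?_⟩
      exact Subtype.ext (toFun_elt_mul S x)
  elt_mul i m := Subtype.ext (S.elt_mul i _)

theorem rep_all (hS : IsUniversal S) (x : U) : Rep S x := by
  obtain ⟨f, hf, -⟩ := hS (repSub S) (repStr S)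
  obtain ⟨g, hg, hg'⟩ := hS U S
  have h1 : (repSub S).subtype.comp f = g := by
    apply hg'
    refine ⟨fun i => ?_, fun m => ?_⟩
    · simp only [MonoidHom.coe_comp, Function.comp_apply]
      rw [hf.map_elt]
      rfl
    · simp only [MonoidHom.coe_comp, Function.comp_apply]
      rw [hf.map_toFun]
      rfl
  have h2 : MonoidHom.id U = g := by
    apply hg'
    exact ⟨fun i => rfl, fun m => rfl⟩
  have h3 : ((f x : repSub S) : U) = x := by
    have := DFunLike.congr_fun (h1.trans h2.symm) x
    exact this
  rw [← h3]
  exact (f x).2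

theorem Rep.exists_tree {x : U} (hx : Rep S x) :
    ∃ (T : Tree) (w : Leaf T → List (Fin 2)), x = val S T (fun i => wrd S (w i)) := by
  induction hx with
  | ofWord l => exact ⟨.leaf, fun _ => l, rfl⟩
  | sig m _ ih =>
    choose T w h using ih
    refine ⟨.node (T 0) (T 1), fun i => Sum.casesOn i (w 0) (w 1), ?_⟩
    show S.toFun m = S.toFun ![val S (T 0) (fun i => wrd S (w 0 i)),
      val S (T 1) (fun i => wrd S (w 1 i))]
    rw [← h 0, ← h 1]
    congr 1
    funext i
    fin_cases i <;> rfl

end basic

/-! ### The action on infinite sequences -/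

/-- Infinite sequences of letters `0`, `1`. -/
abbrev X : Type u := ℕ → ULift.{u} (Fin 2)

/-- Add a letter in front. -/
def cons (b : Fin 2) (x : X.{u}) : X.{u}
  | 0 => ULift.up b
  | n + 1 => x n

/-- Remove the first letter. -/
def tl (x : X.{u}) : X.{u} := fun n => x (n + 1)

theorem cons_tl (x : X.{u}) : cons (x 0).down (tl x) = x := by
  funext n
  cases n <;> rfl

theorem cons_inj {b b' : Fin 2} {x x' : X.{u}} (h : cons b x = cons b' x') : b = b' ∧ x = x' := by
  refine ⟨?_, ?_⟩
  · have := congrFun h 0
    exact ULift.up.inj this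
  · funext n
    exact congrFun h (n + 1)

/-- Add a word in front. -/
def app : List (Fin 2) → X.{u} → X.{u}
  | [], x => x
  | b :: l, x => cons b (app l x)

theorem app_append (l l' : List (Fin 2)) (x : X.{u}) : app (l ++ l') x = app l (app l' x) := by
  induction l with
  | nil => rfl
  | cons b l ih => simp [app, ih]

theorem app_inj (l : List (Fin 2)) {x y : X.{u}} (h : app l x = app l y) : x = y := by
  induction l with
  | nil => exact h
  | cons b l ih => exact ih (cons_inj h).2

/-- Two words adding to the same sequence are comparable. -/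
theorem app_comparable (p q : List (Fin 2)) (x y : X.{u}) (h : app p x = app q y)
    (hl : q.length ≤ p.length) : ∃ r, p = q ++ r := by
  induction q generalizing p with
  | nil => exact ⟨p, rfl⟩
  | cons b q ih =>
    cases p with
    | nil => simp at hl
    | cons a p =>
      obtain ⟨h1, h2⟩ := cons_inj h
      obtain ⟨r, hr⟩ := ih p h2 (by simpa using hl)
      exact ⟨r, by rw [hr, h1]; rfl⟩

/-- The CP structure on the (opposite) monoid of self-maps of the space of sequences. -/
def seqStr : CPStructure (Function.End X.{u})ᵐᵒᵖ 2 where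
  toFun m := MulOpposite.op fun x => (m (x 0).down).unop (tl x)
  elt b := MulOpposite.op (cons b)
  bijective := by
    constructor
    · intro a b h
      have h1 := MulOpposite.op_injective h
      funext i
      apply MulOpposite.unop_injective
      funext x
      exact congrFun h1 (cons i x)
    · intro y
      refine ⟨fun b => MulOpposite.op fun x => y.unop (cons b x), ?_⟩
      apply MulOpposite.unop_injective
      funext x
      show y.unop (cons (x 0).down (tl x)) = y.unop x
      rw [cons_tl]
  elt_mul i m := rfl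

/-- The combinatorial core: among finitely many words whose cones partition the space there are two
siblings. -/
theorem exists_siblings {ι : Type} [Finite ι] [Nontrivial ι] (p : ι → List (Fin 2))
    (cover : ∀ z : X.{u}, ∃ i y, z = app (p i) y)
    (disj : ∀ i j (y y' : X.{u}), app (p i) y = app (p j) y' → i = j) :
    ∃ i j v, i ≠ j ∧ p i = v ++ [0] ∧ p j = v ++ [1] := by
  obtain ⟨i, hi⟩ := Finite.exists_max fun i => (p i).length
  let x₀ : X.{u} := fun _ => ULift.up 0
  rcases List.eq_nil_or_concat (p i) with h | ⟨v, b, h⟩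
  · exfalso
    obtain ⟨a, b, hab⟩ := exists_pair_ne ι
    have h1 : ∀ j, p j = [] := by
      intro j
      have := hi j
      rw [h] at this
      exact List.eq_nil_of_length_eq_zero (by simpa using this)
    exact hab (disj a b x₀ x₀ (by rw [h1, h1]))
  · -- the sibling of `p i`
    have key : ∀ c, c ≠ b → ∃ j, j ≠ i ∧ p j = v ++ [c] := by
      intro c hc
      obtain ⟨j, y, hj⟩ := cover (app (v ++ [c]) x₀)
      have hji : j ≠ i := by
        rintro rfl
        rw [h, List.concat_eq_append, app_append, app_append] at hj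
        exact hc (cons_inj (app_inj v hj)).1
      refine ⟨j, hji, ?_⟩
      have hlen : (p j).length ≤ v.length + 1 := by
        have := hi j
        rw [h] at this
        simpa using this
      obtain ⟨r, hr⟩ := app_comparable _ _ _ _ hj (by simpa using hlen)
      rcases List.eq_nil_or_concat r with hr' | ⟨r', c', hr'⟩
      · rw [hr', List.append_nil] at hr
        exact hr.symm
      · exfalso
        rw [hr', List.concat_eq_append, ← List.append_assoc] at hr
        have h2 := List.append_inj_left' hr rfl
        apply hji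
        apply disj j i (app r' (app [b] x₀)) x₀
        rw [h, List.concat_eq_append, app_append v, ← app_append (p j), ← h2]
    have hb : ∀ b : Fin 2, b = 0 ∨ b = 1 := by decide
    rw [List.concat_eq_append] at h
    rcases hb b with rfl | rfl
    · obtain ⟨j, hji, hj⟩ := key 1 (by decide)
      exact ⟨i, j, v, hji.symm, h, hj⟩
    · obtain ⟨j, hji, hj⟩ := key 0 (by decide)
      exact ⟨j, i, v, hji, hj, h⟩

section action

variable {U : Type u} [Monoid U] {S : CPStructure U 2}

/-- The action of an element of `U` on sequences, through a CP homomorphism. -/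
def act (f : U →* (Function.End X.{u})ᵐᵒᵖ) (x : U) : X.{u} → X.{u} := (f x).unop

variable {f : U →* (Function.End X.{u})ᵐᵒᵖ} (hf : IsCPHom S seqStr f)

theorem act_mul (x y : U) (z : X.{u}) : act f (x * y) z = act f y (act f x z) := by
  unfold act
  rw [map_mul]
  rfl

theorem act_one (z : X.{u}) : act f (1 : U) z = z := by
  unfold act
  rw [map_one]
  rfl

include hf in
theorem act_elt (b : Fin 2) (z : X.{u}) : act f (S.elt b) z = cons b z := by
  unfold act
  rw [hf.map_elt]
  rfl

include hf in
theorem act_sig (m : Fin 2 → U) (b : Fin 2) (z : X.{u}) :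
    act f (S.toFun m) (cons b z) = act f (m b) z := by
  unfold act
  rw [hf.map_toFun]
  rfl

include hf in
theorem act_wrd (l : List (Fin 2)) (z : X.{u}) : act f (wrd S l) z = app l.reverse z := by
  induction l generalizing z with
  | nil => exact act_one z
  | cons b l ih =>
    rw [wrd, act_mul, act_elt hf, ih, List.reverse_cons, app_append]
    rfl

/-- The address of a leaf. -/
def path : (T : Tree) → Leaf T → List (Fin 2)
  | .leaf, _ => []
  | .node l _, Sum.inl i => 0 :: path l i
  | .node _ r, Sum.inr i => 1 :: path r i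

include hf in
theorem act_val : (T : Tree) → (m : Leaf T → U) → (i : Leaf T) → (z : X.{u}) →
    act f (val S T m) (app (path T i) z) = act f (m i) z
  | .leaf, m, (), z => rfl
  | .node l r, m, Sum.inl i, z => by
    show act f (S.toFun _) (cons 0 (app (path l i) z)) = _
    rw [act_sig hf]
    exact act_val l _ i z
  | .node l r, m, Sum.inr i, z => by
    show act f (S.toFun _) (cons 1 (app (path r i) z)) = _
    rw [act_sig hf]
    exact act_val r _ i z

theorem path_cover : (T : Tree) → (z : X.{u}) → ∃ i y, z = app (path T i) y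
  | .leaf, z => ⟨(), z, rfl⟩
  | .node l r, z => by
    have h0 := cons_tl z
    have hb : ∀ b : Fin 2, b = 0 ∨ b = 1 := by decide
    rcases hb (z 0).down with h | h
    · obtain ⟨i, y, hy⟩ := path_cover l (tl z)
      refine ⟨Sum.inl i, y, ?_⟩
      rw [← h0, h, hy]
      rfl
    · obtain ⟨i, y, hy⟩ := path_cover r (tl z)
      refine ⟨Sum.inr i, y, ?_⟩
      rw [← h0, h, hy]
      rfl

theorem path_disj : (T : Tree) → (i j : Leaf T) → (y y' : X.{u}) →
    app (path T i) y = app (path T j) y' → i = j
  | .leaf, (), (), _, _, _ => rfl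
  | .node l r, Sum.inl i, Sum.inl j, y, y', h =>
    congrArg _ (path_disj l i j y y' (cons_inj h).2)
  | .node l r, Sum.inr i, Sum.inr j, y, y', h =>
    congrArg _ (path_disj r i j y y' (cons_inj h).2)
  | .node l r, Sum.inl i, Sum.inr j, y, y', h =>
    absurd (cons_inj h).1 (by decide)
  | .node l r, Sum.inr i, Sum.inl j, y, y', h =>
    absurd (cons_inj h).1 (by decide)

include hf in
theorem unit_cover (T : Tree) (w : Leaf T → List (Fin 2)) (u : Uˣ)
    (hu : (u : U) = val S T (fun i => wrd S (w i))) (z : X.{u}) :
    ∃ i y, z = app (w i).reverse y := by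
  obtain ⟨i, y, hy⟩ := path_cover T (act f ((u⁻¹ : Uˣ) : U) z)
  refine ⟨i, y, ?_⟩
  rw [← act_wrd hf, ← act_val hf T (fun i => wrd S (w i)) i y, ← hy, ← hu, ← act_mul,
    Units.inv_mul, act_one]

include hf in
theorem unit_disj (T : Tree) (w : Leaf T → List (Fin 2)) (u : Uˣ)
    (hu : (u : U) = val S T (fun i => wrd S (w i))) (i j : Leaf T) (y y' : X.{u})
    (h : app (w i).reverse y = app (w j).reverse y') : i = j := by
  rw [← act_wrd hf, ← act_wrd hf, ← act_val hf T (fun i => wrd S (w i)) i y,
    ← act_val hf T (fun i => wrd S (w i)) j y', ← hu] at h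
  have h1 := congrArg (act f ((u⁻¹ : Uˣ) : U)) h
  rw [← act_mul, ← act_mul, Units.mul_inv, act_one, act_one] at h1
  exact path_disj T i j y y' h1

include hf in
theorem mem_closure (n : ℕ) : ∀ (T : Tree) (w : Leaf T → List (Fin 2)) (u : Uˣ),
    size T ≤ n → (u : U) = val S T (fun i => wrd S (w i)) →
      u ∈ Subgroup.closure (genSet S) := by
  induction n with
  | zero =>
    intro T w u h
    exact absurd (size_pos T) (by omega)
  | succ n ih =>
    intro T w u hn hu
    by_cases h2 : 2 ≤ size T
    · have : Nontrivial (Leaf T) := by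
        obtain ⟨T₀, -, a, b, hab, -⟩ := contract S T h2
        exact ⟨a, b, hab⟩
      obtain ⟨i, j, v, hij, hi, hj⟩ := exists_siblings (fun i => (w i).reverse)
        (unit_cover hf T w u hu) (unit_disj hf T w u hu)
      have hi' : w i = 0 :: v.reverse := by
        have := congrArg List.reverse hi
        simpa using this
      have hj' : w j = 1 :: v.reverse := by
        have := congrArg List.reverse hj
        simpa using this
      obtain ⟨T₀, h0, a, b, hab, H⟩ := contract S T h2
      obtain ⟨σ, hσa, hσb⟩ : ∃ σ : Equiv.Perm (Leaf T), σ i = a ∧ σ j = b := by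
        refine ⟨(Equiv.swap i a).trans (Equiv.swap (Equiv.swap i a j) b), ?_, ?_⟩
        · rw [Equiv.trans_apply, Equiv.swap_apply_left]
          apply Equiv.swap_apply_of_ne_of_ne
          · intro h
            have := (Equiv.swap i a).injective ((Equiv.swap_apply_left i a).trans h)
            exact hij this
          · exact hab
        · rw [Equiv.trans_apply, Equiv.swap_apply_left]
      obtain ⟨w₀, hw₀⟩ := H (fun k => w (σ⁻¹ k)) v.reverse (by rw [← hσa]; simpa using hi')
        (by rw [← hσb]; simpa using hj')
      have hmem : permUnit S T σ ∈ Subgroup.closure (genSet S) :=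
        Subgroup.subset_closure (permUnit_mem S T h2 σ)
      have h3 : ((permUnit S T σ * u : Uˣ) : U) = val S T₀ (fun i => wrd S (w₀ i)) := by
        rw [← hw₀, Units.val_mul, hu]
        exact perm_mul_val S T σ _
      have h4 := ih T₀ w₀ _ (by omega) h3
      exact (Subgroup.mul_mem_cancel_left _ hmem).mp h4
    · -- a single leaf
      have h1 : u = 1 := by
        cases T with
        | node l r =>
          exfalso
          have := size_pos l
          have := size_pos r
          apply h2
          show 2 ≤ size l + size r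
          omega
        | leaf =>
          have hb : ∀ b : Fin 2, ∃ c, c ≠ b := by decide
          have h3 : w () = [] := by
            rcases h : (w ()).reverse with _ | ⟨b, p⟩
            · simpa using h
            · exfalso
              obtain ⟨c, hc⟩ := hb b
              obtain ⟨i, y, hy⟩ := unit_cover hf .leaf w u hu (cons c fun _ => ULift.up 0)
              rw [h] at hy
              exact hc (cons_inj hy).1
          apply Units.ext
          rw [hu]
          show wrd S (w ()) = _
          rw [h3]
          rfl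
      rw [h1]
      exact Subgroup.one_mem _

end action

theorem closure_eq_top {U : Type u} [Monoid U] (S : CPStructure U 2) (hS : IsUniversal S) :
    Subgroup.closure (genSet S) = ⊤ := by
  rw [eq_top_iff]
  intro u _
  obtain ⟨f, hf, -⟩ := hS _ seqStr
  obtain ⟨T, w, h⟩ := (rep_all S hS (u : U)).exists_tree
  exact mem_closure hf (size T) T w u le_rfl h

end Pool.Agent.Helper96.CP
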