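import Mathlib

set_option autoImplicit false

namespace Pool.Agent.Helper96.PA

theorem jac_int : IsJacobsonRing ℤ := by
  rw [isJacobsonRing_iff_prime_eq]
  intro P hP
  by_cases h : P = ⊥
  · subst h
    refine le_antisymm ?_ Ideal.le_jacobson
    intro n hn
    rw [Ideal.mem_jacobson_bot] at hn
    rw [Ideal.mem_bot]
    have h1 := hn n
    rw [Int.isUnit_iff] at h1
    rcases h1 with h1 | h1 <;> nlinarith
  · have hm : P.IsMaximal := hP.isMaximal h
    exact Ideal.jacobson_eq_self_of_isMaximal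

theorem finite_field (F : Type*) [Field F] [Module.Finite ℤ F] : Finite F := by
  obtain ⟨p, hp⟩ := CharP.exists F
  rcases Nat.eq_zero_or_pos p with rfl | hpos
  · exfalso
    haveI : CharZero F := CharP.charP_to_charZero F
    have hint : Algebra.IsIntegral ℤ F := inferInstance
    exact Int.not_isField (isField_of_isIntegral_of_isField
      (by simpa using Int.cast_injective (α := F)) (Field.toIsField F))
  · apply Module.finite_of_fg_torsion
    intro x
    refine ⟨⟨(p : ℤ), ?_⟩, ?_⟩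
    · exact mem_nonZeroDivisors_of_ne_zero (by exact_mod_cast hpos.ne')
    · show (p : ℤ) • x = 0
      rw [zsmul_eq_mul]
      simp

/-- residual finiteness of quotients of finitely generated commutative rings -/
theorem rf_ideal {R : Type*} [CommRing R] [Algebra.FiniteType ℤ R] (J : Ideal R) (r : R)
    (hr : r ∉ J) : ∃ a : Ideal R, J ≤ a ∧ Finite (R ⧸ a) ∧ r ∉ a := by
  have : IsNoetherianRing R := Algebra.FiniteType.isNoetherianRing ℤ R
  -- the colon ideal
  set J1 : Ideal R := Submodule.comap (LinearMap.mulRight R r) J with hJ1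
  have hJ1mem : ∀ s, s ∈ J1 ↔ s * r ∈ J := fun s => by
    rw [hJ1]; exact Iff.rfl
  have hne : J1 ≠ ⊤ := by
    intro h
    apply hr
    have : (1 : R) ∈ J1 := by rw [h]; trivial
    rw [hJ1mem, one_mul] at this
    exact this
  obtain ⟨m, hm, hJm⟩ := J1.exists_le_maximal hne
  have hfin : Finite (R ⧸ m) := by
    letI : Field (R ⧸ m) := Ideal.Quotient.field m
    haveI := jac_int
    haveI : Module.Finite ℤ (R ⧸ m) := finite_of_finite_type_of_isJacobsonRing ℤ (R ⧸ m)
    exact finite_field (R ⧸ m)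
  have hfk : ∀ k : ℕ, Finite (R ⧸ m ^ k) := fun k =>
    Ideal.finite_quotient_pow (IsNoetherian.noetherian m) k
  by_contra hcon
  push Not at hcon
  have hk : ∀ k : ℕ, r ∈ J ⊔ m ^ k := by
    intro k
    have := hfk k
    refine hcon (J ⊔ m ^ k) le_sup_left ?_
    exact Finite.of_surjective (Ideal.Quotient.factor (le_sup_right : m ^ k ≤ J ⊔ m ^ k))
      (Ideal.Quotient.factor_surjective _)
  have hmem : (Submodule.Quotient.mk r : R ⧸ J) ∈ (⨅ i : ℕ, m ^ i • ⊤ : Submodule R (R ⧸ J)) := by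
    rw [Submodule.mem_iInf]
    intro k
    obtain ⟨a, ha, b, hb, hab⟩ := Submodule.mem_sup.1 (hk k)
    have h1 : (Submodule.Quotient.mk r : R ⧸ J) = b • (Submodule.Quotient.mk 1 : R ⧸ J) := by
      rw [← Submodule.Quotient.mk_smul, Submodule.Quotient.eq, smul_eq_mul, mul_one, ← hab]
      simpa using ha
    rw [h1]
    exact Submodule.smul_mem_smul hb trivial
  rw [Ideal.mem_iInf_smul_pow_eq_bot_iff] at hmem
  obtain ⟨⟨s, hs⟩, h2⟩ := hmem
  simp only at h2
  rw [← Submodule.Quotient.mk_smul, Submodule.Quotient.eq, smul_eq_mul] at h2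
  have h3 : 1 - s ∈ J1 := by
    rw [hJ1mem]
    have : (1 - s) * r = -(s * r - r) := by ring
    rw [this]
    exact J.neg_mem h2
  have h4 := hJm h3
  apply hm.ne_top
  rw [Ideal.eq_top_iff_one]
  have := m.add_mem h4 hs
  simpa using this

/-- residual finiteness of cyclic modules over finitely generated commutative rings -/
theorem rf_module {R : Type*} [CommRing R] [Algebra.FiniteType ℤ R] {N : Type*} [AddCommGroup N]
    [Module R N] (x : N) (hx : Submodule.span R {x} = ⊤) (r : R) (hr : r • x ≠ 0) :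
    ∃ B : Submodule R N, Finite (N ⧸ B) ∧ r • x ∉ B := by
  set φ : R →ₗ[R] N := LinearMap.toSpanSingleton R N x with hφ
  have hφr : ∀ s, φ s = s • x := fun s => by rw [hφ, LinearMap.toSpanSingleton_apply]
  have hsurj : Function.Surjective φ := by
    rw [← LinearMap.range_eq_top, hφ, LinearMap.range_toSpanSingleton, hx]
  obtain ⟨a, hJa, hfin, hra⟩ := rf_ideal (LinearMap.ker φ) r (by
    rw [LinearMap.mem_ker, hφr]; exact hr)
  refine ⟨Submodule.map φ a, ?_, ?_⟩
  · have hle : a ≤ (Submodule.map φ a).comap φ := Submodule.le_comap_map _ _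
    refine Finite.of_surjective (Submodule.mapQ a (Submodule.map φ a) φ hle) ?_
    intro y
    obtain ⟨y, rfl⟩ := Submodule.Quotient.mk_surjective _ y
    obtain ⟨s, rfl⟩ := hsurj y
    exact ⟨Submodule.Quotient.mk s, rfl⟩
  · rintro ⟨s, hs, hsr⟩
    apply hra
    have h1 : r - s ∈ LinearMap.ker φ := by
      rw [LinearMap.mem_ker, map_sub, hφr r, hsr, sub_self]
    have h2 := a.add_mem (hJa h1) hs
    simpa using h2


/-- `G` satisfies all the laws `w = 1`, `w ∈ L`. -/
def Sat (L : Set (FreeGroup ℕ)) (G : Type) [Group G] : Prop :=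
  ∀ w ∈ L, ∀ φ : FreeGroup ℕ →* G, φ w = 1

/-- all finite groups in the variety defined by `L` are abelian -/
def FinAb (L : Set (FreeGroup ℕ)) : Prop :=
  ∀ (G : Type) [Group G] [Finite G], Sat L G → ∀ a b : G, a * b = b * a

theorem Sat.subgroup {L : Set (FreeGroup ℕ)} {G : Type} [Group G] (h : Sat L G) (S : Subgroup G) :
    Sat L S := by
  intro w hw φ
  have := h w hw (S.subtype.comp φ)
  rw [MonoidHom.comp_apply] at this
  exact Subtype.ext this

theorem Sat.surj {L : Set (FreeGroup ℕ)} {G Q : Type} [Group G] [Group Q] (h : Sat L G)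
    (f : G →* Q) (hf : Function.Surjective f) : Sat L Q := by
  intro w hw φ
  choose s hs using hf
  have h1 : f.comp (FreeGroup.lift fun i => s (φ (FreeGroup.of i))) = φ := by
    ext i
    simp [hs]
  rw [← h1, MonoidHom.comp_apply, h w hw, map_one]

/-- Finite normal subgroups are centralised (cyclic quotient case). -/
theorem fd {L : Set (FreeGroup ℕ)} (hL : FinAb L) {Q : Type} [Group Q] (hQ : Sat L Q)
    (D : Subgroup Q) [D.Normal] [Finite D] (γ : Q) (hD : ∀ s : Q, ∃ d ∈ D, ∃ k : ℤ, s = d * γ ^ k)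
    (d : Q) (hd : d ∈ D) : γ * d = d * γ := by
  -- a power of `γ` centralises `D` and meets `D` trivially
  obtain ⟨M, hM0, hMc, hMD⟩ : ∃ M : ℕ, 0 < M ∧ (∀ d ∈ D, γ ^ M * d = d * γ ^ M) ∧
      ∀ j : ℤ, (γ ^ M) ^ j ∈ D → (γ ^ M) ^ j = 1 := by
    have hfo : IsOfFinOrder (MulAut.conjNormal (H := D) γ) := isOfFinOrder_of_finite _
    set m := orderOf (MulAut.conjNormal (H := D) γ) with hm
    have hm0 : 0 < m := hfo.orderOf_pos
    have hmc : ∀ d ∈ D, γ ^ m * d = d * γ ^ m := by
      intro d hd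
      have h1 : (MulAut.conjNormal (H := D) γ) ^ m = 1 := pow_orderOf_eq_one _
      have h2 := congrArg (fun e : MulAut D => ((e ⟨d, hd⟩ : D) : Q)) h1
      simp only [← map_pow, MulAut.conjNormal_apply, MulAut.one_apply] at h2
      rw [mul_inv_eq_iff_eq_mul] at h2
      exact h2
    by_cases hγ : IsOfFinOrder γ
    · refine ⟨orderOf γ, hγ.orderOf_pos, ?_, ?_⟩
      · intro d hd; simp [pow_orderOf_eq_one]
      · intro j _; simp [pow_orderOf_eq_one]
    · refine ⟨m, hm0, hmc, ?_⟩
      intro j hj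
      have h1 : IsOfFinOrder ((γ ^ m) ^ j) := by
        have h2 : IsOfFinOrder (⟨(γ ^ m) ^ j, hj⟩ : D) := isOfFinOrder_of_finite _
        exact D.subtype.isOfFinOrder h2
      by_contra hne
      apply hγ
      have hj0 : j ≠ 0 := by rintro rfl; exact hne (by simp)
      rw [← zpow_natCast, ← zpow_mul] at h1
      have hmj : (m : ℤ) * j ≠ 0 := mul_ne_zero (by exact_mod_cast hm0.ne') hj0
      rw [isOfFinOrder_iff_zpow_eq_one] at h1 ⊢
      obtain ⟨n, hn, hn1⟩ := h1
      exact ⟨(m : ℤ) * j * n, mul_ne_zero hmj hn, by rw [zpow_mul]; exact hn1⟩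
  set Z : Subgroup Q := Subgroup.zpowers (γ ^ M) with hZ
  have hcen : ∀ s : Q, s * γ ^ M = γ ^ M * s := by
    intro s
    obtain ⟨d, hd, k, rfl⟩ := hD s
    rw [mul_assoc, ← zpow_natCast γ M, ← zpow_add, add_comm, zpow_add, ← mul_assoc, zpow_natCast,
      ← hMc d hd, mul_assoc]
  have hZn : Z.Normal := by
    refine ⟨fun n hn g => ?_⟩
    obtain ⟨k, rfl⟩ := Subgroup.mem_zpowers_iff.1 hn
    have h1 : Commute g ((γ ^ M) ^ k) := (show Commute g (γ ^ M) from hcen g).zpow_right k
    rw [h1.eq, mul_assoc, mul_inv_cancel, mul_one]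
    exact hn
  have hfin : Finite (Q ⧸ Z) := by
    refine Finite.of_surjective (fun p : D × Fin M => (QuotientGroup.mk' Z ((p.1 : Q) * γ ^ (p.2 : ℕ))))
      ?_
    intro q
    obtain ⟨s, rfl⟩ := QuotientGroup.mk'_surjective Z q
    obtain ⟨d, hd, k, rfl⟩ := hD s
    have hMz : (M : ℤ) ≠ 0 := by exact_mod_cast hM0.ne'
    have hk0 : 0 ≤ k % M := Int.emod_nonneg _ hMz
    have hk1 : k % M < M := Int.emod_lt_of_pos _ (by exact_mod_cast hM0)
    refine ⟨(⟨d, hd⟩, ⟨(k % M).toNat, by omega⟩), ?_⟩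
    simp only
    rw [QuotientGroup.mk'_eq_mk']
    refine ⟨(γ ^ M) ^ (k / M), Subgroup.zpow_mem _ (Subgroup.mem_zpowers _) _, ?_⟩
    rw [mul_assoc]
    congr 1
    rw [← zpow_natCast γ (k % M).toNat, Int.toNat_of_nonneg hk0, ← zpow_natCast γ M, ← zpow_mul,
      ← zpow_add, Int.emod_add_mul_ediv]
  have hab := hL (Q ⧸ Z) (hQ.surj (QuotientGroup.mk' Z) (QuotientGroup.mk'_surjective Z))
    (QuotientGroup.mk' Z γ) (QuotientGroup.mk' Z d)
  rw [← map_mul, ← map_mul, QuotientGroup.mk'_eq_mk'] at hab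
  obtain ⟨z, hz, hz2⟩ := hab
  obtain ⟨j, rfl⟩ := Subgroup.mem_zpowers_iff.1 hz
  have hzD : (γ ^ M) ^ j ∈ D := by
    have h1 : (γ ^ M) ^ j = (γ * d)⁻¹ * (d * γ) := by rw [← hz2]; group
    rw [h1]
    have h2 : (γ * d)⁻¹ * (d * γ) = d⁻¹ * (γ⁻¹ * d * γ⁻¹⁻¹) := by group
    rw [h2]
    exact D.mul_mem (D.inv_mem hd) (Subgroup.Normal.conj_mem inferInstance d hd γ⁻¹)
  rw [hMD j hzD, mul_one] at hz2
  exact hz2


/-- module version: `A` a commutative normal subgroup generated by the conjugates of `x` under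
powers of `g`; then there is a `g`-invariant subgroup `B` of finite index in `A` which does not
contain `g x g⁻¹ x⁻¹`. -/
theorem exists_B {Q : Type} [Group Q] (A : Subgroup Q) [hA : A.Normal]
    (hcomm : ∀ a ∈ A, ∀ b ∈ A, a * b = b * a) (x g : Q)
    (hgen : A = Subgroup.closure (Set.range fun k : ℤ => g ^ k * x * (g ^ k)⁻¹))
    (hne : g * x * g⁻¹ * x⁻¹ ≠ 1) :
    ∃ B : Subgroup Q, B ≤ A ∧ (∀ b ∈ B, ∀ k : ℤ, g ^ k * b * (g ^ k)⁻¹ ∈ B) ∧
      Finite (A ⧸ B.subgroupOf A) ∧ g * x * g⁻¹ * x⁻¹ ∉ B := by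
  letI : CommGroup A := { (inferInstance : Group A) with
    mul_comm := fun a b => Subtype.ext (hcomm a a.2 b b.2) }
  set ρ : Multiplicative ℤ →* Module.End ℤ (Additive A) :=
    { toFun := fun n => ((MulAut.conjNormal (H := A) (g ^ n.toAdd)).toMonoidHom.toAdditive).toIntLinearMap
      map_one' := by
        ext a
        simp
      map_mul' := fun m n => by
        ext a
        simp [zpow_add, map_mul] } with hρ
  set R := MonoidAlgebra ℤ (Multiplicative ℤ)
  set F : R →ₐ[ℤ] Module.End ℤ (Additive A) := MonoidAlgebra.lift ℤ _ _ ρ with hF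
  letI : Module R (Additive A) := Module.compHom (Additive A) F.toRingHom
  have hsmul : ∀ (r : R) (y : Additive A), r • y = F r y := fun r y => rfl
  have hsingle : ∀ (k : ℤ) (y : Additive A),
      (MonoidAlgebra.single (Multiplicative.ofAdd k) (1 : ℤ) : R) • y =
        Additive.ofMul (MulAut.conjNormal (H := A) (g ^ k) y.toMul) := by
    intro k y
    rw [hsmul, hF, MonoidAlgebra.lift_single, one_smul]
    rfl
  have hxA : x ∈ A := by
    rw [hgen]
    refine Subgroup.subset_closure ⟨0, ?_⟩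
    simp
  set x0 : Additive A := Additive.ofMul ⟨x, hxA⟩ with hx0
  have hspan : Submodule.span R {x0} = ⊤ := by
    rw [eq_top_iff]
    intro y _
    have key : ∀ z : Q, ∀ hz : z ∈ Subgroup.closure (Set.range fun k : ℤ => g ^ k * x * (g ^ k)⁻¹),
        ∀ hzA : z ∈ A, (Additive.ofMul (⟨z, hzA⟩ : A)) ∈ Submodule.span R {x0} := by
      intro z hz
      induction hz using Subgroup.closure_induction with
      | mem z hz =>
        intro hzA
        obtain ⟨k, rfl⟩ := hz
        have h1 := Submodule.smul_mem (Submodule.span R {x0})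
          (MonoidAlgebra.single (Multiplicative.ofAdd k) (1 : ℤ) : R)
          (Submodule.mem_span_singleton_self x0)
        rw [hsingle] at h1
        exact h1
      | one =>
        intro hzA
        exact Submodule.zero_mem _
      | mul a b ha hb iha ihb =>
        intro hzA
        have haA : a ∈ A := by rw [hgen]; exact ha
        have hbA : b ∈ A := by rw [hgen]; exact hb
        exact Submodule.add_mem _ (iha haA) (ihb hbA)
      | inv a ha iha =>
        intro hzA
        have haA : a ∈ A := by rw [hgen]; exact ha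
        exact Submodule.neg_mem _ (iha haA)
    have h1 := y.toMul.2
    have h2 : (y.toMul : Q) ∈ Subgroup.closure (Set.range fun k : ℤ => g ^ k * x * (g ^ k)⁻¹) := by
      rw [← hgen]; exact h1
    exact key _ h2 h1
  have hft : @Algebra.FiniteType ℤ R _ _ (Ring.toIntAlgebra R) := by
    have h := (inferInstance : Algebra.FiniteType ℤ (MonoidAlgebra ℤ (Multiplicative ℤ)))
    convert! h
  obtain ⟨B, hBfin, hB⟩ := rf_module x0 hspan
    ((MonoidAlgebra.single (Multiplicative.ofAdd 1) (1 : ℤ) : R) - 1) (by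
      rw [sub_smul, one_smul, hsingle, sub_ne_zero]
      intro h
      apply hne
      have h1 := congrArg (fun a : Additive A => ((a.toMul : A) : Q)) h
      simp only [hx0, toMul_ofMul, MulAut.conjNormal_apply, zpow_one] at h1
      rw [h1, mul_inv_cancel])
  refine ⟨{ carrier := {q | ∃ h : q ∈ A, (Additive.ofMul (⟨q, h⟩ : A)) ∈ B}
            mul_mem' := ?_, one_mem' := ?_, inv_mem' := ?_ }, ?_, ?_, ?_, ?_⟩
  · rintro a b ⟨ha, ha'⟩ ⟨hb, hb'⟩
    exact ⟨A.mul_mem ha hb, B.add_mem ha' hb'⟩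
  · exact ⟨A.one_mem, B.zero_mem⟩
  · rintro a ⟨ha, ha'⟩
    exact ⟨A.inv_mem ha, B.neg_mem ha'⟩
  · rintro q ⟨h, -⟩
    exact h
  · rintro b ⟨hb, hb'⟩ k
    refine ⟨hA.conj_mem b hb (g ^ k), ?_⟩
    have h1 := B.smul_mem (MonoidAlgebra.single (Multiplicative.ofAdd k) (1 : ℤ) : R) hb'
    rw [hsingle] at h1
    exact h1
  · refine Finite.of_surjective (fun y : Additive A ⧸ B => Quotient.liftOn' y
      (fun a : Additive A => (QuotientGroup.mk (Additive.toMul a) : A ⧸ Subgroup.subgroupOf _ A)) ?_) ?_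
    · intro a b hab
      have hab' : a - b ∈ B := (Submodule.quotientRel_def B).1 hab
      have hab2 : -a + b ∈ B := by
        have := B.neg_mem hab'
        rwa [neg_sub, sub_eq_neg_add] at this
      rw [QuotientGroup.eq]
      rw [Subgroup.mem_subgroupOf]
      exact ⟨(Additive.toMul (-a + b)).2, hab2⟩
    · intro y
      obtain ⟨y, rfl⟩ := QuotientGroup.mk_surjective y
      exact ⟨Submodule.Quotient.mk (Additive.ofMul y), rfl⟩
  · rintro ⟨h, hmem⟩
    apply hB
    rw [sub_smul, one_smul, hsingle]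
    have h1 : (Additive.ofMul (MulAut.conjNormal (H := A) (g ^ (1 : ℤ)) (Additive.toMul x0)) - x0) =
        Additive.ofMul (⟨g * x * g⁻¹ * x⁻¹, h⟩ : A) := by
      apply Additive.toMul.injective
      apply Subtype.ext
      simp [hx0, div_eq_mul_inv]
    rw [h1]
    exact hmem


theorem kl1_normal {L : Set (FreeGroup ℕ)} (hL : FinAb L) {Q : Type} [Group Q] (hQ : Sat L Q)
    (A : Subgroup Q) [hA : A.Normal]
    (hcomm : ∀ a ∈ A, ∀ b ∈ A, a * b = b * a) (x g : Q)
    (hgen : A = Subgroup.closure (Set.range fun k : ℤ => g ^ k * x * (g ^ k)⁻¹))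
    (htop : ∀ s : Q, ∃ a ∈ A, ∃ k : ℤ, s = a * g ^ k) : g * x = x * g := by
  by_contra hcon
  have hne : g * x * g⁻¹ * x⁻¹ ≠ 1 := by
    intro h
    apply hcon
    have : g * x = (g * x * g⁻¹ * x⁻¹) * (x * g) := by group
    rw [this, h, one_mul]
  obtain ⟨B, hBA, hBg, hfin, hB⟩ := exists_B A hcomm x g hgen hne
  have hBn : B.Normal := by
    refine ⟨fun b hb s => ?_⟩
    obtain ⟨a, ha, k, rfl⟩ := htop s
    have h1 := hBg b hb k
    have h2 : a * g ^ k * b * (a * g ^ k)⁻¹ = g ^ k * b * (g ^ k)⁻¹ := by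
      have h3 := hcomm a ha _ (hBA h1)
      calc a * g ^ k * b * (a * g ^ k)⁻¹ = (a * (g ^ k * b * (g ^ k)⁻¹)) * a⁻¹ := by group
        _ = _ := by rw [h3]; group
    rw [h2]; exact h1
  have hxA : x ∈ A := by
    rw [hgen]
    refine Subgroup.subset_closure ⟨0, ?_⟩
    simp
  set π := QuotientGroup.mk' B with hπ
  have hπs : Function.Surjective π := QuotientGroup.mk'_surjective B
  have hDn : (A.map π).Normal := hA.map π hπs
  have hDf : Finite (A.map π) := by
    refine Finite.of_surjective (fun y : A ⧸ B.subgroupOf A => (⟨QuotientGroup.lift (B.subgroupOf A)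
      (π.comp A.subtype) ?_ y, ?_⟩ : A.map π)) ?_
    · intro a ha
      rw [Subgroup.mem_subgroupOf] at ha
      rw [MonoidHom.mem_ker, MonoidHom.comp_apply]
      exact (QuotientGroup.eq_one_iff _).2 ha
    · obtain ⟨y, rfl⟩ := QuotientGroup.mk_surjective y
      exact ⟨y, y.2, rfl⟩
    · rintro ⟨_, a, ha, rfl⟩
      exact ⟨QuotientGroup.mk ⟨a, ha⟩, rfl⟩
  have h := fd hL (hQ.surj π hπs) (A.map π) (π g) (fun s => by
    obtain ⟨s, rfl⟩ := hπs s
    obtain ⟨a, ha, k, rfl⟩ := htop s
    exact ⟨π a, ⟨a, ha, rfl⟩, k, by rw [map_mul, map_zpow]⟩) (π x) ⟨x, hxA, rfl⟩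
  apply hB
  rw [← QuotientGroup.eq_one_iff]
  show π (g * x * g⁻¹ * x⁻¹) = 1
  rw [map_mul, map_mul, map_mul, h, map_inv, map_inv]
  group

/-- **Key lemma.** In a variety all of whose finite groups are abelian, an element `x` whose
conjugates under the powers of `g` commute with one another commutes with `g`. -/
theorem kl1 {L : Set (FreeGroup ℕ)} (hL : FinAb L) {G : Type} [Group G] (hG : Sat L G) (x g : G)
    (hc : ∀ i j : ℤ, Commute (g ^ i * x * (g ^ i)⁻¹) (g ^ j * x * (g ^ j)⁻¹)) : Commute x g := by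
  set c : ℤ → G := fun k => g ^ k * x * (g ^ k)⁻¹ with hcdef
  set A : Subgroup G := Subgroup.closure (Set.range c) with hA
  have hAcomm : ∀ a ∈ A, ∀ b ∈ A, a * b = b * a := by
    intro a ha b hb
    have h1 := Subgroup.closure_induction₂ (k := Set.range c) (p := fun x y _ _ => Commute x y)
      (fun x y hx hy => by
        obtain ⟨i, rfl⟩ := hx
        obtain ⟨j, rfl⟩ := hy
        exact hc i j)
      (fun _ _ => Commute.one_left _) (fun _ _ => Commute.one_right _)
      (fun _ _ _ _ _ _ h1 h2 => h1.mul_left h2) (fun _ _ _ _ _ _ h1 h2 => h1.mul_right h2)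
      (fun _ _ _ _ h => h.inv_left) (fun _ _ _ _ h => h.inv_right) ha hb
    exact h1
  have hAg : ∀ a ∈ A, ∀ k : ℤ, g ^ k * a * (g ^ k)⁻¹ ∈ A := by
    intro a ha k
    induction ha using Subgroup.closure_induction with
    | mem a ha =>
      obtain ⟨i, rfl⟩ := ha
      refine Subgroup.subset_closure ⟨k + i, ?_⟩
      simp only [hcdef, zpow_add]
      group
    | one => simp
    | mul a b _ _ iha ihb =>
      have : g ^ k * (a * b) * (g ^ k)⁻¹ = (g ^ k * a * (g ^ k)⁻¹) * (g ^ k * b * (g ^ k)⁻¹) := by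
        group
      rw [this]; exact A.mul_mem iha ihb
    | inv a _ iha =>
      have : g ^ k * a⁻¹ * (g ^ k)⁻¹ = (g ^ k * a * (g ^ k)⁻¹)⁻¹ := by group
      rw [this]; exact A.inv_mem iha
  let S : Subgroup G :=
    { carrier := {s | ∃ a ∈ A, ∃ k : ℤ, s = a * g ^ k}
      mul_mem' := by
        rintro _ _ ⟨a, ha, k, rfl⟩ ⟨b, hb, l, rfl⟩
        refine ⟨a * (g ^ k * b * (g ^ k)⁻¹), A.mul_mem ha (hAg b hb k), k + l, ?_⟩
        rw [zpow_add]; group
      one_mem' := ⟨1, A.one_mem, 0, by simp⟩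
      inv_mem' := by
        rintro _ ⟨a, ha, k, rfl⟩
        refine ⟨g ^ (-k) * a⁻¹ * (g ^ (-k))⁻¹, hAg _ (A.inv_mem ha) _, -k, ?_⟩
        group }
  have hAS : A ≤ S := fun a ha => ⟨a, ha, 0, by simp⟩
  have hgS : g ∈ S := ⟨1, A.one_mem, 1, by simp⟩
  have hxA : x ∈ A := Subgroup.subset_closure ⟨0, by simp [hcdef]⟩
  have hSn : (A.subgroupOf S).Normal := by
    refine ⟨?_⟩
    rintro ⟨b, hbS⟩ hb ⟨_, a, ha, k, rfl⟩
    rw [Subgroup.mem_subgroupOf] at hb ⊢
    have : a * g ^ k * b * (a * g ^ k)⁻¹ = a * (g ^ k * b * (g ^ k)⁻¹) * a⁻¹ := by group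
    show a * g ^ k * b * (a * g ^ k)⁻¹ ∈ A
    rw [this]
    exact A.mul_mem (A.mul_mem ha (hAg b hb k)) (A.inv_mem ha)
  have h := kl1_normal hL (hG.subgroup S) (A.subgroupOf S) (fun a ha b hb => by
      rw [Subgroup.mem_subgroupOf] at ha hb
      exact Subtype.ext (hAcomm a ha b hb)) ⟨x, hAS hxA⟩ ⟨g, hgS⟩ (by
      apply le_antisymm
      · rintro ⟨y, hyS⟩ hy
        rw [Subgroup.mem_subgroupOf] at hy
        have key : ∀ z (hz : z ∈ A) (hzS : z ∈ S), (⟨z, hzS⟩ : S) ∈ Subgroup.closure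
            (Set.range fun k : ℤ => (⟨g, hgS⟩ : S) ^ k * ⟨x, hAS hxA⟩ * ((⟨g, hgS⟩ : S) ^ k)⁻¹) := by
          intro z hz
          induction hz using Subgroup.closure_induction with
          | mem a ha =>
            intro haS
            obtain ⟨i, rfl⟩ := ha
            refine Subgroup.subset_closure ⟨i, ?_⟩
            apply Subtype.ext
            simp [hcdef]
          | one =>
            intro _
            exact Subgroup.one_mem _
          | mul a b ha hb iha ihb =>
            intro _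
            exact Subgroup.mul_mem _ (iha (hAS ha)) (ihb (hAS hb))
          | inv a ha iha =>
            intro _
            exact Subgroup.inv_mem _ (iha (hAS ha))
        exact key y hy hyS
      · rw [Subgroup.closure_le]
        rintro _ ⟨i, rfl⟩
        show _ ∈ A.subgroupOf S
        rw [Subgroup.mem_subgroupOf]
        have : c i ∈ A := Subgroup.subset_closure ⟨i, rfl⟩
        simpa [hcdef] using this) (by
      rintro ⟨_, a, ha, k, rfl⟩
      refine ⟨⟨a, hAS ha⟩, ?_, k, ?_⟩
      · rw [Subgroup.mem_subgroupOf]; exact ha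
      · apply Subtype.ext; simp)
  have h2 := congrArg (fun s : S => (s : G)) h
  exact h2.symm


end Pool.Agent.Helper96.PA
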