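import Pool.Agent.Helper96.PA1

set_option autoImplicit false

namespace Pool.Agent.Helper96.PA

theorem orbit_ind {G : Type} [Group G] (t x : G) (P : G → Prop) (h0 : P x)
    (h1 : ∀ y, P y → P (t * y * t⁻¹)) (h2 : ∀ y, P y → P (t⁻¹ * y * t)) (k : ℤ) :
    P (t ^ k * x * (t ^ k)⁻¹) := by
  induction k using Int.induction_on with
  | zero => simpa using h0
  | succ n ih =>
    have e1 : t ^ ((n : ℤ) + 1) * x * (t ^ ((n : ℤ) + 1))⁻¹ =
        t * (t ^ (n : ℤ) * x * (t ^ (n : ℤ))⁻¹) * t⁻¹ := by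
      rw [add_comm (n : ℤ) 1, zpow_add, zpow_one]; group
    rw [e1]; exact h1 _ ih
  | pred n ih =>
    have e1 : t ^ (-(n : ℤ) - 1) * x * (t ^ (-(n : ℤ) - 1))⁻¹ =
        t⁻¹ * (t ^ (-(n : ℤ)) * x * (t ^ (-(n : ℤ)))⁻¹) * t := by
      rw [sub_eq_add_neg, add_comm (-(n : ℤ)) (-1), zpow_add, zpow_neg_one]; group
    rw [e1]; exact h2 _ ih

section elt

variable {L : Set (FreeGroup ℕ)} (hL : FinAb L) {G : Type} [Group G] (hG : Sat L G)
include hL hG

/-- class two implies commuting -/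
theorem kl0 (x y : G) (hx : Commute (y * x * y⁻¹ * x⁻¹) x) (hy : Commute (y * x * y⁻¹ * x⁻¹) y) :
    Commute x y := by
  set z := y * x * y⁻¹ * x⁻¹ with hz
  have h1 : y * x * y⁻¹ = z * x := by rw [hz]; group
  have h2 : y⁻¹ * x * y = z⁻¹ * x := by
    have h3 : x = (y⁻¹ * z * y) * (y⁻¹ * x * y) := by
      have : (y⁻¹ * z * y) * (y⁻¹ * x * y) = y⁻¹ * (z * x) * y := by group
      rw [this, ← h1]; group
    have h4 : y⁻¹ * z * y = z := by
      rw [mul_assoc, hy.eq, inv_mul_cancel_left]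
    rw [h4] at h3
    rw [eq_inv_mul_iff_mul_eq]
    exact h3.symm
  have key : ∀ k : ℤ, ∃ m : ℤ, y ^ k * x * (y ^ k)⁻¹ = z ^ m * x := by
    intro k
    refine orbit_ind y x (fun w => ∃ m : ℤ, w = z ^ m * x) ⟨0, by simp⟩ ?_ ?_ k
    · rintro _ ⟨m, rfl⟩
      refine ⟨m + 1, ?_⟩
      have e2 : y * (z ^ m * x) * y⁻¹ = (y * z ^ m) * x * y⁻¹ := by group
      rw [e2, (hy.symm.zpow_right m).eq, zpow_add_one]
      have e3 : z ^ m * y * x * y⁻¹ = z ^ m * (y * x * y⁻¹) := by group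
      rw [e3, h1, ← mul_assoc]
    · rintro _ ⟨m, rfl⟩
      refine ⟨m - 1, ?_⟩
      have e2 : y⁻¹ * (z ^ m * x) * y = (y⁻¹ * z ^ m) * x * y := by group
      have e3 : Commute y⁻¹ (z ^ m) := (hy.symm.zpow_right _).inv_left
      rw [e2, e3.eq, zpow_sub_one]
      have e4 : z ^ m * y⁻¹ * x * y = z ^ m * (y⁻¹ * x * y) := by group
      rw [e4, h2, ← mul_assoc]
  refine kl1 hL hG x y fun i j => ?_
  obtain ⟨m, hm⟩ := key i
  obtain ⟨n, hn⟩ := key j
  rw [hm, hn]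
  exact ((Commute.zpow_zpow_self z m n).mul_right (hx.zpow_left m)).mul_left
    ((hx.symm.zpow_right n).mul_right (Commute.refl x))

/-- centralisers are 2-isolated -/
theorem kl3 (t x : G) (h : Commute (t ^ 2) x) : Commute t x := by
  have step : ∀ y : G, Commute (t ^ 2) y → Commute (y⁻¹ * t * y) t := by
    intro y hy
    set u := y⁻¹ * t * y * t⁻¹ with hu
    have h1 : t * u * t⁻¹ = u⁻¹ := by
      have e1 : t * u * t⁻¹ = t * y⁻¹ * t * (y * (t ^ 2)⁻¹) := by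
        rw [hu, pow_two]; group
      have e2 : y * (t ^ 2)⁻¹ = (t ^ 2)⁻¹ * y := (hy.symm.inv_right).eq
      rw [e1, e2, hu, pow_two]; group
    have h1' : t⁻¹ * u * t = u⁻¹ := by
      have h4 : t⁻¹ * (t * u * t⁻¹) * t = u := by group
      rw [h1] at h4
      have h5 : t⁻¹ * u * t = (t⁻¹ * u⁻¹ * t)⁻¹ := by group
      rw [h5, h4]
    have h2 : ∀ k : ℤ, t ^ k * u * (t ^ k)⁻¹ = u ∨ t ^ k * u * (t ^ k)⁻¹ = u⁻¹ := by
      intro k
      refine orbit_ind t u (fun w => w = u ∨ w = u⁻¹) (Or.inl rfl) ?_ ?_ k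
      · rintro y (rfl | rfl)
        · exact Or.inr h1
        · left
          have : t * u⁻¹ * t⁻¹ = (t * u * t⁻¹)⁻¹ := by group
          rw [this, h1, inv_inv]
      · rintro y (rfl | rfl)
        · exact Or.inr h1'
        · left
          have : t⁻¹ * u⁻¹ * t = (t⁻¹ * u * t)⁻¹ := by group
          rw [this, h1', inv_inv]
    have h3 : Commute u t := by
      refine kl1 hL hG u t fun i j => ?_
      have hu' : Commute u u⁻¹ := (Commute.refl u).inv_right
      rcases h2 i with hi | hi <;> rcases h2 j with hj | hj <;> rw [hi, hj]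
      · exact hu'
      · exact hu'.symm
    have h4 : y⁻¹ * t * y = u * t := by rw [hu]; group
    rw [h4]
    exact h3.mul_left (Commute.refl t)
  refine kl1 hL hG t x fun i j => ?_
  have h5 := step (x ^ (i - j)) (h.zpow_right (i - j))
  -- conjugate by `x ^ i`
  have h6 : Commute (x ^ i * ((x ^ (i - j))⁻¹ * t * x ^ (i - j)) * (x ^ i)⁻¹) (x ^ i * t * (x ^ i)⁻¹) := by
    unfold Commute SemiconjBy at h5 ⊢
    have e1 : x ^ i * ((x ^ (i - j))⁻¹ * t * x ^ (i - j)) * (x ^ i)⁻¹ * (x ^ i * t * (x ^ i)⁻¹) =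
      x ^ i * (((x ^ (i - j))⁻¹ * t * x ^ (i - j)) * t) * (x ^ i)⁻¹ := by group
    have e2 : x ^ i * t * (x ^ i)⁻¹ * (x ^ i * ((x ^ (i - j))⁻¹ * t * x ^ (i - j)) * (x ^ i)⁻¹) =
      x ^ i * (t * ((x ^ (i - j))⁻¹ * t * x ^ (i - j))) * (x ^ i)⁻¹ := by group
    rw [e1, e2, h5]
  have e3 : x ^ i * ((x ^ (i - j))⁻¹ * t * x ^ (i - j)) * (x ^ i)⁻¹ = x ^ j * t * (x ^ j)⁻¹ := by
    have e4 : x ^ j = x ^ i * (x ^ (i - j))⁻¹ := by
      rw [zpow_sub]; group
    rw [e4]; group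
  rw [e3] at h6
  exact h6.symm

theorem kl3_pow (k : ℕ) (t x : G) (h : Commute (t ^ (2 ^ k)) x) : Commute t x := by
  induction k generalizing t with
  | zero => simpa using h
  | succ n ih =>
    refine kl3 hL hG t x (ih (t ^ 2) ?_)
    rw [← pow_mul, ← pow_succ']
    exact h

/-- (3,3,3) triangle groups, central version -/
theorem kl2 (a b : G) (h1a : Commute (a ^ 3) b) (h2a : Commute (b ^ 3) a)
    (h3a : Commute ((a * b) ^ 3) a) (h3b : Commute ((a * b) ^ 3) b) : Commute a b := by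
  set x := a * b⁻¹ with hx
  set y := b⁻¹ * a with hy
  have hxx : a⁻¹ * x * a = y := by rw [hx, hy]; group
  -- `x` commutes with `y`
  have z1b : Commute (a ^ 3) b⁻¹ := h1a.inv_right
  have z1a : Commute (a ^ 3) a := (Commute.refl a).pow_left 3
  have z2b : Commute (b ^ 3) b := (Commute.refl b).pow_left 3
  have hxy1 : x * y = a * b * a * (b ^ 3)⁻¹ := by
    have e1 : x * y = a * b * (b ^ 3)⁻¹ * a := by rw [hx, hy, pow_succ, pow_two]; group
    rw [e1, mul_assoc _ _ a, (h2a.inv_left).eq, ← mul_assoc]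
  have hyx1 : y * x = (b * a * b)⁻¹ * a ^ 3 := by
    have e1 : y * x = b⁻¹ * a⁻¹ * (a ^ 3 * b⁻¹) := by rw [hx, hy, pow_succ, pow_two]; group
    rw [e1, z1b.eq]; group
  have hq : a * b * a = (a * b) ^ 3 * (b * a * b)⁻¹ := by
    rw [pow_succ, pow_two]; group
  set ζ := (a ^ 3)⁻¹ * (a * b) ^ 3 * (b ^ 3)⁻¹ with hζ
  have hζa : Commute ζ a :=
    ((z1a.inv_left).mul_left h3a).mul_left h2a.inv_left
  have hζb : Commute ζ b :=
    ((h1a.inv_left).mul_left h3b).mul_left z2b.inv_left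
  have hζx : Commute ζ x := hζa.mul_right hζb.inv_right
  have hζy : Commute ζ y := hζb.inv_right.mul_right hζa
  have hrel : x * y = ζ * (y * x) := by
    rw [hxy1, hyx1, hq, hζ]
    have c1 : Commute ((b ^ 3)⁻¹) ((b * a * b)⁻¹) := by
      have : Commute (b ^ 3) (b * a * b) := (z2b.mul_right h2a).mul_right z2b
      exact this.inv_inv
    have c2 : Commute ((a ^ 3)⁻¹) ((a * b) ^ 3 * (b ^ 3)⁻¹ * (b * a * b)⁻¹) := by
      have c3 : Commute (a ^ 3) (a * b) := z1a.mul_right h1a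
      have c4 : Commute (a ^ 3) (b * a * b) := (h1a.mul_right z1a).mul_right h1a
      exact (((c3.pow_right 3).mul_right (h1a.pow_right 3).inv_right).mul_right
        c4.inv_right).inv_left
    calc (a * b) ^ 3 * (b * a * b)⁻¹ * (b ^ 3)⁻¹
        = (a * b) ^ 3 * ((b * a * b)⁻¹ * (b ^ 3)⁻¹) := by group
      _ = (a * b) ^ 3 * ((b ^ 3)⁻¹ * (b * a * b)⁻¹) := by rw [c1.eq]
      _ = ((a * b) ^ 3 * (b ^ 3)⁻¹ * (b * a * b)⁻¹) * (a ^ 3)⁻¹ * a ^ 3 := by group
      _ = (a ^ 3)⁻¹ * ((a * b) ^ 3 * (b ^ 3)⁻¹ * (b * a * b)⁻¹) * a ^ 3 := by rw [c2.eq]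
      _ = (a ^ 3)⁻¹ * (a * b) ^ 3 * (b ^ 3)⁻¹ * ((b * a * b)⁻¹ * a ^ 3) := by group
  have hcxy : Commute y x := by
    apply kl0 hL hG y x
    · have : x * y * x⁻¹ * y⁻¹ = ζ := by rw [hrel]; group
      rw [this]; exact hζy
    · have : x * y * x⁻¹ * y⁻¹ = ζ := by rw [hrel]; group
      rw [this]; exact hζx
  -- conjugates of `x` under `a`
  set w := a * x * a⁻¹ with hw
  have hcwx : Commute x w := by
    unfold Commute SemiconjBy at hcxy ⊢
    have e1 : x = a * y * a⁻¹ := by rw [← hxx]; group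
    calc x * w = (a * y * a⁻¹) * (a * x * a⁻¹) := by rw [← e1]
      _ = a * (y * x) * a⁻¹ := by group
      _ = a * (x * y) * a⁻¹ := by rw [hcxy]
      _ = (a * x * a⁻¹) * (a * y * a⁻¹) := by group
      _ = w * x := by rw [← e1]
  have ha3x : Commute (a ^ 3) x := z1a.mul_right z1b
  have hway : a * w * a⁻¹ = y := by
    have e1 : a * w * a⁻¹ = a ^ 3 * (a⁻¹ * x * a) * (a ^ 3)⁻¹ := by
      rw [hw, pow_succ, pow_two]; group
    have c1 : Commute (a ^ 3) (a⁻¹ * x * a) := (z1a.inv_right.mul_right ha3x).mul_right z1a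
    rw [e1, c1.eq, mul_inv_cancel_right, hxx]
  have hcyw : Commute w y := by
    unfold Commute SemiconjBy at hcwx ⊢
    calc w * y = (a * x * a⁻¹) * (a * w * a⁻¹) := by rw [hway]
      _ = a * (x * w) * a⁻¹ := by group
      _ = a * (w * x) * a⁻¹ := by rw [hcwx]
      _ = (a * w * a⁻¹) * (a * x * a⁻¹) := by group
      _ = y * w := by rw [hway]
  have hayx : a * y * a⁻¹ = x := by rw [← hxx]; group
  have orb : ∀ k : ℤ, a ^ k * x * (a ^ k)⁻¹ = x ∨ a ^ k * x * (a ^ k)⁻¹ = y ∨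
      a ^ k * x * (a ^ k)⁻¹ = w := by
    intro k
    refine orbit_ind a x (fun v => v = x ∨ v = y ∨ v = w) (Or.inl rfl) ?_ ?_ k
    · rintro v (rfl | rfl | rfl)
      · exact Or.inr (Or.inr rfl)
      · exact Or.inl hayx
      · exact Or.inr (Or.inl hway)
    · rintro v (rfl | rfl | rfl)
      · exact Or.inr (Or.inl hxx)
      · right; right; rw [← hway]; group
      · left; rw [hw]; group
  have hcxa : Commute x a := by
    refine kl1 hL hG x a fun i j => ?_
    rcases orb i with hi | hi | hi <;> rcases orb j with hj | hj | hj <;> rw [hi, hj]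
    · exact hcxy.symm
    · exact hcwx
    · exact hcxy
    · exact hcyw.symm
    · exact hcwx.symm
    · exact hcyw
  have h7 : Commute b⁻¹ a := by
    have e1 : b⁻¹ = a⁻¹ * x := by rw [hx]; group
    rw [e1]
    exact (Commute.refl a).inv_left.mul_left hcxa
  have h8 := h7.inv_left
  rw [inv_inv] at h8
  exact h8.symm

end elt

end Pool.Agent.Helper96.PA
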