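import Pool.Agent.Helper96.PA2

set_option autoImplicit false

namespace Pool.Agent.Helper96.PA

/-- from a family of subgroups permuted cyclically by `g` to a family with trivial pairwise
intersections -/
theorem disj {Γ : Type} [Group Γ] (g : Γ) (p : ℕ) [hp : Fact p.Prime] (h : ZMod p → Subgroup Γ)
    (hstep : ∀ i x, x ∈ h i ↔ g * x * g⁻¹ ∈ h (i + 1))
    (hnorm : ∀ i j, ∀ x ∈ h i, ∀ y ∈ h j, x * y * x⁻¹ ∈ h j)
    (hinf : ∀ x, (∀ i, x ∈ h i) → x = 1) (h0 : h 0 ≠ ⊥) :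
    ∃ E : ZMod p → Subgroup Γ, E 0 ≠ ⊥ ∧ (∀ i x, x ∈ E i ↔ g * x * g⁻¹ ∈ E (i + 1)) ∧
      (∀ i j, i ≠ j → ∀ x ∈ E i, ∀ y ∈ E j, Commute x y) ∧
      (∀ i j, i ≠ j → ∀ x, x ∈ E i → x ∈ E j → x = 1) := by
  classical
  let P : Finset (ZMod p) → Prop := fun I => I.Nonempty ∧ ∃ x : Γ, x ≠ 1 ∧ ∀ s ∈ I, x ∈ h s
  have hP0 : P {0} := by
    refine ⟨Finset.singleton_nonempty 0, ?_⟩
    obtain ⟨⟨x, hx⟩, hx1⟩ := (Subgroup.ne_bot_iff_exists_ne_one (H := h 0)).1 h0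
    have hx1 : x ≠ 1 := fun h' => hx1 (Subtype.ext h')
    exact ⟨x, hx1, fun s hs => by rw [Finset.mem_singleton] at hs; rw [hs]; exact hx⟩
  obtain ⟨I, hI, hmax⟩ := Finset.exists_max_image ((Finset.univ : Finset (Finset (ZMod p))).filter P)
    Finset.card ⟨{0}, by simp [hP0]⟩
  have hIP : P I := (Finset.mem_filter.1 hI).2
  obtain ⟨hIne, x0, hx0, hx0I⟩ := hIP
  let E : ZMod p → Subgroup Γ := fun i => ⨅ s ∈ I, h (s + i)
  have hE : ∀ i x, x ∈ E i ↔ ∀ s ∈ I, x ∈ h (s + i) := fun i x => by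
    simp only [E, Subgroup.mem_iInf]
  have hEstep : ∀ i x, x ∈ E i ↔ g * x * g⁻¹ ∈ E (i + 1) := by
    intro i x
    rw [hE, hE]
    refine forall₂_congr fun s _ => ?_
    rw [← add_assoc]
    exact hstep _ _
  have hEnorm : ∀ i j, ∀ x ∈ E i, ∀ y ∈ E j, x * y * x⁻¹ ∈ E j := by
    intro i j x hx y hy
    rw [hE] at hx hy ⊢
    intro s hs
    exact hnorm _ _ x (hx s hs) y (hy s hs)
  have hshift : ∀ (n : ℕ) i x, x ∈ E i ↔ g ^ n * x * (g ^ n)⁻¹ ∈ E (i + n) := by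
    intro n
    induction n with
    | zero => intro i x; simp
    | succ n ih =>
      intro i x
      rw [ih i x, hEstep]
      have e1 : g * (g ^ n * x * (g ^ n)⁻¹) * g⁻¹ = g ^ (n + 1) * x * (g ^ (n + 1))⁻¹ := by
        rw [pow_succ']; group
      rw [e1, Nat.cast_succ, add_assoc]
  have hdisj0 : ∀ d : ZMod p, d ≠ 0 → ∀ x, x ∈ E 0 → x ∈ E d → x = 1 := by
    intro d hd x hx hxd
    by_contra hx1
    have hPI : P (I ∪ I.image (· + d)) := by
      refine ⟨hIne.mono Finset.subset_union_left, x, hx1, ?_⟩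
      intro s hs
      rcases Finset.mem_union.1 hs with hs | hs
      · have := (hE 0 x).1 hx s hs
        simpa using this
      · obtain ⟨t, ht, rfl⟩ := Finset.mem_image.1 hs
        exact (hE d x).1 hxd t ht
    have hle := hmax _ (Finset.mem_filter.2 ⟨Finset.mem_univ _, hPI⟩)
    have heq : I = I ∪ I.image (· + d) := Finset.eq_of_subset_of_card_le Finset.subset_union_left hle
    have hcl : ∀ s ∈ I, s + d ∈ I := by
      intro s hs
      rw [heq]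
      exact Finset.mem_union_right _ (Finset.mem_image_of_mem _ hs)
    have hcl2 : ∀ n : ℕ, ∀ s ∈ I, s + n * d ∈ I := by
      intro n
      induction n with
      | zero => intro s hs; simpa using hs
      | succ n ih =>
        intro s hs
        have := hcl _ (ih s hs)
        rw [Nat.cast_succ]
        have e : s + (↑n + 1) * d = s + ↑n * d + d := by ring
        rw [e]; exact this
    apply hx1
    apply hinf
    intro t
    obtain ⟨s, hs⟩ := hIne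
    have h1 := hcl2 (((t - s) / d).val) s hs
    rw [ZMod.natCast_val, ZMod.cast_id', id, div_mul_cancel₀ _ hd, add_sub_cancel] at h1
    have := (hE 0 x).1 hx t h1
    simpa using this
  have hdisj : ∀ i j, i ≠ j → ∀ x, x ∈ E i → x ∈ E j → x = 1 := by
    intro i j hij x hxi hxj
    -- transport to `0`
    have e1 : (i + ((-i).val : ℕ) : ZMod p) = 0 := by
      rw [ZMod.natCast_val, ZMod.cast_id', id]; ring
    have h1 := (hshift (-i).val i x).1 hxi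
    have h2 := (hshift (-i).val j x).1 hxj
    rw [e1] at h1
    have e2 : (j + ((-i).val : ℕ) : ZMod p) = j - i := by
      rw [ZMod.natCast_val, ZMod.cast_id', id]; ring
    rw [e2] at h2
    have h3 := hdisj0 (j - i) (sub_ne_zero.2 hij.symm) _ h1 h2
    have h4 : x = (g ^ (-i).val)⁻¹ * (g ^ (-i).val * x * (g ^ (-i).val)⁻¹) * g ^ (-i).val := by group
    rw [h4, h3]; group
  refine ⟨E, ?_, hEstep, ?_, hdisj⟩
  · intro hbot
    apply hx0
    have : x0 ∈ E 0 := by rw [hE]; intro s hs; simpa using hx0I s hs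
    rw [hbot] at this
    exact Subgroup.mem_bot.1 this
  · intro i j hij x hx y hy
    have h1 : x * y * x⁻¹ * y⁻¹ ∈ E j := (E j).mul_mem (hEnorm i j x hx y hy) ((E j).inv_mem hy)
    have h2 : x * y * x⁻¹ * y⁻¹ ∈ E i := by
      have : x * y * x⁻¹ * y⁻¹ = x * (y * x⁻¹ * y⁻¹) := by group
      rw [this]
      exact (E i).mul_mem hx (hEnorm j i y hy _ ((E i).inv_mem hx))
    have h3 := hdisj i j hij _ h2 h1
    show x * y = y * x
    have : x * y = (x * y * x⁻¹ * y⁻¹) * (y * x) := by group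
    rw [this, h3, one_mul]

section core

variable {L : Set (FreeGroup ℕ)} (hL : FinAb L) {Γ : Type} [Group Γ] (hΓ : Sat L Γ)
include hL hΓ

theorem coreA (g : Γ) (p : ℕ) [hp : Fact p.Prime] (h : ZMod p → Subgroup Γ)
    (hstep : ∀ i x, x ∈ h i ↔ g * x * g⁻¹ ∈ h (i + 1))
    (hnorm : ∀ i j, ∀ x ∈ h i, ∀ y ∈ h j, x * y * x⁻¹ ∈ h j)
    (hinf : ∀ x, (∀ i, x ∈ h i) → x = 1) (hg : ∀ x, Commute (g ^ p) x) : h 0 = ⊥ := by
  by_contra h0
  obtain ⟨E, hE0, hEstep, hEc, hEd⟩ := disj g p h hstep hnorm hinf h0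
  apply hE0
  rw [Subgroup.eq_bot_iff_forall]
  intro x hx
  have horb : ∀ k : ℤ, ∃ n : ℕ, g ^ k * x * (g ^ k)⁻¹ = g ^ n * x * (g ^ n)⁻¹ ∧
      g ^ n * x * (g ^ n)⁻¹ ∈ E n := by
    intro k
    refine orbit_ind g x (fun v => ∃ n : ℕ, v = g ^ n * x * (g ^ n)⁻¹ ∧
      g ^ n * x * (g ^ n)⁻¹ ∈ E n) ⟨0, by simp, by simpa using hx⟩ ?_ ?_ k
    · rintro v ⟨n, rfl, hn⟩
      have e1 : g * (g ^ n * x * (g ^ n)⁻¹) * g⁻¹ = g ^ (n + 1) * x * (g ^ (n + 1))⁻¹ := by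
        rw [pow_succ']; group
      refine ⟨n + 1, e1, ?_⟩
      rw [← e1, Nat.cast_succ]
      exact (hEstep _ _).1 hn
    · rintro v ⟨n, rfl, hn⟩
      -- multiply by `g ^ p`
      have hgp : ∀ y, g ^ p * y * (g ^ p)⁻¹ = y := fun y => by
        rw [(hg y).eq, mul_inv_cancel_right]
      have hp1 : 1 ≤ p := hp.out.one_lt.le
      have e1 : g⁻¹ * (g ^ n * x * (g ^ n)⁻¹) * g = g ^ (n + (p - 1)) * x * (g ^ (n + (p - 1)))⁻¹ := by
        have e2 : g ^ (p - 1) = g⁻¹ * g ^ p := by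
          rw [← pow_sub_mul_pow g hp1]
          have := (Commute.refl g).pow_right (p - 1)
          rw [pow_one, ← this.eq, inv_mul_cancel_left]
        have e3 : g ^ (n + (p - 1)) = g⁻¹ * g ^ p * g ^ n := by
          rw [add_comm, pow_add, e2]
        rw [e3]
        have e4 : g⁻¹ * g ^ p * g ^ n * x * (g⁻¹ * g ^ p * g ^ n)⁻¹ =
          g⁻¹ * (g ^ p * (g ^ n * x * (g ^ n)⁻¹) * (g ^ p)⁻¹) * g := by group
        rw [e4, hgp]
      refine ⟨n + (p - 1), e1, ?_⟩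
      rw [← e1, hEstep]
      have e5 : g * (g⁻¹ * (g ^ n * x * (g ^ n)⁻¹) * g) * g⁻¹ = g ^ n * x * (g ^ n)⁻¹ := by group
      rw [e5]
      have e6 : (((n + (p - 1) : ℕ) : ZMod p) + 1) = (n : ZMod p) := by
        have : ((n + (p - 1) : ℕ) : ZMod p) + 1 = ((n + (p - 1) + 1 : ℕ) : ZMod p) := by
          push_cast; ring
        rw [this, show n + (p - 1) + 1 = n + p by omega]
        simp
      rw [e6]; exact hn
  have hmod : ∀ n : ℕ, g ^ n * x * (g ^ n)⁻¹ = g ^ (n % p) * x * (g ^ (n % p))⁻¹ := by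
    intro n
    have e1 : g ^ n = g ^ (n % p) * (g ^ p) ^ (n / p) := by
      rw [← pow_mul, ← pow_add, Nat.mod_add_div]
    have e2 : Commute ((g ^ p) ^ (n / p)) x := (hg x).pow_left _
    rw [e1]
    have e3 : g ^ (n % p) * (g ^ p) ^ (n / p) * x * (g ^ (n % p) * (g ^ p) ^ (n / p))⁻¹ =
      g ^ (n % p) * ((g ^ p) ^ (n / p) * x * ((g ^ p) ^ (n / p))⁻¹) * (g ^ (n % p))⁻¹ := by group
    rw [e3, e2.eq, mul_inv_cancel_right]
  have hxg : Commute x g := by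
    refine kl1 hL hΓ x g fun i j => ?_
    obtain ⟨m, hm, hmE⟩ := horb i
    obtain ⟨n, hn, hnE⟩ := horb j
    rw [hm, hn]
    by_cases hmn : (m : ZMod p) = n
    · have h1 : m % p = n % p := (ZMod.natCast_eq_natCast_iff' m n p).1 hmn
      rw [hmod m, hmod n, h1]
    · exact hEc _ _ hmn _ hmE _ hnE
  have h1 := (hEstep 0 x).1 hx
  have h2 : g * x * g⁻¹ = x := by rw [← hxg.eq, mul_inv_cancel_right]
  rw [h2, zero_add] at h1
  have : Nontrivial (ZMod p) := by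
    have := hp.out.one_lt
    exact ZMod.nontrivial_iff.2 this.ne'
  exact hEd 0 1 zero_ne_one x hx h1

theorem coreB (g : Γ) (h : ZMod 3 → Subgroup Γ)
    (hstep : ∀ i x, x ∈ h i ↔ g * x * g⁻¹ ∈ h (i + 1))
    (hnorm : ∀ i j, ∀ x ∈ h i, ∀ y ∈ h j, x * y * x⁻¹ ∈ h j)
    (hinf : ∀ x, (∀ i, x ∈ h i) → x = 1) (hg : ∀ x, Commute (g ^ 9) x) : h 0 = ⊥ := by
  by_contra h0
  have h01 : (0 : ZMod 3) ≠ 1 := by decide
  have h02 : (0 : ZMod 3) ≠ 2 := by decide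
  have h12 : (1 : ZMod 3) ≠ 2 := by decide
  have h112 : (1 : ZMod 3) + 1 = 2 := by decide
  have h210 : (2 : ZMod 3) + 1 = 0 := by decide
  haveI : Fact (Nat.Prime 3) := ⟨by norm_num⟩
  obtain ⟨E, hE0, hEstep, hEc, hEd⟩ := disj g 3 h hstep hnorm hinf h0
  apply hE0
  rw [Subgroup.eq_bot_iff_forall]
  have E1 : ∀ x ∈ E 0, g * x * g⁻¹ ∈ E 1 := fun x hx => by
    have := (hEstep 0 x).1 hx
    rwa [zero_add] at this
  have E2 : ∀ x ∈ E 0, g ^ 2 * x * (g ^ 2)⁻¹ ∈ E 2 := fun x hx => by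
    have := (hEstep 1 _).1 (E1 x hx)
    rw [h112] at this
    have e : g ^ 2 * x * (g ^ 2)⁻¹ = g * (g * x * g⁻¹) * g⁻¹ := by rw [pow_two]; group
    rw [e]; exact this
  have E3 : ∀ x ∈ E 0, g ^ 3 * x * (g ^ 3)⁻¹ ∈ E 0 := fun x hx => by
    have := (hEstep 2 _).1 (E2 x hx)
    rw [h210] at this
    have e : g ^ 3 * x * (g ^ 3)⁻¹ = g * (g ^ 2 * x * (g ^ 2)⁻¹) * g⁻¹ := by rw [pow_succ']; group
    rw [e]; exact this
  -- (i)
  have hi : ∀ w ∈ E 0, ∀ x ∈ E 0, w * (g ^ 3 * x * (g ^ 3)⁻¹) * w⁻¹ = x → x = 1 := by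
    intro w hw x hx hwx
    set x1 := g * x * g⁻¹ with hx1
    set x2 := g ^ 2 * x * (g ^ 2)⁻¹ with hx2
    have c1 : Commute w x1 := hEc 0 1 h01 w hw x1 (E1 x hx)
    have c2 : Commute w x2 := hEc 0 2 h02 w hw x2 (E2 x hx)
    have s0 : (w * g) * x * (w * g)⁻¹ = x1 := by
      have : (w * g) * x * (w * g)⁻¹ = w * x1 * w⁻¹ := by rw [hx1]; group
      rw [this, c1.eq, mul_inv_cancel_right]
    have s1 : (w * g) * x1 * (w * g)⁻¹ = x2 := by
      have : (w * g) * x1 * (w * g)⁻¹ = w * x2 * w⁻¹ := by rw [hx1, hx2, pow_two]; group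
      rw [this, c2.eq, mul_inv_cancel_right]
    have s2 : (w * g) * x2 * (w * g)⁻¹ = x := by
      have : (w * g) * x2 * (w * g)⁻¹ = w * (g ^ 3 * x * (g ^ 3)⁻¹) * w⁻¹ := by
        rw [hx2, pow_succ' g 2]; group
      rw [this, hwx]
    have orb : ∀ k : ℤ, (w * g) ^ k * x * ((w * g) ^ k)⁻¹ = x ∨
        (w * g) ^ k * x * ((w * g) ^ k)⁻¹ = x1 ∨ (w * g) ^ k * x * ((w * g) ^ k)⁻¹ = x2 := by
      intro k
      refine orbit_ind (w * g) x (fun v => v = x ∨ v = x1 ∨ v = x2) (Or.inl rfl) ?_ ?_ k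
      · rintro v (rfl | rfl | rfl)
        · exact Or.inr (Or.inl s0)
        · exact Or.inr (Or.inr s1)
        · exact Or.inl s2
      · rintro v (rfl | rfl | rfl)
        · right; right; nth_rewrite 1 [← s2]; group
        · left; rw [← s0]; group
        · right; left; rw [← s1]; group
    have d01 : Commute x x1 := hEc 0 1 h01 x hx x1 (E1 x hx)
    have d02 : Commute x x2 := hEc 0 2 h02 x hx x2 (E2 x hx)
    have d12 : Commute x1 x2 := hEc 1 2 h12 x1 (E1 x hx) x2 (E2 x hx)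
    have hc : Commute x (w * g) := by
      refine kl1 hL hΓ x (w * g) fun i j => ?_
      rcases orb i with hi | hi | hi <;> rcases orb j with hj | hj | hj <;> rw [hi, hj]
      · exact d01
      · exact d02
      · exact d01.symm
      · exact d12
      · exact d02.symm
      · exact d12.symm
    have h1 : x1 = x := by rw [← s0, ← hc.eq, mul_inv_cancel_right]
    have h2 : x ∈ E 1 := by rw [← h1]; exact E1 x hx
    exact hEd 0 1 h01 x hx h2
  -- (ii)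
  have hii : ∀ w ∈ E 0, (w * g ^ 3) ^ 3 = g ^ 9 := by
    intro w hw
    set n := w * (g ^ 3 * w * (g ^ 3)⁻¹) * (g ^ 6 * w * (g ^ 6)⁻¹) with hn
    have hn0 : n ∈ E 0 := by
      have e6 : g ^ 6 * w * (g ^ 6)⁻¹ = g ^ 3 * (g ^ 3 * w * (g ^ 3)⁻¹) * (g ^ 3)⁻¹ := by
        rw [show g ^ 6 = g ^ 3 * g ^ 3 by rw [← pow_add]]; group
      rw [hn, e6]
      exact (E 0).mul_mem ((E 0).mul_mem hw (E3 w hw)) (E3 _ (E3 w hw))
    have hcube : (w * g ^ 3) ^ 3 = n * g ^ 9 := by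
      rw [hn, show g ^ 9 = g ^ 3 * g ^ 3 * g ^ 3 by rw [← pow_add, ← pow_add],
        show g ^ 6 = g ^ 3 * g ^ 3 by rw [← pow_add], pow_succ (w * g ^ 3), pow_two (w * g ^ 3)]
      group
    have hcomm : Commute (w * g ^ 3) n := by
      have e1 : n = (w * g ^ 3) ^ 3 * (g ^ 9)⁻¹ := by rw [hcube, mul_inv_cancel_right]
      rw [e1]
      exact ((Commute.refl _).pow_right 3).mul_right (hg _).symm.inv_right
    have h1 : w * (g ^ 3 * n * (g ^ 3)⁻¹) * w⁻¹ = n := by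
      have : w * (g ^ 3 * n * (g ^ 3)⁻¹) * w⁻¹ = (w * g ^ 3) * n * (w * g ^ 3)⁻¹ := by group
      rw [this, hcomm.eq, mul_inv_cancel_right]
    rw [hcube, hi w hw n hn0 h1, one_mul]
  -- (iii)
  intro w hw
  have hab3 : (g ^ 3 * (w * g ^ 3)) ^ 3 = g ^ 9 * g ^ 9 := by
    set w1 := g ^ 3 * w * (g ^ 3)⁻¹ with hw1
    have hw1E : w1 ∈ E 0 := E3 w hw
    have e1 : g ^ 3 * (w * g ^ 3) = w1 * (g ^ 3 * g ^ 3) := by rw [hw1]; group
    set v := g ^ 3 * w1⁻¹ * (g ^ 3)⁻¹ with hv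
    have hvE : v ∈ E 0 := E3 _ ((E 0).inv_mem hw1E)
    have e2 : (w1 * (g ^ 3 * g ^ 3))⁻¹ = (g ^ 9)⁻¹ * (v * g ^ 3) := by
      have c : Commute ((g ^ 9)⁻¹) (v * g ^ 3) := (hg _).inv_left
      rw [c.eq, hv, show g ^ 9 = g ^ 3 * g ^ 3 * g ^ 3 by rw [← pow_add, ← pow_add]]
      have c2 : Commute (g ^ 3 * g ^ 3 * g ^ 3) w1 := by
        rw [show g ^ 3 * g ^ 3 * g ^ 3 = g ^ 9 by rw [← pow_add, ← pow_add]]; exact hg _
      have c3 : Commute (g ^ 3 * g ^ 3 * g ^ 3)⁻¹ w1⁻¹ := c2.inv_inv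
      calc (w1 * (g ^ 3 * g ^ 3))⁻¹ = g ^ 3 * ((g ^ 3 * g ^ 3 * g ^ 3)⁻¹ * w1⁻¹) := by group
        _ = g ^ 3 * (w1⁻¹ * (g ^ 3 * g ^ 3 * g ^ 3)⁻¹) := by rw [c3.eq]
        _ = _ := by group
    have e3 : (g ^ 3 * (w * g ^ 3)) ^ 3 = (((g ^ 9)⁻¹ * (v * g ^ 3)) ^ 3)⁻¹ := by
      rw [← e2, e1, inv_pow, inv_inv]
    have c : Commute ((g ^ 9)⁻¹) (v * g ^ 3) := (hg _).inv_left
    rw [e3, c.mul_pow, hii v hvE, pow_succ, pow_two]
    group
  have hc := kl2 hL hΓ (g ^ 3) (w * g ^ 3)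
    (by rw [← pow_mul]; exact hg _)
    (by rw [hii w hw]; exact hg _)
    (by rw [hab3]; exact (hg _).mul_left (hg _))
    (by rw [hab3]; exact (hg _).mul_left (hg _))
  have hcw : Commute (g ^ 3) w := by
    have := hc.mul_right ((Commute.refl (g ^ 3)).inv_right)
    rwa [mul_inv_cancel_right] at this
  refine hi 1 (E 0).one_mem w hw ?_
  rw [hcw.eq, mul_inv_cancel_right]; group

end core

end Pool.Agent.Helper96.PA
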