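import Pool.Agent.Helper96.PA3

set_option autoImplicit false

namespace Pool.Agent.Helper96.PA

open Subgroup

/-- statement of the core results -/
def Core (L : Set (FreeGroup ℕ)) (p n : ℕ) : Prop :=
  ∀ (Γ : Type) [Group Γ], Sat L Γ → ∀ (g : Γ) (h : ZMod p → Subgroup Γ),
    (∀ i x, x ∈ h i ↔ g * x * g⁻¹ ∈ h (i + 1)) →
    (∀ i j, ∀ x ∈ h i, ∀ y ∈ h j, x * y * x⁻¹ ∈ h j) →
    (∀ x, (∀ i, x ∈ h i) → x = 1) → (∀ x, Commute (g ^ n) x) → h 0 = ⊥

theorem transfer {L : Set (FreeGroup ℕ)} (p n : ℕ) [hp : Fact p.Prime] (hcore : Core L p n)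
    {G : Type} [Group G] (hG : Sat L G) (g : G) (hgn : ∀ x, Commute (g ^ n) x) (N H : Subgroup G)
    (hgN : g ∈ normalizer (N : Set G)) (hHN : H ≤ N) (hNH : N ≤ normalizer (H : Set G))
    (hgp : g ^ p ∈ normalizer (H : Set G)) : g ∈ normalizer (H : Set G) := by
  have hp0 : NeZero p := ⟨hp.out.ne_zero⟩
  -- the conjugates of `H`
  let K : ℕ → Subgroup G := fun v => H.comap (MulAut.conj ((g ^ v)⁻¹)).toMonoidHom
  have hK : ∀ v x, x ∈ K v ↔ (g ^ v)⁻¹ * x * g ^ v ∈ H := by
    intro v x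
    show (MulAut.conj ((g ^ v)⁻¹)) x ∈ H ↔ _
    rw [MulAut.conj_apply, inv_inv]
  have hKp : ∀ v, K (v + p) = K v := by
    intro v
    ext x
    rw [hK, hK, mem_normalizer_iff.1 hgp ((g ^ (v + p))⁻¹ * x * g ^ (v + p))]
    have : g ^ p * ((g ^ (v + p))⁻¹ * x * g ^ (v + p)) * (g ^ p)⁻¹ = (g ^ v)⁻¹ * x * g ^ v := by
      rw [pow_add]
      have h1 : g ^ v * g ^ p = g ^ p * g ^ v := by rw [← pow_add, ← pow_add, add_comm]
      rw [h1]; group
    rw [this]
  have hKmod : ∀ v, K v = K (v % p) := by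
    intro v
    conv_lhs => rw [← Nat.mod_add_div v p]
    generalize v / p = m
    induction m with
    | zero => simp
    | succ m ih =>
      rw [← ih, Nat.mul_succ, ← add_assoc, hKp]
  have hKstep : ∀ v x, x ∈ K v ↔ g * x * g⁻¹ ∈ K (v + 1) := by
    intro v x
    rw [hK, hK]
    have : (g ^ (v + 1))⁻¹ * (g * x * g⁻¹) * g ^ (v + 1) = (g ^ v)⁻¹ * x * g ^ v := by
      rw [pow_succ']; group
    rw [this]
  let Hi : ZMod p → Subgroup G := fun i => K i.val
  have hHi : ∀ v : ℕ, Hi (v : ZMod p) = K v := by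
    intro v
    show K ((v : ZMod p).val) = K v
    rw [ZMod.val_natCast, ← hKmod]
  have hHi0 : Hi 0 = H := by
    have h1 := hHi 0
    rw [Nat.cast_zero] at h1
    rw [h1]
    ext x
    rw [hK]; simp
  have hHistep : ∀ i x, x ∈ Hi i ↔ g * x * g⁻¹ ∈ Hi (i + 1) := by
    intro i x
    have h1 : (i + 1) = ((i.val + 1 : ℕ) : ZMod p) := by
      rw [Nat.cast_add, ZMod.natCast_val, ZMod.cast_id', id, Nat.cast_one]
    rw [h1, hHi]
    exact hKstep _ _
  have hNpow : ∀ v : ℕ, g ^ v ∈ normalizer (N : Set G) := fun v => pow_mem hgN v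
  have hNHi : ∀ i, ∀ y ∈ N, ∀ x ∈ Hi i, y * x * y⁻¹ ∈ Hi i := by
    intro i y hy x hx
    rw [hK] at hx ⊢
    have hy' : (g ^ i.val)⁻¹ * y * g ^ i.val ∈ N := (mem_normalizer_iff''.1 (hNpow i.val) y).1 hy
    have h1 := (mem_normalizer_iff.1 (hNH hy') _).1 hx
    have e : (g ^ i.val)⁻¹ * (y * x * y⁻¹) * g ^ i.val = (g ^ i.val)⁻¹ * y * g ^ i.val *
      ((g ^ i.val)⁻¹ * x * g ^ i.val) * ((g ^ i.val)⁻¹ * y * g ^ i.val)⁻¹ := by group
    rw [e]; exact h1
  have hHiN : ∀ i, Hi i ≤ N := by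
    intro i x hx
    rw [hK] at hx
    have := hHN hx
    exact (mem_normalizer_iff''.1 (hNpow i.val) x).2 this
  -- the intersection
  let C : Subgroup G := ⨅ i, Hi i
  have hC : ∀ x, x ∈ C ↔ ∀ i, x ∈ Hi i := fun x => Subgroup.mem_iInf
  have hgC : g ∈ normalizer (C : Set G) := by
    rw [mem_normalizer_iff]
    intro x
    rw [hC, hC]
    constructor
    · intro h i
      have := (hHistep (i - 1) x).1 (h (i - 1))
      rwa [sub_add_cancel] at this
    · intro h i
      rw [hHistep]; exact h _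
  have hNC : N ≤ normalizer (C : Set G) := by
    intro y hy
    rw [mem_normalizer_iff]
    intro x
    rw [hC, hC]
    constructor
    · intro h i
      exact hNHi i y hy x (h i)
    · intro h i
      have := hNHi i y⁻¹ (N.inv_mem hy) _ (h i)
      have e : y⁻¹ * (y * x * y⁻¹) * y⁻¹⁻¹ = x := by group
      rwa [e] at this
  set S := normalizer (C : Set G) with hS
  let C' : Subgroup S := C.subgroupOf S
  have hC'n : C'.Normal := Subgroup.normal_in_normalizer
  let π : S →* S ⧸ C' := QuotientGroup.mk' C'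
  have hπ : Function.Surjective π := QuotientGroup.mk'_surjective C'
  let h : ZMod p → Subgroup (S ⧸ C') := fun i => ((Hi i).subgroupOf S).map π
  have hmem : ∀ i (s : S), π s ∈ h i ↔ (s : G) ∈ Hi i := by
    intro i s
    constructor
    · rintro ⟨t, ht, hts⟩
      rw [SetLike.mem_coe, mem_subgroupOf] at ht
      have h1 : t⁻¹ * s ∈ C' := QuotientGroup.eq.1 hts
      have h2 : (t : G)⁻¹ * s ∈ C := by simpa using mem_subgroupOf.1 h1
      have h3 := (Hi i).mul_mem ht ((hC _).1 h2 i)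
      rwa [mul_inv_cancel_left] at h3
    · intro hs
      exact ⟨s, mem_subgroupOf.2 hs, rfl⟩
  have hres := hcore (S ⧸ C') ((hG.subgroup S).surj π hπ) (π ⟨g, hgC⟩) h
    (by
      intro i q
      obtain ⟨s, rfl⟩ := hπ q
      rw [← map_mul, ← map_inv, ← map_mul, hmem, hmem]
      exact hHistep i s)
    (by
      intro i j q hq q' hq'
      obtain ⟨s, rfl⟩ := hπ q
      obtain ⟨s', rfl⟩ := hπ q'
      rw [hmem] at hq hq'
      rw [← map_mul, ← map_inv, ← map_mul, hmem]
      exact hNHi j s (hHiN i hq) s' hq')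
    (by
      intro q hq
      obtain ⟨s, rfl⟩ := hπ q
      refine (QuotientGroup.eq_one_iff _).2 ?_
      rw [mem_subgroupOf, hC]
      intro i
      exact (hmem i s).1 (hq i))
    (by
      intro q
      obtain ⟨s, rfl⟩ := hπ q
      rw [← map_pow]
      have : Commute ((⟨g, hgC⟩ : S) ^ n) s := Subtype.ext (hgn s)
      exact this.map π)
  have hHC : ∀ x ∈ H, ∀ i, x ∈ Hi i := by
    intro x hx
    rw [← hC]
    have hxS : x ∈ S := hNC (hHN hx)
    have h1 : π ⟨x, hxS⟩ ∈ h 0 := by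
      rw [hmem, hHi0]; exact hx
    rw [hres, mem_bot] at h1
    have h2 := (QuotientGroup.eq_one_iff _).1 h1
    exact mem_subgroupOf.1 h2
  rw [mem_normalizer_iff]
  intro x
  constructor
  · intro hx
    have h1 := hHC x hx (-1)
    rw [hHistep, neg_add_cancel, hHi0] at h1
    exact h1
  · intro hx
    have h1 := hHC _ hx 1
    have h2 := (hHistep 0 x).2 (by rw [zero_add]; exact h1)
    rwa [hHi0] at h2

/-- `n ≠ 0`, not divisible by `27`, nor by `p ^ 2` for a prime `p ≥ 5`. -/
def Good (n : ℕ) : Prop :=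
  n ≠ 0 ∧ ¬ 27 ∣ n ∧ ∀ p : ℕ, p.Prime → 5 ≤ p → ¬ p ^ 2 ∣ n

theorem Good.of_dvd {m n : ℕ} (h : Good n) (hmn : m ∣ n) : Good m := by
  obtain ⟨h0, h27, hp⟩ := h
  refine ⟨?_, fun h => h27 (h.trans hmn), fun p hpp hp5 h => hp p hpp hp5 (h.trans hmn)⟩
  rintro rfl
  exact h0 (zero_dvd_iff.1 hmn)

theorem step_main {L : Set (FreeGroup ℕ)} (hL : FinAb L) {G : Type} [Group G] (hG : Sat L G)
    (n : ℕ) : Good n → ∀ g : G, (∀ x, Commute (g ^ n) x) → ∀ N H : Subgroup G,
      g ∈ normalizer (N : Set G) → H ≤ N → N ≤ normalizer (H : Set G) →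
      g ∈ normalizer (H : Set G) := by
  induction n using Nat.recOnPosPrimePosCoprime with
  | zero => intro h; exact absurd rfl h.1
  | one =>
    intro _ g hg N H _ _ _
    rw [mem_normalizer_iff]
    intro x
    have := (hg x).eq
    rw [pow_one] at this
    rw [this, mul_inv_cancel_right]
  | coprime a b ha hb hab iha ihb =>
    intro hgood g hg N H hgN hHN hNH
    have ga : Good a := hgood.of_dvd (Dvd.intro _ rfl)
    have gb : Good b := hgood.of_dvd (Dvd.intro_left _ rfl)
    have h1 := ihb gb (g ^ a) (fun x => by rw [← pow_mul]; exact hg x) N H (pow_mem hgN a) hHN hNH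
    have h2 := iha ga (g ^ b) (fun x => by rw [← pow_mul, mul_comm]; exact hg x) N H
      (pow_mem hgN b) hHN hNH
    have h3 : g = (g ^ a) ^ (Nat.gcdA a b) * (g ^ b) ^ (Nat.gcdB a b) := by
      rw [← zpow_natCast g a, ← zpow_natCast g b, ← zpow_mul, ← zpow_mul, ← zpow_add,
        ← Nat.gcd_eq_gcd_ab, hab.gcd_eq_one]
      simp
    rw [h3]
    exact mul_mem (zpow_mem h1 _) (zpow_mem h2 _)
  | prime_pow p k hp hk =>
    intro hgood g hg N H hgN hHN hNH
    by_cases hp2 : p = 2
    · subst hp2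
      rw [mem_normalizer_iff]
      intro x
      have := (kl3_pow hL hG k g x (hg x)).eq
      rw [this, mul_inv_cancel_right]
    haveI : Fact p.Prime := ⟨hp⟩
    have hA : Core L p p := fun Γ _ hΓ g h h1 h2 h3 h4 => coreA hL hΓ g p h h1 h2 h3 h4
    have hnorm_of_central : ∀ y : G, (∀ x, Commute y x) → y ∈ normalizer (H : Set G) := by
      intro y hy
      rw [mem_normalizer_iff]
      intro x
      rw [(hy x).eq, mul_inv_cancel_right]
    by_cases hk1 : k = 1
    · subst hk1
      rw [pow_one] at hg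
      exact transfer p p hA hG g hg N H hgN hHN hNH (hnorm_of_central _ hg)
    -- now `p = 3` and `k = 2`
    have hk2 : 2 ≤ k := by omega
    have hp3 : p = 3 := by
      by_contra hp3
      have hp5 : 5 ≤ p := by
        have h2 := hp.two_le
        by_contra hlt
        push Not at hlt
        have : p = 4 := by omega
        subst this
        exact absurd hp (by norm_num)
      exact hgood.2.2 p hp hp5 (pow_dvd_pow p hk2)
    subst hp3
    have hk2' : k = 2 := by
      by_contra hne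
      have hk3 : 3 ≤ k := by omega
      have h27 : (3 : ℕ) ^ 3 ∣ 3 ^ k := pow_dvd_pow 3 hk3
      rw [show (3 : ℕ) ^ 3 = 27 by norm_num] at h27
      exact hgood.2.1 h27
    subst hk2'
    have hg9 : ∀ x, Commute (g ^ 9) x := by simpa using hg
    have hg3 : g ^ 3 ∈ normalizer (H : Set G) :=
      transfer 3 3 hA hG (g ^ 3) (fun x => by rw [← pow_mul]; exact hg9 x) N H (pow_mem hgN 3) hHN hNH
        (hnorm_of_central _ (fun x => by rw [← pow_mul]; exact hg9 x))
    have hB : Core L 3 9 := fun Γ _ hΓ g h h1 h2 h3 h4 => coreB hL hΓ g h h1 h2 h3 h4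
    exact transfer 3 9 hB hG g hg9 N H hgN hHN hNH hg3

/-- main theorem for a central power -/
theorem main_central {L : Set (FreeGroup ℕ)} (hL : FinAb L) {G : Type} [Group G] (hG : Sat L G)
    (n : ℕ) (hn : Good n) (g : G) (hg : ∀ x, Commute (g ^ n) x) (m : ℕ) (f : ℕ → Subgroup G)
    (hm : f m = ⊤) (hf : ∀ i < m, f i ≤ f (i + 1) ∧ f (i + 1) ≤ normalizer (f i : Set G)) :
    g ∈ normalizer (f 0 : Set G) := by
  have key : ∀ k, k ≤ m → g ∈ normalizer (f (m - k) : Set G) := by
    intro k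
    induction k with
    | zero =>
      intro _
      rw [Nat.sub_zero, hm, mem_normalizer_iff]
      intro x; simp
    | succ k ih =>
      intro hk
      have h1 := ih (by omega)
      have h2 : m - k = (m - (k + 1)) + 1 := by omega
      rw [h2] at h1
      have h3 := hf (m - (k + 1)) (by omega)
      exact step_main hL hG n hn g hg _ _ h1 h3.1 h3.2
  have := key m le_rfl
  rwa [Nat.sub_self] at this

/-- main theorem: only the subnormal subgroup has to be centralised by the power -/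
theorem main_cent {L : Set (FreeGroup ℕ)} (hL : FinAb L) {G : Type} [Group G] (hG : Sat L G)
    (H : Subgroup G) (m : ℕ) (f : ℕ → Subgroup G) (h0 : f 0 = H) (hm : f m = ⊤)
    (hf : ∀ i < m, f i ≤ f (i + 1) ∧ ((f i).subgroupOf (f (i + 1))).Normal)
    (n : ℕ) (hn : Good n) (g : G) (hg : ∀ x ∈ H, g ^ n * x = x * g ^ n) :
    ∀ x, x ∈ H ↔ g * x * g⁻¹ ∈ H := by
  -- work in the centraliser of `g ^ n`
  let C : Subgroup G := Subgroup.centralizer {g ^ n}
  have hCmem : ∀ x, x ∈ C ↔ g ^ n * x = x * g ^ n := by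
    intro x
    rw [Subgroup.mem_centralizer_iff]
    constructor
    · intro h; exact h _ rfl
    · rintro h _ rfl; exact h
  have hgC : g ∈ C := by rw [hCmem, ← pow_succ, ← pow_succ']
  have hHC : H ≤ C := fun x hx => (hCmem x).2 (hg x hx)
  have h1 := main_central hL (hG.subgroup C) n hn ⟨g, hgC⟩ (fun x => Subtype.ext ((hCmem x).1 x.2)) m
    (fun i => (f i).subgroupOf C) (by simp only [hm]; exact Subgroup.top_subgroupOf C) (by
      intro i hi
      obtain ⟨h1, h2⟩ := hf i hi
      refine ⟨Subgroup.subgroupOf_mono C h1 , ?_⟩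
      intro y hy
      rw [mem_normalizer_iff]
      intro x
      rw [mem_subgroupOf] at hy ⊢
      rw [mem_subgroupOf]
      have h3 := (Subgroup.normal_subgroupOf_iff_le_normalizer h1).1 h2 hy
      exact mem_normalizer_iff.1 h3 x)
  intro x
  constructor
  · intro hx
    have h2 := (mem_normalizer_iff.1 h1 ⟨x, hHC hx⟩).1 (by
      rw [mem_subgroupOf, h0]; exact hx)
    rw [mem_subgroupOf, h0] at h2
    exact h2
  · intro hx
    have hxC : x ∈ C := by
      have h3 := hHC hx
      have h4 : x = g⁻¹ * (g * x * g⁻¹) * g := by group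
      rw [h4]
      exact C.mul_mem (C.mul_mem (C.inv_mem hgC) h3) hgC
    have h2 := (mem_normalizer_iff.1 h1 ⟨x, hxC⟩).2 (by
      rw [mem_subgroupOf, h0]; exact hx)
    rw [mem_subgroupOf, h0] at h2
    exact h2

end Pool.Agent.Helper96.PA
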