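import Mathlib
import Pool.Agent.Helper54.Taut.Example

/-!
Module H-A: the manifold facts of the example.
-/

set_option autoImplicit false
set_option linter.unusedSectionVars false

open Set Filter MeasureTheory Module Topology
open scoped ContDiff RealInnerProductSpace Cardinal

namespace Pool.Agent.Helper96.TautA

open Pool.Agent.Helper54.Taut

lemma normsq3 (a : E3) : ‖a‖ ^ 2 = a 0 ^ 2 + a 1 ^ 2 + a 2 ^ 2 := by
  rw [EuclideanSpace.norm_sq_eq, Fin.sum_univ_three]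
  simp

lemma inner3 (a b : E3) : ⟪a, b⟫ = a 0 * b 0 + a 1 * b 1 + a 2 * b 2 := by
  rw [PiLp.inner_apply, Fin.sum_univ_three]
  simp [mul_comm]

lemma finrank_E3 : finrank ℝ E3 = 3 := by simp

section Prod

variable {E F : Type} [NormedAddCommGroup E] [InnerProductSpace ℝ E] [FiniteDimensional ℝ E]
  [NormedAddCommGroup F] [InnerProductSpace ℝ F] [FiniteDimensional ℝ F]

lemma finrank_prodL2 : finrank ℝ (WithLp 2 (E × F)) = finrank ℝ E + finrank ℝ F := by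
  rw [(WithLp.linearEquiv 2 ℝ (E × F)).finrank_eq, Module.finrank_prod]

/-- The product of two submanifolds. -/
lemma submanifold_prod {d e : ℕ} {A : Set E} {B : Set F} (hA : IsSubmanifold d A)
    (hB : IsSubmanifold e B) :
    IsSubmanifold (d + e) {y : WithLp 2 (E × F) | y.fst ∈ A ∧ y.snd ∈ B} := by
  intro x hx
  obtain ⟨W1, i1, i2, i3, U1, G1, hd1, hU1, hxU1, hG1, hs1, hN1⟩ := hA x.fst hx.1
  obtain ⟨W2, j1, j2, j3, U2, G2, hd2, hU2, hxU2, hG2, hs2, hN2⟩ := hB x.snd hx.2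
  have hf : Continuous (fun y : WithLp 2 (E × F) => y.fst) :=
    (WithLp.fstL 2 ℝ E F).continuous
  have hs : Continuous (fun y : WithLp 2 (E × F) => y.snd) :=
    (WithLp.sndL 2 ℝ E F).continuous
  refine ⟨W1 × W2, inferInstance, inferInstance, inferInstance,
    {y | y.fst ∈ U1 ∧ y.snd ∈ U2}, fun y => (G1 y.fst, G2 y.snd), ?_, ?_, ⟨hxU1, hxU2⟩, ?_, ?_,
    ?_⟩
  · rw [finrank_prodL2, Module.finrank_prod]
    omega
  · exact (hU1.preimage hf).inter (hU2.preimage hs)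
  · apply ContDiffOn.prodMk
    · exact hG1.comp (WithLp.fstL 2 ℝ E F).contDiff.contDiffOn (fun y hy => hy.1)
    · exact hG2.comp (WithLp.sndL 2 ℝ E F).contDiff.contDiffOn (fun y hy => hy.2)
  · rintro y ⟨hy1, hy2⟩ ⟨w1, w2⟩
    have hd1 : HasFDerivAt G1 (fderiv ℝ G1 y.fst) y.fst :=
      ((hG1.contDiffAt (hU1.mem_nhds hy1)).differentiableAt (by simp)).hasFDerivAt
    have hd2 : HasFDerivAt G2 (fderiv ℝ G2 y.snd) y.snd :=
      ((hG2.contDiffAt (hU2.mem_nhds hy2)).differentiableAt (by simp)).hasFDerivAt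
    have h1 : HasFDerivAt (fun y : WithLp 2 (E × F) => G1 y.fst)
        ((fderiv ℝ G1 y.fst).comp (WithLp.fstL 2 ℝ E F)) y :=
      HasFDerivAt.comp y hd1 (WithLp.fstL 2 ℝ E F).hasFDerivAt
    have h2 : HasFDerivAt (fun y : WithLp 2 (E × F) => G2 y.snd)
        ((fderiv ℝ G2 y.snd).comp (WithLp.sndL 2 ℝ E F)) y :=
      HasFDerivAt.comp y hd2 (WithLp.sndL 2 ℝ E F).hasFDerivAt
    obtain ⟨v1, hv1⟩ := hs1 y.fst hy1 w1
    obtain ⟨v2, hv2⟩ := hs2 y.snd hy2 w2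
    rw [(h1.prodMk h2).fderiv]
    refine ⟨WithLp.toLp 2 (v1, v2), ?_⟩
    simp [hv1, hv2]
  · ext y
    have e1 : y.fst ∈ A ∧ y.fst ∈ U1 ↔ y.fst ∈ U1 ∧ G1 y.fst = 0 := by
      rw [← Set.mem_inter_iff, hN1]
      rfl
    have e2 : y.snd ∈ B ∧ y.snd ∈ U2 ↔ y.snd ∈ U2 ∧ G2 y.snd = 0 := by
      rw [← Set.mem_inter_iff, hN2]
      rfl
    constructor
    · rintro ⟨⟨h1, h2⟩, h3, h4⟩
      exact ⟨⟨h3, h4⟩, Prod.ext (e1.mp ⟨h1, h3⟩).2 (e2.mp ⟨h2, h4⟩).2⟩
    · rintro ⟨⟨h3, h4⟩, h5⟩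
      rw [Prod.ext_iff] at h5
      exact ⟨⟨(e1.mpr ⟨h3, h5.1⟩).1, (e2.mpr ⟨h4, h5.2⟩).1⟩, h3, h4⟩

/-- The diagonal copy of a submanifold. -/
lemma submanifold_diag {d : ℕ} {A : Set E} (hA : IsSubmanifold d A) :
    IsSubmanifold d {y : WithLp 2 (E × E) | y.fst ∈ A ∧ y.fst = y.snd} := by
  intro x hx
  obtain ⟨W1, i1, i2, i3, U1, G1, hd1, hU1, hxU1, hG1, hs1, hN1⟩ := hA x.fst hx.1
  have hf : Continuous (fun y : WithLp 2 (E × E) => y.fst) :=
    (WithLp.fstL 2 ℝ E E).continuous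
  refine ⟨W1 × E, inferInstance, inferInstance, inferInstance,
    {y | y.fst ∈ U1}, fun y => (G1 y.fst, y.fst - y.snd), ?_, ?_, hxU1, ?_, ?_, ?_⟩
  · rw [finrank_prodL2, Module.finrank_prod]
    omega
  · exact hU1.preimage hf
  · apply ContDiffOn.prodMk
    · exact hG1.comp (WithLp.fstL 2 ℝ E E).contDiff.contDiffOn (fun y hy => hy)
    · exact ((WithLp.fstL 2 ℝ E E).contDiff.sub (WithLp.sndL 2 ℝ E E).contDiff).contDiffOn
  · rintro y hy1 ⟨w1, w2⟩
    have hd1 : HasFDerivAt G1 (fderiv ℝ G1 y.fst) y.fst :=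
      ((hG1.contDiffAt (hU1.mem_nhds hy1)).differentiableAt (by simp)).hasFDerivAt
    have h1 : HasFDerivAt (fun y : WithLp 2 (E × E) => G1 y.fst)
        ((fderiv ℝ G1 y.fst).comp (WithLp.fstL 2 ℝ E E)) y :=
      HasFDerivAt.comp y hd1 (WithLp.fstL 2 ℝ E E).hasFDerivAt
    have h2 : HasFDerivAt (fun y : WithLp 2 (E × E) => y.fst - y.snd)
        (WithLp.fstL 2 ℝ E E - WithLp.sndL 2 ℝ E E) y :=
      (WithLp.fstL 2 ℝ E E).hasFDerivAt.sub (WithLp.sndL 2 ℝ E E).hasFDerivAt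
    obtain ⟨v1, hv1⟩ := hs1 y.fst hy1 w1
    rw [(h1.prodMk h2).fderiv]
    refine ⟨WithLp.toLp 2 (v1, v1 - w2), ?_⟩
    simp [hv1]
  · ext y
    have e1 : y.fst ∈ A ∧ y.fst ∈ U1 ↔ y.fst ∈ U1 ∧ G1 y.fst = 0 := by
      rw [← Set.mem_inter_iff, hN1]
      rfl
    constructor
    · rintro ⟨⟨h1, h2⟩, h3⟩
      exact ⟨h3, Prod.ext (e1.mp ⟨h1, h3⟩).2 (sub_eq_zero.mpr h2)⟩
    · rintro ⟨h3, h5⟩
      rw [Prod.ext_iff] at h5
      exact ⟨⟨(e1.mpr ⟨h3, h5.1⟩).1, sub_eq_zero.mp h5.2⟩, h3⟩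

/-- A tangent vector of a product of two unit spheres is orthogonal to the position vector in
both factors. -/
lemma tangent_inner_gen {x v : WithLp 2 (E × F)}
    (h : IsTangent {y : WithLp 2 (E × F) | ‖y.fst‖ = 1 ∧ ‖y.snd‖ = 1} x v) :
    ⟪x.fst, v.fst⟫ = 0 ∧ ⟪x.snd, v.snd⟫ = 0 := by
  obtain ⟨c, hc, hc0, hcN, hcv⟩ := h
  have hd : HasDerivAt c v 0 := by
    rw [← hcv]
    exact ((hc.differentiable (by simp)) 0).hasDerivAt
  have h1 : HasDerivAt (fun s => (c s).fst) v.fst 0 :=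
    ((WithLp.fstL 2 ℝ E F).hasFDerivAt (x := c 0)).comp_hasDerivAt (0 : ℝ) hd
  have h2 : HasDerivAt (fun s => (c s).snd) v.snd 0 :=
    ((WithLp.sndL 2 ℝ E F).hasFDerivAt (x := c 0)).comp_hasDerivAt (0 : ℝ) hd
  have h3 := h1.norm_sq
  have h4 := h2.norm_sq
  have e1 : (fun s => ‖(c s).fst‖ ^ 2) =ᶠ[𝓝 0] fun _ => (1 : ℝ) := by
    filter_upwards [hcN] with s hs
    rw [hs.1]
    norm_num
  have e2 : (fun s => ‖(c s).snd‖ ^ 2) =ᶠ[𝓝 0] fun _ => (1 : ℝ) := by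
    filter_upwards [hcN] with s hs
    rw [hs.2]
    norm_num
  have h5 := (h3.congr_of_eventuallyEq e1.symm).unique (hasDerivAt_const (0 : ℝ) (1 : ℝ))
  have h6 := (h4.congr_of_eventuallyEq e2.symm).unique (hasDerivAt_const (0 : ℝ) (1 : ℝ))
  rw [hc0] at h5 h6
  constructor <;> linarith

/-- The reflection of `E` in the line spanned by the unit vector `x`. -/
noncomputable def refl3 (x : E) : E →L[ℝ] E :=
  (2 : ℝ) • (innerSL ℝ x).smulRight x - ContinuousLinearMap.id ℝ E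

lemma refl3_apply (x y : E) : refl3 x y = (2 * ⟪x, y⟫) • x - y := by
  simp [refl3, smul_smul]

lemma refl3_invol {x : E} (hx : ‖x‖ = 1) (y : E) : refl3 x (refl3 x y) = y := by
  have h : ⟪x, x⟫ = 1 := by rw [real_inner_self_eq_norm_sq, hx]; norm_num
  rw [refl3_apply, refl3_apply, inner_sub_right, inner_smul_right, h]
  have : 2 * (2 * ⟪x, y⟫ * 1 - ⟪x, y⟫) = 2 * ⟪x, y⟫ := by ring
  rw [this]
  abel

lemma refl3_norm {x : E} (hx : ‖x‖ = 1) (y : E) : ‖refl3 x y‖ = ‖y‖ := by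
  have h : ‖refl3 x y‖ ^ 2 = ‖y‖ ^ 2 := by
    rw [refl3_apply, norm_sub_sq_real, norm_smul, hx, inner_smul_left, mul_one,
      Real.norm_eq_abs, sq_abs]
    simp
    ring
  exact (sq_eq_sq₀ (norm_nonneg _) (norm_nonneg _)).mp h

/-- The symmetry of a product of two spheres at `x`. -/
noncomputable def sym6 (x : WithLp 2 (E × F)) : WithLp 2 (E × F) →L[ℝ] WithLp 2 (E × F) :=
  ((WithLp.prodContinuousLinearEquiv 2 ℝ E F).symm : (E × F) →L[ℝ] WithLp 2 (E × F)).comp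
    (((refl3 x.fst).comp (WithLp.fstL 2 ℝ E F)).prod
      ((refl3 x.snd).comp (WithLp.sndL 2 ℝ E F)))

lemma sym6_fst (x y : WithLp 2 (E × F)) : (sym6 x y).fst = refl3 x.fst y.fst := rfl

lemma sym6_snd (x y : WithLp 2 (E × F)) : (sym6 x y).snd = refl3 x.snd y.snd := rfl

omit [FiniteDimensional ℝ E] [FiniteDimensional ℝ F] in
lemma ext6 {x y : WithLp 2 (E × F)} (h1 : x.fst = y.fst) (h2 : x.snd = y.snd) : x = y := by
  change (WithLp.toLp 2 (x.fst, x.snd) : WithLp 2 (E × F)) = WithLp.toLp 2 (y.fst, y.snd)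
  rw [h1, h2]

lemma symm_gen (x : WithLp 2 (E × F)) (hx : ‖x.fst‖ = 1 ∧ ‖x.snd‖ = 1) :
    ∃ σ : WithLp 2 (E × F) → WithLp 2 (E × F), ContDiff ℝ ∞ σ ∧
      (∀ y ∈ {y : WithLp 2 (E × F) | ‖y.fst‖ = 1 ∧ ‖y.snd‖ = 1},
        σ y ∈ {y : WithLp 2 (E × F) | ‖y.fst‖ = 1 ∧ ‖y.snd‖ = 1} ∧ σ (σ y) = y) ∧
      (∀ y ∈ {y : WithLp 2 (E × F) | ‖y.fst‖ = 1 ∧ ‖y.snd‖ = 1}, ∀ v,
        IsTangent {y : WithLp 2 (E × F) | ‖y.fst‖ = 1 ∧ ‖y.snd‖ = 1} y v →
          ‖fderiv ℝ σ y v‖ = ‖v‖) ∧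
      σ x = x ∧ ∀ v, IsTangent {y : WithLp 2 (E × F) | ‖y.fst‖ = 1 ∧ ‖y.snd‖ = 1} x v →
        fderiv ℝ σ x v = -v := by
  obtain ⟨hx1, hx2⟩ := hx
  refine ⟨sym6 x, (sym6 x).contDiff, ?_, ?_, ?_, ?_⟩
  · rintro y ⟨hy1, hy2⟩
    refine ⟨⟨?_, ?_⟩, ?_⟩
    · rw [sym6_fst, refl3_norm hx1, hy1]
    · rw [sym6_snd, refl3_norm hx2, hy2]
    · apply ext6
      · rw [sym6_fst, sym6_fst, refl3_invol hx1]
      · rw [sym6_snd, sym6_snd, refl3_invol hx2]
  · intro y _ v _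
    rw [ContinuousLinearMap.fderiv, WithLp.prod_norm_eq_of_L2, WithLp.prod_norm_eq_of_L2,
      sym6_fst, sym6_snd, refl3_norm hx1, refl3_norm hx2]
  · apply ext6
    · rw [sym6_fst, refl3_apply, real_inner_self_eq_norm_sq, hx1]
      rw [show (2 : ℝ) * 1 ^ 2 = 1 + 1 by norm_num, add_smul, one_smul, add_sub_cancel_right]
    · rw [sym6_snd, refl3_apply, real_inner_self_eq_norm_sq, hx2]
      rw [show (2 : ℝ) * 1 ^ 2 = 1 + 1 by norm_num, add_smul, one_smul, add_sub_cancel_right]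
  · intro v hv
    obtain ⟨h1, h2⟩ := tangent_inner_gen hv
    rw [ContinuousLinearMap.fderiv]
    apply ext6
    · rw [sym6_fst, refl3_apply, h1]
      simp
    · rw [sym6_snd, refl3_apply, h2]
      simp

lemma clm_deriv_eq_zero {c : ℝ → E} (hc : ContDiff ℝ ∞ c) (L : E →L[ℝ] ℝ)
    (h : ∀ s, L (c s) = 0) (s : ℝ) : L (deriv c s) = 0 := by
  have hd : HasDerivAt c (deriv c s) s := ((hc.differentiable (by simp)) s).hasDerivAt
  have h1 : HasDerivAt (fun s => L (c s)) (L (deriv c s)) s :=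
    (L.hasFDerivAt (x := c s)).comp_hasDerivAt s hd
  have h2 : (fun s => L (c s)) = fun _ => (0 : ℝ) := funext h
  rw [h2] at h1
  exact h1.unique (hasDerivAt_const s 0)

lemma clm_deriv2_eq_zero {c : ℝ → E} (hc : ContDiff ℝ ∞ c) (L : E →L[ℝ] ℝ)
    (h : ∀ s, L (c s) = 0) (s : ℝ) : L (deriv (deriv c) s) = 0 := by
  have h1 : ContDiff ℝ ∞ (deriv c) := by
    have : ContDiff ℝ (∞ + 1) c := by simpa using hc
    exact (contDiff_succ_iff_deriv.mp this).2.2
  exact clm_deriv_eq_zero h1 L (clm_deriv_eq_zero hc L h) s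

/-- Rotating the first factor gives a tangent vector. -/
lemma isTangent_rot1 {N : Set (WithLp 2 (E × F))} (x : WithLp 2 (E × F)) (a' : E)
    (h : ∀ s : ℝ, (WithLp.toLp 2 (Real.cos s • x.fst + Real.sin s • a', x.snd) :
      WithLp 2 (E × F)) ∈ N) :
    IsTangent N x (WithLp.toLp 2 (a', 0)) := by
  have e : (fun s : ℝ => (WithLp.toLp 2 (Real.cos s • x.fst + Real.sin s • a', x.snd) :
      WithLp 2 (E × F))) = fun s : ℝ => Real.cos s • WithLp.toLp 2 (x.fst, (0 : F)) +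
        Real.sin s • WithLp.toLp 2 (a', (0 : F)) + WithLp.toLp 2 ((0 : E), x.snd) := by
    funext s
    apply ext6
    · simp
    · simp
  refine ⟨_, ?_, ?_, Filter.Eventually.of_forall h, ?_⟩
  · rw [e]
    exact ((Real.contDiff_cos.smul contDiff_const).add
      (Real.contDiff_sin.smul contDiff_const)).add contDiff_const
  · apply ext6
    · simp
    · simp
  · rw [e]
    have h1 : HasDerivAt (fun s : ℝ => Real.cos s • WithLp.toLp 2 (x.fst, (0 : F)) +
        Real.sin s • WithLp.toLp 2 (a', (0 : F)) + WithLp.toLp 2 ((0 : E), x.snd))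
        (-Real.sin 0 • WithLp.toLp 2 (x.fst, (0 : F)) +
          Real.cos 0 • WithLp.toLp 2 (a', (0 : F))) 0 :=
      (((Real.hasDerivAt_cos 0).smul_const _).add
        ((Real.hasDerivAt_sin 0).smul_const _)).add_const _
    rw [h1.deriv]
    simp

/-- Rotating the second factor gives a tangent vector. -/
lemma isTangent_rot2 {N : Set (WithLp 2 (E × F))} (x : WithLp 2 (E × F)) (b' : F)
    (h : ∀ s : ℝ, (WithLp.toLp 2 (x.fst, Real.cos s • x.snd + Real.sin s • b') :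
      WithLp 2 (E × F)) ∈ N) :
    IsTangent N x (WithLp.toLp 2 (0, b')) := by
  have e : (fun s : ℝ => (WithLp.toLp 2 (x.fst, Real.cos s • x.snd + Real.sin s • b') :
      WithLp 2 (E × F))) = fun s : ℝ => Real.cos s • WithLp.toLp 2 ((0 : E), x.snd) +
        Real.sin s • WithLp.toLp 2 ((0 : E), b') + WithLp.toLp 2 (x.fst, (0 : F)) := by
    funext s
    apply ext6
    · simp
    · simp
  refine ⟨_, ?_, ?_, Filter.Eventually.of_forall h, ?_⟩
  · rw [e]
    exact ((Real.contDiff_cos.smul contDiff_const).add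
      (Real.contDiff_sin.smul contDiff_const)).add contDiff_const
  · apply ext6
    · simp
    · simp
  · rw [e]
    have h1 : HasDerivAt (fun s : ℝ => Real.cos s • WithLp.toLp 2 ((0 : E), x.snd) +
        Real.sin s • WithLp.toLp 2 ((0 : E), b') + WithLp.toLp 2 (x.fst, (0 : F)))
        (-Real.sin 0 • WithLp.toLp 2 ((0 : E), x.snd) +
          Real.cos 0 • WithLp.toLp 2 ((0 : E), b')) 0 :=
      (((Real.hasDerivAt_cos 0).smul_const _).add
        ((Real.hasDerivAt_sin 0).smul_const _)).add_const _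
    rw [h1.deriv]
    simp

end Prod

/-- the unit sphere of `ℝ³` -/
def S2 : Set E3 := {a | ‖a‖ = 1}

/-- the equator -/
def CC : Set E3 := {a | ‖a‖ = 1 ∧ a 2 = 0}

lemma hasFDerivAt_normsq (a : E3) : HasFDerivAt (fun b : E3 => ‖b‖ ^ 2 - 1)
    (2 • innerSL ℝ a) a := by
  have := (hasStrictFDerivAt_norm_sq a).hasFDerivAt
  simpa using this.sub_const 1

lemma S2_dim : IsSubmanifold 2 S2 := by
  intro x hx
  refine ⟨ℝ, inferInstance, inferInstance, inferInstance, {a | a ≠ 0}, fun a => ‖a‖ ^ 2 - 1,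
    ?_, isOpen_ne, ?_, ?_, ?_, ?_⟩
  · simp
  · rintro rfl
    simp [S2] at hx
  · exact ((contDiff_norm_sq ℝ).sub contDiff_const).contDiffOn
  · intro a ha w
    rw [(hasFDerivAt_normsq a).fderiv]
    have h0 : ⟪a, a⟫ ≠ 0 := by
      rw [real_inner_self_eq_norm_sq]
      have : ‖a‖ ≠ 0 := norm_ne_zero_iff.mpr ha
      positivity
    refine ⟨(w / (2 * ⟪a, a⟫)) • a, ?_⟩
    simp only [smul_apply, innerSL_apply_apply, inner_smul_right]
    rw [nsmul_eq_mul]
    field_simp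
    push_cast
    ring
  · ext a
    constructor
    · rintro ⟨h1, h2⟩
      refine ⟨h2, ?_⟩
      change ‖a‖ = 1 at h1
      simp [h1]
    · rintro ⟨h1, h2⟩
      refine ⟨?_, h1⟩
      change ‖a‖ = 1
      have h3 : ‖a‖ ^ 2 = 1 := by linarith
      nlinarith [norm_nonneg a, sq_nonneg (‖a‖ - 1)]

lemma normsq_eq_one_iff (a : E3) : ‖a‖ = 1 ↔ ‖a‖ ^ 2 = 1 := by
  constructor
  · intro h
    rw [h]
    norm_num
  · intro h
    nlinarith [norm_nonneg a, sq_nonneg (‖a‖ - 1)]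

/-- the third coordinate -/
noncomputable def c3 : E3 →L[ℝ] ℝ := EuclideanSpace.proj 2

lemma c3_apply (a : E3) : c3 a = a 2 := rfl

lemma surj_aux {a : E3} (ha : a 0 ^ 2 + a 1 ^ 2 ≠ 0) (u w : ℝ) :
    ∃ v : E3, 2 * ⟪a, v⟫ = u ∧ v 2 = w := by
  set α := (u / 2 - a 2 * w) / (a 0 ^ 2 + a 1 ^ 2) with hα
  refine ⟨!₂[α * a 0, α * a 1, w], ?_, ?_⟩
  · rw [inner3]
    simp only [Matrix.cons_val_zero, Matrix.cons_val_one, Matrix.cons_val]
    have : α * (a 0 ^ 2 + a 1 ^ 2) = u / 2 - a 2 * w := by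
      rw [hα]
      field_simp
    linear_combination 2 * this
  · simp

lemma CC_dim : IsSubmanifold 1 CC := by
  intro x hx
  refine ⟨ℝ × ℝ, inferInstance, inferInstance, inferInstance, {a | a 0 ^ 2 + a 1 ^ 2 ≠ 0},
    fun a => (‖a‖ ^ 2 - 1, c3 a), ?_, ?_, ?_, ?_, ?_, ?_⟩
  · simp
  · apply isOpen_ne_fun
    · fun_prop
    · fun_prop
  · have h1 := (normsq_eq_one_iff x).mp hx.1
    rw [normsq3, hx.2] at h1
    change x 0 ^ 2 + x 1 ^ 2 ≠ 0
    intro h
    linarith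
  · exact (((contDiff_norm_sq ℝ).sub contDiff_const).prodMk c3.contDiff).contDiffOn
  · rintro a ha ⟨u, w⟩
    obtain ⟨v, hv1, hv2⟩ := surj_aux ha u w
    rw [((hasFDerivAt_normsq a).prodMk c3.hasFDerivAt).fderiv]
    refine ⟨v, ?_⟩
    ext
    · simp only [ContinuousLinearMap.prod_apply, smul_apply,
        innerSL_apply_apply, nsmul_eq_mul]
      exact_mod_cast hv1
    · exact hv2
  · ext a
    constructor
    · rintro ⟨h1, h2⟩
      refine ⟨h2, ?_⟩
      have h3 := (normsq_eq_one_iff a).mp h1.1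
      ext
      · simp [h3]
      · exact h1.2
    · rintro ⟨h1, h2⟩
      rw [Prod.ext_iff] at h2
      refine ⟨⟨(normsq_eq_one_iff a).mpr ?_, h2.2⟩, h1⟩
      have := h2.1
      simp only [Prod.fst_zero] at this
      linarith

theorem NN0_dim : IsSubmanifold 4 NN0 := submanifold_prod S2_dim S2_dim

theorem NN1_dim : IsSubmanifold 2 NN1 := submanifold_prod CC_dim CC_dim

lemma continuous_fst6 : Continuous (fun y : V6 => y.fst) := (WithLp.fstL 2 ℝ E3 E3).continuous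

lemma continuous_snd6 : Continuous (fun y : V6 => y.snd) := (WithLp.sndL 2 ℝ E3 E3).continuous

theorem MM_dim : IsSubmanifold 1 MM := submanifold_diag CC_dim

/-- parametrization of the equator -/
noncomputable def param (θ : ℝ) : E3 := !₂[Real.cos θ, Real.sin θ, 0]

lemma continuous_param : Continuous param := by
  unfold param
  fun_prop

lemma param_mem (θ : ℝ) : param θ ∈ CC := by
  refine ⟨?_, ?_⟩
  · rw [normsq_eq_one_iff, normsq3]
    simp [param]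
  · simp [param]

lemma exists_param {a : E3} (ha : a ∈ CC) : ∃ θ, param θ = a := by
  have h1 := (normsq_eq_one_iff a).mp ha.1
  rw [normsq3, ha.2] at h1
  have h2 : ‖(⟨a 0, a 1⟩ : ℂ)‖ = 1 := by
    rw [Complex.norm_eq_sqrt_sq_add_sq]
    rw [Real.sqrt_eq_one]
    simpa using h1
  obtain ⟨θ, hθ⟩ := (Complex.norm_eq_one_iff _).mp h2
  refine ⟨θ, ?_⟩
  rw [Complex.exp_mul_I] at hθ
  have h3 := congrArg Complex.re hθ
  have h4 := congrArg Complex.im hθ
  simp [← Complex.ofReal_cos, ← Complex.ofReal_sin] at h3 h4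
  ext i
  fin_cases i
  · simpa [param] using h3
  · simpa [param] using h4
  · simpa [param] using ha.2.symm

lemma isCompact_of_subset {N : Set V6} (hN : IsClosed N) (h : N ⊆ NN0) : IsCompact N := by
  refine Metric.isCompact_of_isClosed_isBounded hN ?_
  refine (Metric.isBounded_closedBall (x := (0 : V6)) (r := 2)).subset ?_
  intro y hy
  obtain ⟨h1, h2⟩ := h hy
  rw [mem_closedBall_zero_iff, WithLp.prod_norm_eq_of_L2, h1, h2]
  rw [Real.sqrt_le_left (by norm_num)]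
  norm_num

lemma isClosed_S2 : IsClosed S2 := isClosed_eq continuous_norm continuous_const

lemma isClosed_CC : IsClosed CC :=
  (isClosed_eq continuous_norm continuous_const).inter (isClosed_eq c3.continuous continuous_const)

lemma isClosed_NN0 : IsClosed NN0 :=
  (isClosed_S2.preimage continuous_fst6).inter (isClosed_S2.preimage continuous_snd6)

lemma isClosed_NN1 : IsClosed NN1 :=
  (isClosed_CC.preimage continuous_fst6).inter (isClosed_CC.preimage continuous_snd6)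

lemma isClosed_MM : IsClosed MM :=
  (isClosed_CC.preimage continuous_fst6).inter (isClosed_eq continuous_fst6 continuous_snd6)

lemma NN1_subset : NN1 ⊆ NN0 := fun _ hy => ⟨hy.1.1, hy.2.1⟩

lemma MM_subset : MM ⊆ NN1 := fun y hy => ⟨hy.1, by rw [← hy.2]; exact hy.1⟩

lemma continuous_toLp6 : Continuous (fun z : E3 × E3 => (WithLp.toLp 2 z : V6)) :=
  (WithLp.prodContinuousLinearEquiv 2 ℝ E3 E3).symm.continuous

lemma NN1_connected : IsConnected NN1 := by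
  have : NN1 = Set.range (fun z : ℝ × ℝ => (WithLp.toLp 2 (param z.1, param z.2) : V6)) := by
    ext y
    constructor
    · intro hy
      obtain ⟨θ, hθ⟩ := exists_param hy.1
      obtain ⟨φ, hφ⟩ := exists_param hy.2
      refine ⟨(θ, φ), ?_⟩
      simp only [hθ, hφ]
      rfl
    · rintro ⟨z, rfl⟩
      exact ⟨param_mem z.1, param_mem z.2⟩
  rw [this]
  apply isConnected_range
  exact continuous_toLp6.comp ((continuous_param.comp continuous_fst).prodMk
    (continuous_param.comp continuous_snd))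

lemma MM_connected : IsConnected MM := by
  have : MM = Set.range (fun θ : ℝ => (WithLp.toLp 2 (param θ, param θ) : V6)) := by
    ext y
    constructor
    · intro hy
      obtain ⟨θ, hθ⟩ := exists_param hy.1
      refine ⟨θ, ?_⟩
      have h2 : y.snd = param θ := by rw [hθ, hy.2]
      change (WithLp.toLp 2 (param θ, param θ) : V6) = WithLp.toLp 2 (y.fst, y.snd)
      rw [h2, hθ]
    · rintro ⟨θ, rfl⟩
      exact ⟨param_mem θ, rfl⟩
  rw [this]
  apply isConnected_range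
  exact continuous_toLp6.comp (continuous_param.prodMk continuous_param)

lemma NN0_connected : IsConnected NN0 := by
  have h1 : IsConnected (Metric.sphere (0 : E3) 1) := by
    apply isConnected_sphere _ _ (by norm_num)
    rw [← Module.finrank_eq_rank ℝ E3, finrank_E3]
    norm_num
  have h2 := (h1.prod h1).image (fun z : E3 × E3 => (WithLp.toLp 2 z : V6))
    continuous_toLp6.continuousOn
  convert h2 using 1
  ext y
  constructor
  · intro hy
    refine ⟨(y.fst, y.snd), ⟨?_, ?_⟩, rfl⟩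
    · simpa using hy.1
    · simpa using hy.2
  · rintro ⟨z, ⟨hz1, hz2⟩, rfl⟩
    refine ⟨?_, ?_⟩
    · simpa using hz1
    · simpa using hz2

theorem MM_compact : IsCompact MM ∧ IsConnected MM ∧ MM ⊆ NN1 :=
  ⟨isCompact_of_subset isClosed_MM (MM_subset.trans NN1_subset), MM_connected, MM_subset⟩

theorem NN0_symm : IsCompactSymmetricSpace NN0 :=
  ⟨isCompact_of_subset isClosed_NN0 subset_rfl, NN0_connected, ⟨4, NN0_dim⟩,
    fun x hx => symm_gen x hx⟩

/-- the rotation generator -/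
noncomputable def JJ (a : E3) : E3 := !₂[-a 1, a 0, 0]

lemma rot_mem {a : E3} (ha : a ∈ CC) (s : ℝ) : Real.cos s • a + Real.sin s • JJ a ∈ CC := by
  have h1 := (normsq_eq_one_iff a).mp ha.1
  rw [normsq3, ha.2] at h1
  have h2 := ha.2
  refine ⟨?_, ?_⟩
  · rw [normsq_eq_one_iff, normsq3]
    simp only [JJ, PiLp.add_apply, PiLp.smul_apply, smul_eq_mul, Matrix.cons_val_zero,
      Matrix.cons_val_one, Matrix.cons_val, h2]
    linear_combination (Real.cos s ^ 2 + Real.sin s ^ 2) * h1 + Real.sin_sq_add_cos_sq s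
  · simp [JJ, h2]

lemma alg3 {a q v : E3} (ha : a ∈ CC) (hq : q 2 = 0) (hJ : ⟪q, JJ a⟫ = 0) (hv : ⟪a, v⟫ = 0) :
    ⟪q, v⟫ = 0 := by
  have h1 := (normsq_eq_one_iff a).mp ha.1
  rw [normsq3, ha.2] at h1
  rw [inner3] at hJ hv ⊢
  rw [ha.2] at hv
  simp only [JJ, Matrix.cons_val_zero, Matrix.cons_val_one, Matrix.cons_val] at hJ
  rw [hq] at hJ ⊢
  linear_combination (-(q 0 * v 0 + q 1 * v 1)) * h1 + (a 0 * q 0 + a 1 * q 1) * hv +
    (-a 1 * v 0 + a 0 * v 1) * hJ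

theorem NN1_geod : IsCompactTotallyGeodesic NN0 NN1 := by
  refine ⟨NN1_subset, isCompact_of_subset isClosed_NN1 NN1_subset, NN1_connected,
    ⟨2, NN1_dim⟩, ?_⟩
  rintro c ⟨hc, hN, hg⟩
  refine ⟨hc, fun t => NN1_subset (hN t), fun t v hv => ?_⟩
  obtain ⟨h1, h2⟩ : ⟪(c t).fst, v.fst⟫ = 0 ∧ ⟪(c t).snd, v.snd⟫ = 0 := tangent_inner_gen hv
  have hq1 : (deriv (deriv c) t).fst 2 = 0 :=
    clm_deriv2_eq_zero hc (c3.comp (WithLp.fstL 2 ℝ E3 E3)) (fun s => (hN s).1.2) t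
  have hq2 : (deriv (deriv c) t).snd 2 = 0 :=
    clm_deriv2_eq_zero hc (c3.comp (WithLp.sndL 2 ℝ E3 E3)) (fun s => (hN s).2.2) t
  have hJ1 := hg t _ (isTangent_rot1 (c t) (JJ (c t).fst)
    (fun s => ⟨rot_mem (hN t).1 s, (hN t).2⟩))
  have hJ2 := hg t _ (isTangent_rot2 (c t) (JJ (c t).snd)
    (fun s => ⟨(hN t).1, rot_mem (hN t).2 s⟩))
  rw [WithLp.prod_inner_apply] at hJ1 hJ2 ⊢
  have e1 : ⟪(deriv (deriv c) t).fst, JJ (c t).fst⟫ = 0 := by
    have : ⟪(deriv (deriv c) t).fst, JJ (c t).fst⟫ + ⟪(deriv (deriv c) t).snd, (0 : E3)⟫ = 0 := hJ1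
    rwa [inner_zero_right, add_zero] at this
  have e2 : ⟪(deriv (deriv c) t).snd, JJ (c t).snd⟫ = 0 := by
    have : ⟪(deriv (deriv c) t).fst, (0 : E3)⟫ + ⟪(deriv (deriv c) t).snd, JJ (c t).snd⟫ = 0 := hJ2
    rwa [inner_zero_right, zero_add] at this
  have f1 := alg3 (hN t).1 hq1 e1 h1
  have f2 := alg3 (hN t).2 hq2 e2 h2
  change ⟪(deriv (deriv c) t).fst, v.fst⟫ + ⟪(deriv (deriv c) t).snd, v.snd⟫ = 0
  rw [f1, f2, add_zero]

end Pool.Agent.Helper96.TautA
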